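import Pool.Agent.Lib.MP_881e12_lc.TA.I1

namespace MP881e12
namespace TA

open MP60f107 Finset
open MP60f107.Contr (sw pr ht mk)

theorem I2_sum_sub_le {ι : Type} [Fintype ι] (p : ι → Prop) [Fintype {i // p i}] (f : ι → ℕ) :
    ∑ i : {i // p i}, f i.1 ≤ ∑ i, f i := by
  have h := Finset.sum_map univ ⟨(Subtype.val : {i // p i} → ι), Subtype.val_injective⟩ f
  refine le_trans (le_of_eq h.symm) (Finset.sum_le_sum_of_subset (subset_univ _))

/-- The drawing restricted to the edges that are not loops of the partition `id`. -/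
def I2_start {V₀ ι₀ : Type} (N₀ : Net V₀ ι₀) {L₀ : Type} [LinearOrder L₀] (D₀ : Drawing N₀ L₀) :
    Drawing (quo N₀ (id : V₀ → V₀)) L₀ where
  pos := D₀.pos
  inner i := D₀.inner i.1
  last i := D₀.last i.1
  pos_inj := D₀.pos_inj
  nodup i := D₀.nodup i.1
  disj i j hij := D₀.disj i.1 j.1 (fun h => hij (Subtype.ext h))
  avoid i := D₀.avoid i.1

theorem I2_start_dcr {V₀ ι₀ : Type} (N₀ : Net V₀ ι₀) [Fintype ι₀]
    [DecidableEq ι₀] {L₀ : Type} [LinearOrder L₀] (D₀ : Drawing N₀ L₀)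
    [Fintype (QE N₀ (id : V₀ → V₀))] [DecidableEq (QE N₀ (id : V₀ → V₀))] :
    (I2_start N₀ D₀).dcr ≤ D₀.dcr := by
  unfold Drawing.dcr
  have h1 : ∀ i : QE N₀ (id : V₀ → V₀),
      (∑ j : QE N₀ (id : V₀ → V₀), if i = j then 0 else
        crL ((I2_start N₀ D₀).path i) ((I2_start N₀ D₀).path j)) ≤
      ∑ j : ι₀, if i.1 = j then 0 else crL (D₀.path i.1) (D₀.path j) := by
    intro i
    refine le_trans (Finset.sum_le_sum fun j _ => ?_)
      (I2_sum_sub_le (fun i => id (N₀.src i) ≠ id (N₀.tgt i))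
        (fun j => if i.1 = j then 0 else crL (D₀.path i.1) (D₀.path j)))
    by_cases h : i = j
    · rw [if_pos h]
      exact Nat.zero_le _
    · rw [if_neg h, if_neg (fun h' => h (Subtype.ext h'))]
      exact le_rfl
  exact le_trans (Finset.sum_le_sum fun i _ => h1 i)
    (I2_sum_sub_le (fun i => id (N₀.src i) ≠ id (N₀.tgt i))
      (fun i => ∑ j : ι₀, if i = j then 0 else crL (D₀.path i) (D₀.path j)))

theorem I2_real (m : ℕ) (hm : 1 ≤ m) :
    1 / (((m + 1 : ℕ) : ℝ) * Real.sqrt ((m + 1 : ℕ) : ℝ)) ≤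
      2 * (1 / Real.sqrt m - 1 / Real.sqrt ((m + 1 : ℕ) : ℝ)) := by
  have hm0 : (0 : ℝ) < m := by exact_mod_cast hm
  obtain ⟨x, hx⟩ : ∃ x, x = Real.sqrt m := ⟨_, rfl⟩
  obtain ⟨y, hy⟩ : ∃ y, y = Real.sqrt ((m + 1 : ℕ) : ℝ) := ⟨_, rfl⟩
  have hx0 : 0 < x := by rw [hx]; exact Real.sqrt_pos.2 hm0
  have hx2 : x ^ 2 = m := by rw [hx]; exact Real.sq_sqrt hm0.le
  have hy2 : y ^ 2 = m + 1 := by
    rw [hy, Real.sq_sqrt (by positivity)]
    push_cast
    ring
  have hy0 : 0 < y := by rw [hy]; exact Real.sqrt_pos.2 (by positivity)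
  have hxy : x < y := by nlinarith
  rw [← hx, ← hy]
  have h1 : ((m + 1 : ℕ) : ℝ) = y ^ 2 := by rw [hy2]; push_cast; ring
  rw [h1]
  have h2 : 1 / x - 1 / y = 1 / (x * y * (x + y)) := by
    have : (y - x) * (x + y) = 1 := by nlinarith
    field_simp
    linarith
  rw [h2, mul_one_div, div_le_div_iff₀ (by positivity) (by positivity), one_mul]
  have h3 : x + y ≤ 2 * y := by linarith
  have h4 : x * y ≤ y * y := mul_le_mul_of_nonneg_right hxy.le hy0.le
  calc x * y * (x + y) ≤ (y * y) * (2 * y) :=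
        mul_le_mul h4 h3 (by positivity) (by positivity)
    _ = 2 * (y ^ 2 * y) := by ring

theorem I2_ind {V₀ ι₀ : Type} (N₀ : Net V₀ ι₀) [Fintype V₀] [Fintype ι₀]
    [DecidableEq ι₀]
    (hE : 2 * Fintype.card ι₀ ≤ Fintype.card V₀ ^ 2)
    (hdg : ∀ v, dgN N₀ v ≤ Fintype.card V₀) {L₀ : Type}
    [LinearOrder L₀] (D₀ : Drawing N₀ L₀) (k : ℕ) : ∀ (m : ℕ), 1 ≤ m →
      m + k = Fintype.card V₀ →
    ∃ (Q : Type) (_ : Fintype Q) (_ : DecidableEq Q) (c : V₀ → Q), Fintype.card Q = m ∧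
      (∀ q, fib c q * m ≤ 8 * Fintype.card V₀) ∧
      ∃ (L : Type) (_ : LinearOrder L) (D : Drawing (quo N₀ c) L),
        (D.dcr : ℝ) ≤ D₀.dcr + 4000 * (Fintype.card V₀ : ℝ) ^ 4 *
          (1 / Real.sqrt m - 1 / Real.sqrt (Fintype.card V₀)) := by
  induction k with
  | zero =>
    intro m hm hmn
    classical
    rw [add_zero] at hmn
    refine ⟨V₀, inferInstance, Classical.decEq V₀, id, hmn.symm, ?_, L₀, inferInstance,
      I2_start N₀ D₀, ?_⟩
    · intro q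
      have h1 : fib (id : V₀ → V₀) q = 1 := by
        unfold fib
        rw [Finset.card_eq_one]
        refine ⟨q, ?_⟩
        ext v
        simp
      rw [h1, hmn]
      omega
    · rw [hmn, sub_self, mul_zero, add_zero]
      exact_mod_cast I2_start_dcr N₀ D₀
  | succ k ih =>
    intro m hm hmn
    obtain ⟨Q, iF, iD, c, hQ, hf, L, iL, D, hD⟩ := ih (m + 1) (by omega) (by omega)
    obtain ⟨a, b, hab, ha, hb, L', iL', D', hD'⟩ := merge_once N₀ c hE hdg
      (by omega) (by omega) (by rw [hQ]; exact hf) D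
    refine ⟨{q : Q // q ≠ a}, inferInstance, inferInstance, mrg c a b hab, ?_, ?_, L', iL', D', ?_⟩
    · have h1 : Fintype.card {q : Q // q ≠ a} = Fintype.card Q - 1 := by
        simp [Fintype.card_subtype_compl]
      rw [h1, hQ]
      rfl
    · intro q
      rw [hQ] at ha hb
      have h1 := fib_mrg c a b hab q
      by_cases hq : q.1 = b
      · rw [if_pos hq, hq] at h1
        calc fib (mrg c a b hab) q * m ≤ (fib c b + fib c a) * m := Nat.mul_le_mul_right _ h1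
          _ ≤ (fib c b + fib c a) * (m + 1) := Nat.mul_le_mul_left _ (Nat.le_succ m)
          _ = fib c b * (m + 1) + fib c a * (m + 1) := by ring
          _ ≤ 8 * Fintype.card V₀ := by omega
      · rw [if_neg hq, add_zero] at h1
        calc fib (mrg c a b hab) q * m ≤ fib c q.1 * m := Nat.mul_le_mul_right _ h1
          _ ≤ fib c q.1 * (m + 1) := Nat.mul_le_mul_left _ (Nat.le_succ m)
          _ ≤ 8 * Fintype.card V₀ := hf q.1
    · rw [hQ] at hD'
      have h1 := I2_real m hm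
      obtain ⟨n4, hn4⟩ : ∃ n4 : ℝ, n4 = (Fintype.card V₀ : ℝ) ^ 4 := ⟨_, rfl⟩
      have hn40 : 0 ≤ n4 := by rw [hn4]; positivity
      rw [← hn4] at hD hD' ⊢
      have h2 : 2000 * n4 / (((m + 1 : ℕ) : ℝ) * Real.sqrt ((m + 1 : ℕ) : ℝ)) =
          2000 * n4 * (1 / (((m + 1 : ℕ) : ℝ) * Real.sqrt ((m + 1 : ℕ) : ℝ))) := by ring
      rw [h2] at hD'
      have h3 := mul_le_mul_of_nonneg_left h1 (by positivity : 0 ≤ 2000 * n4)
      refine le_trans hD' ?_
      have h4 := add_le_add hD h3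
      refine le_trans h4 (le_of_eq ?_)
      ring

/-- ROW TA-I2 (150 lines).  The iteration.

Here `merge_once` is the stub of Iface.lean.  Prove by decreasing induction on `m` (e.g. induction on
`k = n - m`, `n = |V₀|`): for `1 ≤ m ≤ n` there are `Q, c, D` with `|Q| = m`, `fib c q * m ≤ 8 n` and
`D.dcr ≤ D₀.dcr + 4000 n⁴ (1 / √m - 1 / √n)`.
Start `m = n`: `Q = V₀` (with `Classical.decEq`), `c = id`, `fib id q = 1`, `QE N₀ id` is all of `ι₀`
(`hN₀`): the drawing `D₀` restricted to the subtype (same positions and chains), its dcr is `≤ D₀.dcr`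
(injection `i ↦ i.1`).
Step from `m + 1` to `m` (`1 ≤ m`): `merge_once` (`2 ≤ m + 1`) gives `a ≠ b` with
`fib c a * (m + 1) ≤ 4 n`, `fib c b * (m + 1) ≤ 4 n` and `D'` on `mrg c a b hab`; the new type
`{q // q ≠ a}` has `m` elements (`Fintype.card_subtype_compl`/`Fintype.card_subtype_eq`); by `fib_mrg`
(I1a) the new fibres are `≤ fib c q` for `q ≠ b`, and `≤ fib c a + fib c b ≤ 8 n / (m + 1)` for `q = b`, so
`fib * m ≤ 8 n`.  Cost: `2000 n⁴ / ((m + 1) √(m + 1)) ≤ 4000 n⁴ (1 / √m - 1 / √(m + 1))`, because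
`1 / √m - 1 / √(m+1) = (√(m+1) - √m) / (√m √(m+1)) = 1 / (√m √(m+1) (√(m+1) + √m)) ≥
1 / (2 (m + 1) √(m + 1))`. -/
theorem iterate {V₀ ι₀ : Type} (N₀ : Net V₀ ι₀) [Fintype V₀] [Fintype ι₀]
    [DecidableEq ι₀]
    (hE : 2 * Fintype.card ι₀ ≤ Fintype.card V₀ ^ 2)
    (hdg : ∀ v, dgN N₀ v ≤ Fintype.card V₀) (hN₀ : ∀ i, N₀.src i ≠ N₀.tgt i) {L₀ : Type}
    [LinearOrder L₀] (D₀ : Drawing N₀ L₀) (m : ℕ) (hm : 1 ≤ m) (hmn : m ≤ Fintype.card V₀) :
    ∃ (Q : Type) (_ : Fintype Q) (_ : DecidableEq Q) (c : V₀ → Q), Fintype.card Q = m ∧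
      (∀ q, fib c q * m ≤ 8 * Fintype.card V₀) ∧
      ∃ (L : Type) (_ : LinearOrder L) (D : Drawing (quo N₀ c) L),
        (D.dcr : ℝ) ≤ D₀.dcr + 4000 * (Fintype.card V₀ : ℝ) ^ 4 / Real.sqrt m := by
  obtain ⟨Q, iF, iD, c, hQ, hf, L, iL, D, hD⟩ := I2_ind N₀ hE hdg D₀ (Fintype.card V₀ - m) m hm
    (by omega)
  refine ⟨Q, iF, iD, c, hQ, hf, L, iL, D, le_trans hD ?_⟩
  have h1 : 0 ≤ 4000 * (Fintype.card V₀ : ℝ) ^ 4 * (1 / Real.sqrt (Fintype.card V₀)) := by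
    positivity
  have h2 : 4000 * (Fintype.card V₀ : ℝ) ^ 4 *
      (1 / Real.sqrt m - 1 / Real.sqrt (Fintype.card V₀)) =
      4000 * (Fintype.card V₀ : ℝ) ^ 4 / Real.sqrt m -
      4000 * (Fintype.card V₀ : ℝ) ^ 4 * (1 / Real.sqrt (Fintype.card V₀)) := by ring
  rw [h2]
  linarith

end TA
end MP881e12
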