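import Pool.Agent.Lib.MP_881e12_lc.TA.F5
import Pool.Agent.Lib.MP_881e12_lc.TA.I2

namespace MP881e12
namespace TA

open MP60f107 Finset
open MP60f107.Contr (sw pr ht mk)

/-- Existence of templates.

Proof: `R = ⌈(4000 / ε)²⌉₊ + ⌈8 / ε⌉₊ + 1`, `n₀ = R`.  For `n ≥ R`: `exists_start` (F4) gives `D₀`,
`iterate (GNet G)` with `m = R` gives `Q`, `c`, `D`; an equivalence `e : Q ≃ Fin R`, `transport` (F3),
`template_of_clusters` (F5) with `c' = e ∘ c`. -/
theorem exists_template_proof (ε : ℝ) (hε : 0 < ε) : ∃ R n₀ : ℕ, 0 < R ∧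
    ∀ n ≥ n₀, ∀ (G : SimpleGraph (Fin n)), ∃ (U : Fin n → ℕ) (L : Type) (_ : LinearOrder L)
      (T : Drawing (KNet R) L), (∀ x, U x < R) ∧ (∀ r, ((cl U r).card : ℝ) ≤ ε * n + 1) ∧
      Normal T ∧ (∀ π π', π ≠ π' → crL (T.path π) (T.path π') ≤ 1) ∧
      (∑ π : KE R, ∑ π' : KE R, if π = π' then 0 else
        eC G (cl U π.1.1) (cl U π.1.2) * eC G (cl U π'.1.1) (cl U π'.1.2) *
          crL (T.path π) (T.path π') : ℕ) ≤ (2 * cr G + ε * n ^ 4 : ℝ) := by
  classical
  obtain ⟨R, hR⟩ : ∃ R : ℕ, R = ⌈(4000 / ε) ^ 2⌉₊ + ⌈8 / ε⌉₊ + 1 := ⟨_, rfl⟩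
  have hR0 : 0 < R := by omega
  have hR1 : (4000 / ε) ^ 2 ≤ (R : ℝ) := by
    refine (Nat.le_ceil _).trans ?_
    exact_mod_cast (by omega : ⌈(4000 / ε) ^ 2⌉₊ ≤ R)
  have hR2 : 8 / ε ≤ (R : ℝ) := by
    refine (Nat.le_ceil _).trans ?_
    exact_mod_cast (by omega : ⌈8 / ε⌉₊ ≤ R)
  have hRr : (0 : ℝ) < R := by exact_mod_cast hR0
  refine ⟨R, R, hR0, fun n hn G => ?_⟩
  obtain ⟨L₀, _, D₀, hD₀⟩ := exists_start G
  have hcard : Fintype.card (Fin n) = n := Fintype.card_fin n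
  obtain ⟨Q, _, _, c, hQ, hfib, L, _, D, hD⟩ := iterate (GNet G)
    (by rw [hcard]; exact card_GE_le G) (by intro v; rw [hcard]; exact dgN_GNet G v)
    (fun i => (GNet_rep G).simple.loopless i) D₀ R hR0 (by rw [hcard]; exact hn)
  let e : Q ≃ Fin R := Fintype.equivFinOfCardEq hQ
  obtain ⟨D', hD'⟩ := transport (GNet G) c e D
  obtain ⟨L', _, T, hT, hX, hS⟩ := template_of_clusters G (fun v => e (c v)) D'
  refine ⟨fun x => (e (c x)).val, L', inferInstance, T, fun x => (e (c x)).isLt, fun r => ?_,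
    hT, hX, ?_⟩
  · -- the classes are small
    by_cases hr : r < R
    · have h1 : (cl (fun x => (e (c x)).val) r).card ≤ fib c (e.symm ⟨r, hr⟩) := by
        unfold fib cl
        refine Finset.card_le_card fun x hx => ?_
        simp only [Finset.mem_filter, Finset.mem_univ, true_and] at hx ⊢
        rw [Equiv.eq_symm_apply]
        exact Fin.ext hx
      have h2 := hfib (e.symm ⟨r, hr⟩)
      rw [hcard] at h2
      have h3 : ((cl (fun x => (e (c x)).val) r).card : ℝ) * R ≤ 8 * n := by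
        exact_mod_cast (Nat.mul_le_mul_right R h1).trans h2
      have h4 : (8 : ℝ) ≤ ε * R := by
        rw [div_le_iff₀ hε] at hR2
        linarith
      have h5 : ((cl (fun x => (e (c x)).val) r).card : ℝ) ≤ ε * n := by
        have h6 : ((cl (fun x => (e (c x)).val) r).card : ℝ) * R ≤ (ε * n) * R := by
          have h7 : (8 : ℝ) * n ≤ ε * R * n := mul_le_mul_of_nonneg_right h4 (Nat.cast_nonneg n)
          linarith
        exact le_of_mul_le_mul_right h6 hRr
      linarith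
    · have h1 : cl (fun x => (e (c x)).val) r = ∅ := by
        unfold cl
        refine Finset.filter_eq_empty_iff.2 fun x _ hx => ?_
        have h2 : (e (c x)).val = r := hx
        exact hr (h2 ▸ (e (c x)).isLt)
      rw [h1]
      have : (0 : ℝ) ≤ ε * n := mul_nonneg hε.le (Nat.cast_nonneg n)
      simp
      linarith
  · -- the number of crossings
    have h1 := hS.trans hD'
    have h2 : ((∑ π : KE R, ∑ π' : KE R, if π = π' then 0 else
        eC G (cl (fun x => (e (c x)).val) π.1.1) (cl (fun x => (e (c x)).val) π.1.2) *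
        eC G (cl (fun x => (e (c x)).val) π'.1.1) (cl (fun x => (e (c x)).val) π'.1.2) *
          crL (T.path π) (T.path π') : ℕ) : ℝ) ≤ (D.dcr : ℝ) := by exact_mod_cast h1
    refine h2.trans (hD.trans ?_)
    rw [hcard]
    have h3 : (D₀.dcr : ℝ) ≤ 2 * cr G := by exact_mod_cast hD₀
    refine add_le_add h3 ?_
    have h4 : 4000 / ε ≤ Real.sqrt R := Real.le_sqrt_of_sq_le hR1
    have h5 : 0 < Real.sqrt R := Real.sqrt_pos.2 hRr
    rw [div_le_iff₀ h5]
    rw [div_le_iff₀ hε] at h4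
    have h6 : (0 : ℝ) ≤ (n : ℝ) ^ 4 := by positivity
    nlinarith [mul_le_mul_of_nonneg_right h4 h6]

end TA
end MP881e12
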