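import Pool.Agent.Lib.MP_881e12_lc.TA.Defs

/-!
Cutting one page at a point of the spine: definitions.
-/

namespace MP881e12
namespace TA

open MP60f107 Finset
open MP60f107.Contr (sw pr ht mk)

section cut

variable {V ι L : Type} [LinearOrder L] {N : Net V ι}

/-- The arc is in page `π` and the point `c` lies strictly between its end points. -/
def Spn (π : Bool) (c : L) (A : Arc L) : Prop := A.up = π ∧ Btw A.p A.q c

instance (π : Bool) (c : L) (A : Arc L) : Decidable (Spn π c A) := by unfold Spn; infer_instance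

/-- The interval of `B` is a proper subinterval of the interval of `A`. -/
def Nst (B A : Arc L) : Prop :=
  min A.p A.q ≤ min B.p B.q ∧ max B.p B.q ≤ max A.p A.q ∧
    (min A.p A.q < min B.p B.q ∨ max B.p B.q < max A.p A.q)

/-- The points inserted in an arc: the spine is pushed up at `c` in page `π` through all arcs that
span `c`; the arc with the number `r` is met at the points `(c, -r)` and `(c, r)`. -/
def cutIns (π : Bool) (c : L) (r : ℤ) (A : Arc L) : List (Bool × (L ×ₗ ℤ)) :=
  if Spn π c A then
    (if A.p < c then [(π, mk c (-r)), (!π, mk c r)] else [(π, mk c r), (!π, mk c (-r))])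
  else []

/-- The image of an arc. -/
def cutImg (π : Bool) (c : L) (r : ℤ) (A : Arc L) : List (Arc (L ×ₗ ℤ)) :=
  arcs (mk A.p 0) (cutIns π c r A) A.up (mk A.q 0)

/-- A numbering of the arcs that span `c`, from the outside to the inside. -/
structure CutOK (D : Drawing N L) (π : Bool) (c : L) (ρ : ι → Arc L → ℤ) : Prop where
  fresh : ∀ i, ∀ A ∈ D.path i, A.p ≠ c ∧ A.q ≠ c
  pos : ∀ i A, 0 < ρ i A
  inj : ∀ i j, ∀ A ∈ D.path i, ∀ B ∈ D.path j, Spn π c A → Spn π c B → ρ i A = ρ j B →
    i = j ∧ A = B
  mono : ∀ i j, ∀ A ∈ D.path i, ∀ B ∈ D.path j, Spn π c A → Spn π c B → Nst B A → ρ i A < ρ j B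

end cut

end TA
end MP881e12
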