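import Pool.Agent.Lib.MP_60f107_co.CrDraw1

/-!
Templates by successive contraction: definitions.
-/

namespace MP881e12
namespace TA

open MP60f107 Finset
open MP60f107.Contr (sw pr ht mk)

section draw

variable {V ι L : Type} [LinearOrder L] {N : Net V ι}

/-- Pages alternate, no edge crosses itself. -/
structure Tidy (D : Drawing N L) : Prop where
  alt : ∀ i, Alt (D.inner i) (D.last i)
  self : ∀ i, crL (D.path i) (D.path i) = 0

/-- The number of crossings of an arc with the drawing. -/
def kap [Fintype ι] (D : Drawing N L) (A : Arc L) : ℕ := ∑ j, crL [A] (D.path j)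

/-- Each arc meets at most one other arc. -/
def Refined [Fintype ι] (D : Drawing N L) : Prop := ∀ i, ∀ A ∈ D.path i, kap D A ≤ 1

/-- The potential of the refinement procedure. -/
def phi [Fintype ι] (D : Drawing N L) : ℕ := ∑ i, ((D.path i).map fun A => kap D A ^ 2).sum

/-- An optimal drawing with all additional properties. -/
structure Nice [Fintype ι] [DecidableEq ι] (D : Drawing N L) : Prop where
  opt : D.Opt
  tidy : Tidy D
  ref : Refined D
  adj : ∀ i j, i ≠ j → (∃ w, N.Inc i w ∧ N.Inc j w) → crL (D.path i) (D.path j) = 0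
  one : ∀ i j, i ≠ j → crL (D.path i) (D.path j) ≤ 1

/-- The sum of the crossings of the arcs of a list. -/
def K [Fintype ι] (D : Drawing N L) (P : List (Arc L)) : ℕ := (P.map (kap D)).sum

/-- The arc at height 0. -/
def up0 (A : Arc L) : Arc (L ×ₗ ℤ) := ⟨mk A.p 0, mk A.q 0, A.up⟩

/-- The drawing at height 0. -/
def lift (D : Drawing N L) : Drawing N (L ×ₗ ℤ) where
  pos v := mk (D.pos v) 0
  inner i := (D.inner i).map fun x => (x.1, mk x.2 0)
  last := D.last
  pos_inj := fun _ _ h => D.pos_inj (congrArg pr h)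
  nodup i := by
    refine List.Nodup.of_map pr ?_
    simpa [Function.comp_def] using D.nodup i
  disj := by
    intro i j hij x hx y hy h
    obtain ⟨x', hx', rfl⟩ := List.mem_map.1 hx
    obtain ⟨y', hy', rfl⟩ := List.mem_map.1 hy
    exact D.disj i j hij x' hx' y' hy' (congrArg pr h)
  avoid := by
    intro i x hx w h
    obtain ⟨x', hx', rfl⟩ := List.mem_map.1 hx
    exact D.avoid i x' hx' w (congrArg pr h)

/-- The number of edges with an end at the point `z` of the spine. -/
def dv [Fintype ι] (D : Drawing N L) (z : L) : ℕ :=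
  (univ.filter fun j => D.pos (N.src j) = z ∨ D.pos (N.tgt j) = z).card

/-- A step along an arc, or from an arc to an arc that crosses it, with its cost. -/
inductive Step [Fintype ι] (D : Drawing N L) : L → L → Bool → ℕ → Prop
  | arc (i : ι) (A : Arc L) (hA : A ∈ D.path i) (z z' : L)
      (h : (z = A.p ∧ z' = A.q) ∨ (z = A.q ∧ z' = A.p)) :
      Step D z z' A.up (kap D A + dv D z + dv D z')
  | sw (i j : ι) (A B : Arc L) (hA : A ∈ D.path i) (hB : B ∈ D.path j) (hX : X A B = 1) (z z' : L)
      (hz : z = A.p ∨ z = A.q) (hz' : z' = B.p ∨ z' = B.q) :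
      Step D z z' A.up (2 + dv D z + dv D z')

/-- A walk with its cost. -/
inductive Wk [Fintype ι] (D : Drawing N L) : L → L → ℕ → Prop
  | nil (z : L) : Wk D z z 0
  | cons {z z' z'' : L} {s : Bool} {c t : ℕ} (h : Step D z z' s c) (w : Wk D z' z'' t) :
      Wk D z z'' (c + t)

/-- There is a walk of cost at most `t`. -/
def Near [Fintype ι] (D : Drawing N L) (z z' : L) (t : ℕ) : Prop := ∃ t' ≤ t, Wk D z z' t'

/-- The arcs of the edge `e` in the direction `b` (`true`: from the source). -/
def dpath (D : Drawing N L) (e : ι) (b : Bool) : List (Arc L) :=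
  if b then D.path e else ((D.path e).map sw).reverse

/-- The first vertex of the edge `e` in the direction `b`. -/
def sv (N : Net V ι) (e : ι) (b : Bool) : V := if b then N.src e else N.tgt e

/-- A fresh chain from `a` to `b` with at most `t` crossings. -/
structure Chain [Fintype ι] (D : Drawing N L) (a b : V) (γ : List (Bool × (L ×ₗ ℤ))) (s : Bool)
    (t : ℕ) : Prop where
  alt : Alt γ s
  nodup : (γ.map Prod.snd).Nodup
  fresh : ∀ x ∈ γ, ht x.2 ≠ 0
  self : crL (arcs (mk (D.pos a) 0) γ s (mk (D.pos b) 0))
    (arcs (mk (D.pos a) 0) γ s (mk (D.pos b) 0)) = 0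
  cost : ∑ j, crL (arcs (mk (D.pos a) 0) γ s (mk (D.pos b) 0)) ((lift D).path j) ≤ t

end draw

section clusters

variable {V₀ ι₀ Q : Type} (N₀ : Net V₀ ι₀) (c : V₀ → Q)

/-- The edges between different clusters. -/
abbrev QE : Type := {i : ι₀ // c (N₀.src i) ≠ c (N₀.tgt i)}

/-- The net of the clusters: all edges between different clusters. -/
def quo : Net Q (QE N₀ c) := ⟨fun i => c (N₀.src i.1), fun i => c (N₀.tgt i.1)⟩

/-- The cluster `a` is merged into the cluster `b`. -/
def mrg [DecidableEq Q] (a b : Q) (hab : a ≠ b) (v : V₀) : {q : Q // q ≠ a} :=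
  if h : c v = a then ⟨b, hab.symm⟩ else ⟨c v, h⟩

/-- The number of edges at a vertex. -/
noncomputable def dgN {V ι : Type} [Fintype ι] (N : Net V ι) (a : V) : ℕ := by
  classical exact (univ.filter fun i => N.Inc i a).card

end clusters

end TA
end MP881e12
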