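import Pool.Agent.Lib.MP_881e12_lc.Core

namespace MP881e12
namespace TA

open Finset

private theorem F1_card {P E : Type} [Fintype P] [DecidableEq P] [DecidableEq E]
    (T : P → Finset E) (p q : P) (hpq : p ≠ q) {i j : E} (hi : i ∈ T p) (hj : j ∈ T q) :
    (T p).card * (T q).card *
      ((Fintype.piFinset T).filter (fun s => (s p, s q) = (i, j))).card =
        (Fintype.piFinset T).card := by
  have h1 : (Fintype.piFinset T).filter (fun s => (s p, s q) = (i, j)) =
      Fintype.piFinset (Function.update (Function.update T p {i}) q {j}) := by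
    ext s
    simp only [Finset.mem_filter, Fintype.mem_piFinset, Prod.mk.injEq]
    constructor
    · rintro ⟨h, h2, h3⟩ r
      by_cases hr : r = q
      · subst hr
        simp [h3]
      · rw [Function.update_of_ne hr]
        by_cases hr2 : r = p
        · subst hr2
          simp [h2]
        · rw [Function.update_of_ne hr2]
          exact h r
    · intro h
      have hq : s q = j := by
        have := h q
        simpa using this
      have hp : s p = i := by
        have := h p
        rw [Function.update_of_ne hpq] at this
        simpa using this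
      refine ⟨fun r => ?_, hp, hq⟩
      by_cases hr : r = q
      · subst hr
        rw [hq]
        exact hj
      · by_cases hr2 : r = p
        · subst hr2
          rw [hp]
          exact hi
        · have := h r
          rwa [Function.update_of_ne hr, Function.update_of_ne hr2] at this
  rw [h1, Fintype.card_piFinset, Fintype.card_piFinset]
  have hqm : q ∈ (univ : Finset P).erase p := Finset.mem_erase.2 ⟨hpq.symm, Finset.mem_univ _⟩
  rw [← Finset.mul_prod_erase univ (fun r => (T r).card) (Finset.mem_univ p),
    ← Finset.mul_prod_erase (univ.erase p) (fun r => (T r).card) hqm,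
    ← Finset.mul_prod_erase univ
      (fun r => (Function.update (Function.update T p {i}) q {j} r).card) (Finset.mem_univ p),
    ← Finset.mul_prod_erase (univ.erase p)
      (fun r => (Function.update (Function.update T p {i}) q {j} r).card) hqm]
  have e1 : (Function.update (Function.update T p {i}) q {j} p).card = 1 := by
    rw [Function.update_of_ne hpq]
    simp
  have e2 : (Function.update (Function.update T p {i}) q {j} q).card = 1 := by simp
  have e3 : ∏ r ∈ (univ.erase p).erase q,
      (Function.update (Function.update T p {i}) q {j} r).card =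
      ∏ r ∈ (univ.erase p).erase q, (T r).card := by
    refine Finset.prod_congr rfl fun r hr => ?_
    rw [Finset.mem_erase, Finset.mem_erase] at hr
    rw [Function.update_of_ne hr.1, Function.update_of_ne hr.2.1]
  rw [e1, e2, e3]
  ring

private theorem F1_sum {P E : Type} [Fintype P] [DecidableEq P] [DecidableEq E]
    (T : P → Finset E) (p q : P) (hpq : p ≠ q) (f : E → E → ℕ) :
    ∑ s ∈ Fintype.piFinset T, (T p).card * (T q).card * f (s p) (s q) =
      (Fintype.piFinset T).card * ∑ i ∈ T p, ∑ j ∈ T q, f i j := by
  have h0 : ∀ s ∈ Fintype.piFinset T, (s p, s q) ∈ T p ×ˢ T q := by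
    intro s hs
    rw [Fintype.mem_piFinset] at hs
    exact Finset.mem_product.2 ⟨hs p, hs q⟩
  rw [← Finset.sum_fiberwise_of_maps_to h0, ← Finset.sum_product', Finset.mul_sum]
  refine Finset.sum_congr rfl fun y hy => ?_
  obtain ⟨i, j⟩ := y
  rw [Finset.mem_product] at hy
  have h2 : ∀ s ∈ (Fintype.piFinset T).filter (fun s => (s p, s q) = (i, j)),
      (T p).card * (T q).card * f (s p) (s q) = (T p).card * (T q).card * f i j := by
    intro s hs
    have h3 := (Finset.mem_filter.1 hs).2
    rw [Prod.mk.injEq] at h3
    rw [h3.1, h3.2]
  rw [Finset.sum_congr rfl h2, Finset.sum_const, smul_eq_mul, ← F1_card T p q hpq hy.1 hy.2]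
  ring

/-- ROW TA-F1 (110 lines).  Choice of representatives by averaging.

Proof.  Let `Ω = Fintype.piFinset S'` where `S' p = S p` for `p ∈ good` and `S' p = {e₀}` (any element)
otherwise (if `good` is empty everything is trivial; otherwise `E` is nonempty).  For `p ≠ q` in `good` and
`i ∈ S p`, `j ∈ S q` the number of `s ∈ Ω` with `s p = i`, `s q = j` is `|Ω| / (|S p| |S q|)`, so
`∑_{s ∈ Ω} |S p| |S q| f (s p) (s q) = |Ω| ∑_{i ∈ S p} ∑_{j ∈ S q} f i j`.  Sum over the pairs and take an
`s ∈ Ω` whose value is at most the average (`Finset.exists_le_of_sum_le`).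
Alternative without counting: induction on `good` with weights, choosing one representative at a time:
prove for all functions: given `F : (E → E → ℕ)` for pairs, process `p₀`: among `i ∈ S p₀` choose the one for
which `∑_{q ∈ good, q ≠ p₀} ∑_{j ∈ S q} (f i j + f j i)` is least; then `|S p₀|` times this minimum is at most
the sum over all `i ∈ S p₀`; replace `S p₀` by `{i}` and the weight of `p₀` by `|S p₀|`.  For this the
statement must be generalised to weights `w p` and sets `S p`:
`∑ w p * w q * f (s p) (s q) * ... ≤ ∑ (w p / |S p|) ...`; the counting proof may be simpler. -/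
theorem exists_reps {P E : Type} [Fintype P] [DecidableEq P] [Fintype E] [DecidableEq E]
    (S : P → Finset E) (good : Finset P) (hne : ∀ p ∈ good, (S p).Nonempty) (f : E → E → ℕ)
    (e₀ : E) :
    ∃ s : P → E, (∀ p ∈ good, s p ∈ S p) ∧
      (∑ p ∈ good, ∑ q ∈ good, if p = q then 0 else (S p).card * (S q).card * f (s p) (s q)) ≤
        ∑ p ∈ good, ∑ q ∈ good, if p = q then 0 else ∑ i ∈ S p, ∑ j ∈ S q, f i j := by
  classical
  set T : P → Finset E := fun p => if p ∈ good then S p else {e₀} with hT
  have hTg : ∀ p ∈ good, T p = S p := fun p hp => by simp [hT, hp]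
  have hΩ : (Fintype.piFinset T).Nonempty := by
    rw [Fintype.piFinset_nonempty]
    intro p
    by_cases hp : p ∈ good
    · rw [hTg p hp]
      exact hne p hp
    · simp [hT, hp]
  have hsum : ∑ s ∈ Fintype.piFinset T,
      (∑ p ∈ good, ∑ q ∈ good, if p = q then 0 else
        (S p).card * (S q).card * f (s p) (s q)) ≤
      ∑ s ∈ Fintype.piFinset T,
        ∑ p ∈ good, ∑ q ∈ good, if p = q then 0 else ∑ i ∈ S p, ∑ j ∈ S q, f i j := by
    rw [Finset.sum_comm, Finset.sum_const, smul_eq_mul, Finset.mul_sum]
    refine Finset.sum_le_sum fun p hp => ?_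
    rw [Finset.sum_comm, Finset.mul_sum]
    refine Finset.sum_le_sum fun q hq => ?_
    by_cases hpq : p = q
    · simp [hpq]
    · simp only [if_neg hpq]
      have := F1_sum T p q hpq f
      rw [hTg p hp, hTg q hq] at this
      exact this.le
  obtain ⟨s, hs, hle⟩ := Finset.exists_le_of_sum_le hΩ hsum
  refine ⟨s, fun p hp => ?_, hle⟩
  rw [Fintype.mem_piFinset] at hs
  have := hs p
  rwa [hTg p hp] at this

end TA
end MP881e12
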