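import Pool.Agent.Lib.MP_881e12_lc.TA.O1
import Pool.Agent.Lib.MP_881e12_lc.Core

namespace MP881e12
namespace TA

open MP60f107 Finset
open MP60f107.Contr (sw pr ht mk)

theorem F2_pair {R : ℕ} {π π' : KE R} (h : ({π.1.1, π.1.2} : Set (Fin R)) = {π'.1.1, π'.1.2}) :
    π = π' := by
  rcases Set.pair_eq_pair_iff.1 h with ⟨h1, h2⟩ | ⟨h1, h2⟩
  · exact Subtype.ext (Prod.ext h1 h2)
  · exfalso
    have h3 := π.2
    have h4 := π'.2
    rw [h1, h2] at h3
    exact lt_asymm h3 h4

/-- the chain of one representative, read from the first to the second cluster -/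
theorem F2_one {n R : ℕ} (G : SimpleGraph (Fin n)) (c : Fin n → Fin R) {L : Type}
    [LinearOrder L] (D : Drawing (quo (GNet G) c) L) (π : KE R) (e : QE (GNet G) c)
    (h : ({c ((GNet G).src e.1), c ((GNet G).tgt e.1)} : Set (Fin R)) = {π.1.1, π.1.2}) :
    ∃ (r : List (Bool × L)) (l : Bool), (r.map Prod.snd).Nodup ∧
      (∀ x ∈ r, ∃ y ∈ D.inner e, y.2 = x.2) ∧
      ∀ Q, crL (arcs (D.pos π.1.1) r l (D.pos π.1.2)) Q = crL (D.path e) Q := by
  rcases Set.pair_eq_pair_iff.1 h with ⟨h1, h2⟩ | ⟨h1, h2⟩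
  · refine ⟨D.inner e, D.last e, D.nodup e, fun x hx => ⟨x, hx, rfl⟩, fun Q => ?_⟩
    have : D.path e = arcs (D.pos π.1.1) (D.inner e) (D.last e) (D.pos π.1.2) := by
      unfold Drawing.path
      rw [← h1, ← h2]
      rfl
    rw [this]
  · refine ⟨(Contr.rv (D.inner e) (D.last e)).1, (Contr.rv (D.inner e) (D.last e)).2, ?_, ?_, ?_⟩
    · rw [Contr.rv_pts, List.nodup_reverse]
      exact D.nodup e
    · intro x hx
      have h3 : x.2 ∈ ((Contr.rv (D.inner e) (D.last e)).1.map Prod.snd) :=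
        List.mem_map.2 ⟨x, hx, rfl⟩
      rw [Contr.rv_pts, List.mem_reverse] at h3
      obtain ⟨y, hy, hyx⟩ := List.mem_map.1 h3
      exact ⟨y, hy, hyx⟩
    · intro Q
      have : D.path e = arcs (D.pos π.1.2) (D.inner e) (D.last e) (D.pos π.1.1) := by
        unfold Drawing.path
        rw [← h1, ← h2]
        rfl
      rw [Contr.arcs_rv, Contr.crL_reverse_sw, this]

/-- ROW TA-F2 (110 lines).  The template of a system of representatives.

Proof.  For `π ∈ good` the edge `s π` joins the clusters `π.1.1` and `π.1.2` in one of the two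
directions.  `T.pos = D.pos`; for `π ∈ good` with `c (src) = π.1.1`: `T.inner π = D.inner (s π)`,
`T.last π = D.last (s π)`; with `c (src) = π.1.2` the reversed chain `Contr.rv` of it
(`Contr.arcs_rv`, `Contr.rv_pts`, `Contr.crL_reverse_sw`); for `π ∉ good`: `T.inner π = []`,
`T.last π = true`.  `nodup`, `disj` (for `π ≠ π'` in `good` the edges `s π ≠ s π'`, since they join different
pairs of clusters), `avoid` from `D`.  The crossings are the same (`crL_comm`, `crL_reverse_sw`). -/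
theorem rep_drawing {n R : ℕ} (G : SimpleGraph (Fin n)) (c : Fin n → Fin R) {L : Type}
    [LinearOrder L] (D : Drawing (quo (GNet G) c) L) (good : Finset (KE R))
    (s : KE R → QE (GNet G) c)
    (hs : ∀ π ∈ good, ({c ((GNet G).src (s π).1), c ((GNet G).tgt (s π).1)} : Set (Fin R)) =
      {π.1.1, π.1.2}) :
    ∃ T : Drawing (KNet R) L, ∀ π ∈ good, ∀ π' ∈ good,
      crL (T.path π) (T.path π') = crL (D.path (s π)) (D.path (s π')) := by
  classical
  have key : ∀ π : KE R, ∃ (r : List (Bool × L)) (l : Bool), (r.map Prod.snd).Nodup ∧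
      (∀ x ∈ r, π ∈ good ∧ ∃ y ∈ D.inner (s π), y.2 = x.2) ∧
      (π ∈ good → ∀ Q, crL (arcs (D.pos π.1.1) r l (D.pos π.1.2)) Q = crL (D.path (s π)) Q) := by
    intro π
    by_cases hπ : π ∈ good
    · obtain ⟨r, l, h1, h2, h3⟩ := F2_one G c D π (s π) (hs π hπ)
      exact ⟨r, l, h1, fun x hx => ⟨hπ, h2 x hx⟩, fun _ => h3⟩
    · refine ⟨[], true, List.nodup_nil, ?_, fun h => absurd h hπ⟩
      intro x hx
      exact absurd hx (List.not_mem_nil)
  choose r l h1 h2 h3 using key
  refine ⟨⟨D.pos, r, l, D.pos_inj, h1, ?_, ?_⟩, ?_⟩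
  · intro π π' hne x hx y hy hxy
    obtain ⟨g1, x', hx', e1⟩ := h2 π x hx
    obtain ⟨g2, y', hy', e2⟩ := h2 π' y hy
    have hne' : s π ≠ s π' := by
      intro heq
      apply hne
      apply F2_pair
      rw [← hs π g1, ← hs π' g2, heq]
    exact D.disj (s π) (s π') hne' x' hx' y' hy' (by rw [e1, e2, hxy])
  · intro π x hx w hw
    obtain ⟨g1, x', hx', e1⟩ := h2 π x hx
    exact D.avoid (s π) x' hx' w (by rw [e1, hw])
  · intro π g π' g'
    change crL (arcs (D.pos π.1.1) (r π) (l π) (D.pos π.1.2))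
      (arcs (D.pos π'.1.1) (r π') (l π') (D.pos π'.1.2)) = _
    rw [h3 π g, Contr.crL_comm, h3 π' g', Contr.crL_comm]

end TA
end MP881e12
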