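import Pool.Agent.Lib.MP_881e12_lc.TA.O1
import Pool.Agent.Lib.MP_881e12_lc.Core

namespace MP881e12
namespace TA

open MP60f107 Finset
open MP60f107.Contr (sw pr ht mk)

/-- ROW TA-F3 (100 lines, four theorems).  Counting and transport.

`card_rep`: bijection between the edges `i : QE (GNet G) c` whose clusters are `{π.1.1, π.1.2}` and the
adjacent pairs `(x, y)` with `c x = π.1.1`, `c y = π.1.2`: an edge `(x, y)`, `x < y`, of `GE G` goes to `(x, y)`
or `(y, x)`; the inverse sends `(x, y)` to the edge `(min x y, max x y)`.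
`transport`: for an equivalence `e : Q ≃ Q'` the edges of `quo N₀ (e ∘ c)` are those of `quo N₀ c`
(`e (c x) ≠ e (c y) ↔ c x ≠ c y`), the positions are `D.pos ∘ e.symm`; the dcr is the same (reindex the
double sum by the bijection of the edge types).
`card_GE_le`: `GE G` injects into `{p : Fin n × Fin n | p.1 < p.2}`, with its mirror image into all `n²`
pairs: `2 |GE G| ≤ n²`.
`dgN_GNet`: an edge incident with `v` is determined by its other end. -/
theorem card_rep {n R : ℕ} (G : SimpleGraph (Fin n)) (c : Fin n → Fin R) (π : KE R) :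
    (Finset.univ.filter fun i : QE (GNet G) c =>
      ({c ((GNet G).src i.1), c ((GNet G).tgt i.1)} : Set (Fin R)) = {π.1.1, π.1.2}).card =
    eC G (cl (fun x => (c x).val) π.1.1) (cl (fun x => (c x).val) π.1.2) := by
  classical
  have hπ : π.1.1 ≠ π.1.2 := ne_of_lt π.2
  unfold eC
  refine Finset.card_bij (fun i _ => if c ((GNet G).src i.1) = π.1.1 then
    ((GNet G).src i.1, (GNet G).tgt i.1) else ((GNet G).tgt i.1, (GNet G).src i.1)) ?_ ?_ ?_
  · intro i hi
    have h1 := (Finset.mem_filter.1 hi).2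
    rw [Set.pair_eq_pair_iff] at h1
    have h2 : G.Adj ((GNet G).src i.1) ((GNet G).tgt i.1) := i.1.2.2
    rcases h1 with ⟨h3, h4⟩ | ⟨h3, h4⟩
    · rw [if_pos h3]
      simp only [Finset.mem_filter, Finset.mem_product, cl, Finset.mem_univ, true_and]
      exact ⟨⟨by rw [h3], by rw [h4]⟩, h2⟩
    · rw [if_neg (by rw [h3]; exact hπ.symm)]
      simp only [Finset.mem_filter, Finset.mem_product, cl, Finset.mem_univ, true_and]
      exact ⟨⟨by rw [h4], by rw [h3]⟩, h2.symm⟩
  · intro i hi j hj hij
    have h1 : (GNet G).src i.1 < (GNet G).tgt i.1 := i.1.2.1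
    have h2 : (GNet G).src j.1 < (GNet G).tgt j.1 := j.1.2.1
    have key : (GNet G).src i.1 = (GNet G).src j.1 ∧ (GNet G).tgt i.1 = (GNet G).tgt j.1 := by
      split_ifs at hij with h3 h4 h4
      · exact ⟨congrArg Prod.fst hij, congrArg Prod.snd hij⟩
      · have e1 := congrArg Prod.fst hij
        have e2 := congrArg Prod.snd hij
        dsimp only at e1 e2
        rw [e1, e2] at h1
        exact absurd h1 (not_lt.2 h2.le)
      · have e1 := congrArg Prod.fst hij
        have e2 := congrArg Prod.snd hij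
        dsimp only at e1 e2
        rw [e1, e2] at h1
        exact absurd h1 (not_lt.2 h2.le)
      · exact ⟨congrArg Prod.snd hij, congrArg Prod.fst hij⟩
    apply Subtype.ext
    apply Subtype.ext
    exact Prod.ext key.1 key.2
  · rintro ⟨x, y⟩ hxy
    simp only [Finset.mem_filter, Finset.mem_product, cl, Finset.mem_univ, true_and] at hxy
    obtain ⟨⟨hx, hy⟩, hadj⟩ := hxy
    have hx' : c x = π.1.1 := Fin.ext hx
    have hy' : c y = π.1.2 := Fin.ext hy
    have hne : c x ≠ c y := by rw [hx', hy']; exact hπ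
    rcases lt_trichotomy x y with h | h | h
    · refine ⟨⟨⟨(x, y), h, hadj⟩, hne⟩, ?_, ?_⟩
      · refine Finset.mem_filter.2 ⟨Finset.mem_univ _, ?_⟩
        show ({c x, c y} : Set (Fin R)) = {π.1.1, π.1.2}
        rw [hx', hy']
      · show (if c x = π.1.1 then (x, y) else (y, x)) = (x, y)
        rw [if_pos hx']
    · exact absurd (congrArg c h) hne
    · refine ⟨⟨⟨(y, x), h, hadj.symm⟩, hne.symm⟩, ?_, ?_⟩
      · refine Finset.mem_filter.2 ⟨Finset.mem_univ _, ?_⟩
        show ({c y, c x} : Set (Fin R)) = {π.1.1, π.1.2}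
        rw [hx', hy']
        exact Set.pair_comm _ _
      · show (if c y = π.1.1 then (y, x) else (x, y)) = (x, y)
        rw [if_neg (by rw [hy']; exact hπ.symm)]

theorem transport {V₀ ι₀ Q Q' : Type} (N₀ : Net V₀ ι₀) (c : V₀ → Q) [Fintype ι₀]
    [DecidableEq ι₀] [DecidableEq Q] [DecidableEq Q'] (e : Q ≃ Q') {L : Type} [LinearOrder L]
    (D : Drawing (quo N₀ c) L) : ∃ D' : Drawing (quo N₀ fun v => e (c v)) L, D'.dcr ≤ D.dcr := by
  let ε : QE N₀ (fun v => e (c v)) ≃ QE N₀ c :=
    Equiv.subtypeEquivRight fun i => e.injective.ne_iff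
  let D' : Drawing (quo N₀ fun v => e (c v)) L :=
    { pos := fun q => D.pos (e.symm q)
      inner := fun i => D.inner (ε i)
      last := fun i => D.last (ε i)
      pos_inj := D.pos_inj.comp e.symm.injective
      nodup := fun i => D.nodup _
      disj := fun i j hij => D.disj _ _ (ε.injective.ne hij)
      avoid := fun i x hx w => D.avoid _ x hx _ }
  have hpath : ∀ i, D'.path i = D.path (ε i) := by
    intro i
    show arcs (D.pos (e.symm (e (c (N₀.src i.1))))) _ _ (D.pos (e.symm (e (c (N₀.tgt i.1))))) = _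
    rw [Equiv.symm_apply_apply, Equiv.symm_apply_apply]
    rfl
  refine ⟨D', le_of_eq ?_⟩
  unfold Drawing.dcr
  rw [← Equiv.sum_comp ε]
  refine Finset.sum_congr rfl fun i _ => ?_
  rw [← Equiv.sum_comp ε]
  refine Finset.sum_congr rfl fun j _ => ?_
  rw [hpath, hpath]
  by_cases h : i = j
  · rw [if_pos h, if_pos (congrArg ε h)]
  · rw [if_neg h, if_neg (ε.injective.ne h)]

theorem card_GE_le {n : ℕ} (G : SimpleGraph (Fin n)) : 2 * Fintype.card (GE G) ≤ n ^ 2 := by
  classical
  have h1 : Fintype.card (GE G ⊕ GE G) ≤ Fintype.card (Fin n × Fin n) := by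
    refine Fintype.card_le_of_injective
      (Sum.elim (fun e => e.1) (fun e => (e.1.2, e.1.1))) ?_
    rintro (⟨⟨a, b⟩, h⟩ | ⟨⟨a, b⟩, h⟩) (⟨⟨a', b'⟩, h'⟩ | ⟨⟨a', b'⟩, h'⟩) hh
    · simp only [Sum.elim_inl, Prod.mk.injEq] at hh
      obtain ⟨rfl, rfl⟩ := hh
      rfl
    · simp only [Sum.elim_inl, Sum.elim_inr, Prod.mk.injEq] at hh
      obtain ⟨rfl, rfl⟩ := hh
      exact absurd h.1 (not_lt.2 (le_of_lt h'.1))
    · simp only [Sum.elim_inl, Sum.elim_inr, Prod.mk.injEq] at hh
      obtain ⟨rfl, rfl⟩ := hh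
      exact absurd h.1 (not_lt.2 (le_of_lt h'.1))
    · simp only [Sum.elim_inr, Prod.mk.injEq] at hh
      obtain ⟨rfl, rfl⟩ := hh
      rfl
  rw [Fintype.card_sum, Fintype.card_prod, Fintype.card_fin] at h1
  nlinarith [h1]

theorem dgN_GNet {n : ℕ} (G : SimpleGraph (Fin n)) (v : Fin n) : dgN (GNet G) v ≤ n := by
  classical
  unfold dgN
  have h1 : (univ.filter fun i => (GNet G).Inc i v).card ≤ (univ : Finset (Fin n)).card := by
    refine Finset.card_le_card_of_injOn
      (fun i => if (GNet G).src i = v then (GNet G).tgt i else (GNet G).src i)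
      (fun _ _ => Finset.mem_coe.2 (Finset.mem_univ _)) ?_
    intro i hi j hj hij
    have hi' : (GNet G).Inc i v := (Finset.mem_filter.1 (Finset.mem_coe.1 hi)).2
    have hj' : (GNet G).Inc j v := (Finset.mem_filter.1 (Finset.mem_coe.1 hj)).2
    have hli : (GNet G).src i < (GNet G).tgt i := i.2.1
    have hlj : (GNet G).src j < (GNet G).tgt j := j.2.1
    dsimp only at hij
    have key : (GNet G).src i = (GNet G).src j ∧ (GNet G).tgt i = (GNet G).tgt j := by
      split_ifs at hij with h3 h4 h4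
      · exact ⟨h3.trans h4.symm, hij⟩
      · have h5 : (GNet G).tgt j = v := hj'.resolve_left h4
        rw [h3, hij] at hli
        rw [h5] at hlj
        exact absurd hli (not_lt.2 hlj.le)
      · have h5 : (GNet G).tgt i = v := hi'.resolve_left h3
        rw [h4, ← hij] at hlj
        rw [h5] at hli
        exact absurd hli (not_lt.2 hlj.le)
      · exact ⟨hij, (hi'.resolve_left h3).trans (hj'.resolve_left h4).symm⟩
    exact Subtype.ext (Prod.ext key.1 key.2)
  rw [Finset.card_univ, Fintype.card_fin] at h1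
  convert h1

end TA
end MP881e12
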