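import Pool.Agent.Lib.MP_881e12_lc.Core

namespace MP881e12
namespace TA

open MP60f107 Finset

/-- ROW TA-F4 (40 lines).  There is a spine drawing with at most twice the crossing number.

Proof: as in `exists_key` (CrFinal.lean line 127): `exists_cr G` (or `cr_eq`, `exists_topCrossingNumber`) gives a
topological drawing with `cr G` crossings; `exists_weakPoly_of_top_proof` and
`exists_spine_of_weakPoly'` give `D₂` with `D₂.dcr ≤ 2 * cr G` for the net `GNet G` (`GNet_rep`). -/
theorem exists_start {n : ℕ} (G : SimpleGraph (Fin n)) :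
    ∃ (L : Type) (_ : LinearOrder L) (D : Drawing (GNet G) L), D.dcr ≤ 2 * cr G := by
  obtain ⟨E, hE⟩ := exists_cr G
  obtain ⟨W, hW⟩ := exists_weakPoly_of_top_proof (GNet_rep G) E.toTopDrawing
  obtain ⟨L', i, D₂, hD₂⟩ := exists_spine_of_weakPoly' (GNet_rep G).simple W
  refine ⟨L', i, D₂, hD₂.trans ?_⟩
  rw [← hE]
  exact hW

end TA
end MP881e12
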