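import Pool.Agent.Lib.MP_881e12_lc.TA.F1
import Pool.Agent.Lib.MP_881e12_lc.TA.F2
import Pool.Agent.Lib.MP_881e12_lc.TA.F3
import Pool.Agent.Lib.MP_881e12_lc.TA.F4
import Pool.Agent.Lib.MP_881e12_lc.Wg7
import Pool.Agent.Lib.MP_60f107_co.CrFinal

namespace MP881e12
namespace TA

open MP60f107 Finset
open MP60f107.Contr (sw pr ht mk)

theorem f5_pair {R : ℕ} {π π' : KE R}
    (h : ({π.1.1, π.1.2} : Set (Fin R)) = {π'.1.1, π'.1.2}) : π = π' := by
  rw [Set.pair_eq_pair_iff] at h
  rcases h with ⟨h1, h2⟩ | ⟨h1, h2⟩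
  · exact Subtype.ext (Prod.ext h1 h2)
  · exfalso
    have h3 := π.2
    have h4 := π'.2
    rw [h1, h2] at h3
    exact lt_asymm h3 h4

theorem f5_sum {P E : Type} [Fintype P] [DecidableEq P] [Fintype E] [DecidableEq E]
    (S : P → Finset E) (good : Finset P) (hd : (good : Set P).PairwiseDisjoint S) (f : E → E → ℕ) :
    (∑ p ∈ good, ∑ q ∈ good, if p = q then 0 else ∑ i ∈ S p, ∑ j ∈ S q, f i j) ≤
      ∑ i, ∑ j, f i j := by
  calc (∑ p ∈ good, ∑ q ∈ good, if p = q then 0 else ∑ i ∈ S p, ∑ j ∈ S q, f i j)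
      ≤ ∑ p ∈ good, ∑ q ∈ good, ∑ i ∈ S p, ∑ j ∈ S q, f i j := by
        refine Finset.sum_le_sum fun p _ => Finset.sum_le_sum fun q _ => ?_
        split_ifs
        · exact Nat.zero_le _
        · exact le_rfl
    _ = ∑ p ∈ good, ∑ i ∈ S p, ∑ j ∈ good.biUnion S, f i j := by
        refine Finset.sum_congr rfl fun p _ => ?_
        rw [Finset.sum_comm]
        refine Finset.sum_congr rfl fun i _ => ?_
        rw [Finset.sum_biUnion hd]
    _ = ∑ i ∈ good.biUnion S, ∑ j ∈ good.biUnion S, f i j := by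
        rw [Finset.sum_biUnion hd]
    _ ≤ ∑ i, ∑ j, f i j := by
        refine (Finset.sum_le_sum fun i _ =>
          Finset.sum_le_sum_of_subset (Finset.subset_univ _)).trans ?_
        exact Finset.sum_le_sum_of_subset (Finset.subset_univ _)

theorem template_of_clusters {n R : ℕ} (G : SimpleGraph (Fin n)) (c : Fin n → Fin R) {L : Type}
    [LinearOrder L] (D : Drawing (quo (GNet G) c) L) :
    ∃ (L' : Type) (_ : LinearOrder L') (T : Drawing (KNet R) L'), Normal T ∧
      (∀ π π', π ≠ π' → crL (T.path π) (T.path π') ≤ 1) ∧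
      (∑ π : KE R, ∑ π' : KE R, if π = π' then 0 else
        eC G (cl (fun x => (c x).val) π.1.1) (cl (fun x => (c x).val) π.1.2) *
        eC G (cl (fun x => (c x).val) π'.1.1) (cl (fun x => (c x).val) π'.1.2) *
          crL (T.path π) (T.path π')) ≤ D.dcr := by
  classical
  obtain ⟨e, he⟩ : ∃ e : KE R → ℕ, e = fun π =>
    eC G (cl (fun x => (c x).val) π.1.1) (cl (fun x => (c x).val) π.1.2) := ⟨_, rfl⟩
  obtain ⟨S, hS⟩ : ∃ S : KE R → Finset (QE (GNet G) c), S = fun π =>
    Finset.univ.filter fun i : QE (GNet G) c =>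
      ({c ((GNet G).src i.1), c ((GNet G).tgt i.1)} : Set (Fin R)) = {π.1.1, π.1.2} := ⟨_, rfl⟩
  have hmem : ∀ π i, i ∈ S π ↔
      ({c ((GNet G).src i.1), c ((GNet G).tgt i.1)} : Set (Fin R)) = {π.1.1, π.1.2} := by
    intro π i
    rw [hS]
    simp
  have hcard : ∀ π, (S π).card = e π := by
    intro π
    have h1 := card_rep G c π
    rw [he]
    refine Eq.trans ?_ h1
    congr 1
    ext i
    rw [hmem]
    simp
  obtain ⟨good, hgood⟩ : ∃ good : Finset (KE R), good = Finset.univ.filter fun π => (S π).Nonempty :=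
    ⟨_, rfl⟩
  have hgm : ∀ π, π ∈ good ↔ (S π).Nonempty := by
    intro π
    rw [hgood]
    simp
  have hzero : ∀ π, π ∉ good → e π = 0 := by
    intro π hπ
    rw [hgm, Finset.not_nonempty_iff_eq_empty] at hπ
    rw [← hcard, hπ, Finset.card_empty]
  have hN : ∀ π : KE R, (KNet R).src π ≠ (KNet R).tgt π := fun π => ne_of_lt π.2
  -- a drawing of the template with few crossings
  have hT₁ : ∃ (L₁ : Type) (_ : LinearOrder L₁) (T₁ : Drawing (KNet R) L₁),
      (∑ π ∈ good, ∑ π' ∈ good, if π = π' then 0 else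
        e π * e π' * crL (T₁.path π) (T₁.path π')) ≤ D.dcr := by
    by_cases hE : Nonempty (QE (GNet G) c)
    · obtain ⟨e₀⟩ := hE
      obtain ⟨s, hs1, hs2⟩ := exists_reps S good (fun π hπ => (hgm π).1 hπ)
        (fun i j => if i = j then 0 else crL (D.path i) (D.path j)) e₀
      obtain ⟨T₁, hT₁⟩ := rep_drawing G c D good s fun π hπ => (hmem π _).1 (hs1 π hπ)
      refine ⟨L, inferInstance, T₁, ?_⟩
      have hd : (good : Set (KE R)).PairwiseDisjoint S := by
        intro π _ π' _ hne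
        rw [Function.onFun, Finset.disjoint_left]
        intro i hi hi'
        rw [hmem] at hi hi'
        exact hne (f5_pair (hi.symm.trans hi'))
      refine le_trans (le_of_eq ?_) (hs2.trans (f5_sum S good hd _))
      refine Finset.sum_congr rfl fun π hπ => Finset.sum_congr rfl fun π' hπ' => ?_
      by_cases hne : π = π'
      · rw [if_pos hne, if_pos hne]
      · rw [if_neg hne, if_neg hne, hcard, hcard]
        have h1 : s π ≠ s π' := by
          intro h
          have h2 := (hmem π _).1 (hs1 π hπ)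
          have h3 := (hmem π' _).1 (hs1 π' hπ')
          rw [h] at h2
          exact hne (f5_pair (h2.symm.trans h3))
        rw [if_neg h1, hT₁ π hπ π' hπ']
    · refine ⟨ℕ, inferInstance, trivialDrawing (KNet R), ?_⟩
      have hg : good = ∅ := by
        rw [Finset.eq_empty_iff_forall_notMem]
        intro π hπ
        obtain ⟨i, _⟩ := (hgm π).1 hπ
        exact hE ⟨i⟩
      rw [hg]
      simp
  obtain ⟨L₁, inst₁, T₁, hT₁⟩ := hT₁
  obtain ⟨L', inst, T, hT, h1, h2⟩ := tpl_opt hN T₁ e good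
  refine ⟨L', inst, T, hT, h1, ?_⟩
  refine le_trans (le_of_eq ?_) (h2.trans hT₁)
  rw [wg7_sum e good fun i j => crL (T.path i) (T.path j)]
  refine Finset.sum_congr rfl fun π _ => Finset.sum_congr rfl fun π' _ => ?_
  by_cases hne : π = π'
  · rw [if_pos hne, if_pos hne]
  · rw [if_neg hne, if_neg hne]
    have h3 : (if π ∈ good ∧ π' ∈ good then e π * e π' else 0) = e π * e π' := by
      by_cases hg : π ∈ good
      · by_cases hg' : π' ∈ good
        · rw [if_pos ⟨hg, hg'⟩]
        · rw [if_neg (fun h => hg' h.2), hzero π' hg', mul_zero]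
      · rw [if_neg (fun h => hg h.1), hzero π hg, zero_mul]
    rw [h3, he]

end TA
end MP881e12
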