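import Pool.Agent.Lib.MP_881e12_lc.TA.O1

/-!
The size of a cluster.
-/

namespace MP881e12
namespace TA

open MP60f107 Finset

open Classical in
/-- The size of a cluster. -/
noncomputable def fib {V₀ Q : Type} (c : V₀ → Q) [Fintype V₀] (q : Q) : ℕ :=
  (univ.filter fun v => c v = q).card

end TA
end MP881e12
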