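import Pool.Agent.Lib.MP_881e12_lc.TA.I1b

namespace MP881e12
namespace TA

open MP60f107 Finset
open MP60f107.Contr (sw pr ht mk)

/-- ROW TA-I1 (30 lines).  One merge.

Proof: `exists_nice (quo N₀ c)` (TA/O1.lean; edges of `quo` join different clusters) gives a nice drawing
`D₁` with `D₁.dcr ≤ D.dcr` (`opt`); `merge_nice` (I1b). -/
theorem merge_once {V₀ ι₀ Q : Type} (N₀ : Net V₀ ι₀) (c : V₀ → Q)
    [Fintype V₀] [Fintype ι₀] [DecidableEq ι₀] [Fintype Q] [DecidableEq Q]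
    (hE : 2 * Fintype.card ι₀ ≤ Fintype.card V₀ ^ 2)
    (hdg : ∀ v, dgN N₀ v ≤ Fintype.card V₀) (h2 : 2 ≤ Fintype.card Q)
    (hm : Fintype.card Q ≤ Fintype.card V₀)
    (hf : ∀ q, fib c q * Fintype.card Q ≤ 8 * Fintype.card V₀)
    {L : Type} [LinearOrder L] (D : Drawing (quo N₀ c) L) :
    ∃ a b : Q, ∃ hab : a ≠ b, fib c a * Fintype.card Q ≤ 4 * Fintype.card V₀ ∧
      fib c b * Fintype.card Q ≤ 4 * Fintype.card V₀ ∧
      ∃ (L' : Type) (_ : LinearOrder L') (D' : Drawing (quo N₀ (mrg c a b hab)) L'),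
        (D'.dcr : ℝ) ≤ D.dcr + 2000 * (Fintype.card V₀ : ℝ) ^ 4 /
          (Fintype.card Q * Real.sqrt (Fintype.card Q)) := by
  obtain ⟨L₁, inst₁, D₁, hD₁⟩ := exists_nice (quo N₀ c) (fun i => i.2)
  obtain ⟨a, b, hab, ha, hb, L', inst', D', hD'⟩ := merge_nice N₀ c hE hdg h2 hm hf D₁ hD₁
  refine ⟨a, b, hab, ha, hb, L', inst', D', ?_⟩
  have h1 : D₁.dcr ≤ D.dcr := hD₁.opt L D
  have h3 : (D₁.dcr : ℝ) ≤ (D.dcr : ℝ) := by exact_mod_cast h1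
  linarith

end TA
end MP881e12
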