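import Pool.Agent.Lib.MP_881e12_lc.TA.Fib

namespace MP881e12
namespace TA

open MP60f107 Finset
open MP60f107.Contr (sw pr ht mk)

/-- ROW TA-I1a (70 lines, three theorems).  Sizes and degrees of clusters.

`sum_fib`: `∑ q, fib c q = |V₀|` (`Finset.card_eq_sum_card_fiberwise`).
`dgN_quo`: an edge of `quo N₀ c` incident with `q` has an end `v` with `c v = q`, and it is an edge of `N₀`
incident with `v`; so the incident edges of `q` are covered by the incident edges of the
`fib c q` vertices of the cluster, each at most `|V₀|`: `Finset.card_le_card_of_injOn`,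
`Finset.card_biUnion_le`.
`fib_mrg`: the fibre of `mrg c a b hab` over `q` is the fibre of `c` over `q`, and for `q = b` the union of
the fibres over `a` and `b`. -/
theorem sum_fib {V₀ Q : Type} (c : V₀ → Q) [Fintype V₀] [Fintype Q] :
    ∑ q, fib c q = Fintype.card V₀ := by
  classical
  unfold fib
  rw [← Finset.card_univ]
  exact (Finset.card_eq_sum_card_fiberwise (f := c) (s := univ) (t := univ)
    (fun _ _ => Finset.mem_coe.2 (Finset.mem_univ _))).symm

theorem dgN_quo {V₀ ι₀ Q : Type} (N₀ : Net V₀ ι₀) (c : V₀ → Q) [Fintype V₀] [Fintype ι₀]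
    [DecidableEq Q] (hdg : ∀ v, dgN N₀ v ≤ Fintype.card V₀) (q : Q) :
    dgN (quo N₀ c) q ≤ fib c q * Fintype.card V₀ := by
  classical
  have h1 : dgN (quo N₀ c) q ≤
      ((univ.filter fun v => c v = q).biUnion fun v => univ.filter fun i => N₀.Inc i v).card := by
    unfold dgN
    refine Finset.card_le_card_of_injOn (fun i => i.1) ?_ (fun x _ y _ h => Subtype.ext h)
    intro i hi
    have hi' : (quo N₀ c).Inc i q := (Finset.mem_filter.1 (Finset.mem_coe.1 hi)).2
    refine Finset.mem_coe.2 (Finset.mem_biUnion.2 ?_)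
    rcases hi' with h | h
    · exact ⟨N₀.src i.1, Finset.mem_filter.2 ⟨Finset.mem_univ _, h⟩,
        Finset.mem_filter.2 ⟨Finset.mem_univ _, Or.inl rfl⟩⟩
    · exact ⟨N₀.tgt i.1, Finset.mem_filter.2 ⟨Finset.mem_univ _, h⟩,
        Finset.mem_filter.2 ⟨Finset.mem_univ _, Or.inr rfl⟩⟩
  refine h1.trans (Finset.card_biUnion_le.trans ?_)
  have h2 : ∑ v ∈ univ.filter (fun v => c v = q), (univ.filter fun i => N₀.Inc i v).card ≤
      (univ.filter fun v => c v = q).card • Fintype.card V₀ := by
    refine Finset.sum_le_card_nsmul _ _ _ fun v _ => ?_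
    refine le_trans (le_of_eq ?_) (hdg v)
    unfold dgN
    congr
  rw [smul_eq_mul] at h2
  refine h2.trans (le_of_eq ?_)
  unfold fib
  congr

theorem fib_mrg {V₀ Q : Type} (c : V₀ → Q) [Fintype V₀] [DecidableEq Q] (a b : Q)
    (hab : a ≠ b) (q : {q : Q // q ≠ a}) :
    fib (mrg c a b hab) q ≤ fib c q.1 + if q.1 = b then fib c a else 0 := by
  classical
  unfold fib
  have hm : ∀ v, mrg c a b hab v = q → c v = q.1 ∨ (q.1 = b ∧ c v = a) := by
    intro v hv
    unfold mrg at hv
    split_ifs at hv with h
    · exact Or.inr ⟨by rw [← hv], h⟩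
    · exact Or.inl (by rw [← hv])
  by_cases hq : q.1 = b
  · rw [if_pos hq]
    refine le_trans (Finset.card_le_card ?_) (Finset.card_union_le _ _)
    intro v hv
    simp only [Finset.mem_filter, Finset.mem_univ, true_and, Finset.mem_union] at hv ⊢
    rcases hm v hv with h | h
    · exact Or.inl h
    · exact Or.inr h.2
  · rw [if_neg hq, add_zero]
    refine Finset.card_le_card ?_
    intro v hv
    simp only [Finset.mem_filter, Finset.mem_univ, true_and] at hv ⊢
    rcases hm v hv with h | h
    · exact h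
    · exact absurd h.1 hq

end TA
end MP881e12
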