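import Pool.Agent.Lib.MP_60f107_co.CrDraw1

/-!
The contraction of guides (copy of `MP60f107.contract` without the unused hypothesis).
-/

namespace MP881e12
namespace TA

open MP60f107 Finset MP60f107.Contr

/-- D8 (contraction of the guides). -/
theorem contract_multi {V ι W : Type} [Fintype V] [DecidableEq V] [Fintype ι] [DecidableEq ι] [Fintype W]
    [DecidableEq W] (N : Net V ι)
    (ω : W → V) (hω : Function.Injective ω) (σ τ : ι → V ⊕ W)
    (hσ : ∀ i, Sum.elim id ω (σ i) = N.src i) (hτ : ∀ i, Sum.elim id ω (τ i) = N.tgt i)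
    {L : Type} [LinearOrder L] (H : Drawing (splitNet ω σ τ) L)
    (halt : ∀ w, Alt (H.inner (Sum.inr w)) (H.last (Sum.inr w)))
    (hsim : ∀ w, crL (H.path (Sum.inr w)) (H.path (Sum.inr w)) = 0) :
    ∃ (L' : Type) (_ : LinearOrder L') (D : Drawing N L'),
      D.dcr ≤ (∑ i, ∑ j, if i = j then 0 else crL (H.path (Sum.inl i)) (H.path (Sum.inl j)))
        + 2 * (∑ w, ((univ.filter fun i => σ i = Sum.inr w).card
              + (univ.filter fun i => τ i = Sum.inr w).card)
            * ∑ j, crL (H.path (Sum.inr w)) (H.path (Sum.inl j)))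
        + (∑ w, ∑ w', if w = w' then 0 else
            ((univ.filter fun i => σ i = Sum.inr w).card
              + (univ.filter fun i => τ i = Sum.inr w).card)
            * ((univ.filter fun i => σ i = Sum.inr w').card
              + (univ.filter fun i => τ i = Sum.inr w').card)
            * crL (H.path (Sum.inr w)) (H.path (Sum.inr w')))
        + 4 * ∑ w, ((univ.filter fun i => σ i = Sum.inr w).card
              + (univ.filter fun i => τ i = Sum.inr w).card) ^ 2 := by
  refine ⟨L ×ₗ ℤ, inferInstance, ctr H N hσ hτ, ?_⟩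
  have hg : ∀ w, (univ.filter fun i => σ i = Sum.inr w).card
      + (univ.filter fun i => τ i = Sum.inr w).card = ∑ i, J σ τ i w := by
    intro w
    rw [Finset.card_filter, Finset.card_filter, ← Finset.sum_add_distrib]
    refine Finset.sum_congr rfl fun i _ => ?_
    simp [J, I, att]
  simp only [hg]
  set GH : W → ι → ℕ := fun w j => crL (H.path (Sum.inr w)) (H.path (Sum.inl j)) with hGH
  set K : W → W → ℕ := fun w w' => if w = w' then 0 else
    crL (H.path (Sum.inr w)) (H.path (Sum.inr w')) with hK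
  have key : ∀ i j, i ≠ j → crL ((ctr H N hσ hτ).path i) ((ctr H N hσ hτ).path j) ≤
      crL (H.path (Sum.inl i)) (H.path (Sum.inl j)) + ∑ w, J σ τ i w * GH w j +
      ∑ w, J σ τ j w * GH w i + ∑ w, ∑ w', J σ τ i w * J σ τ j w' * K w w' +
      3 * ∑ w, J σ τ i w * J σ τ j w := by
    intro i j hij
    have hp : ∀ i Q, crL ((ctr H N hσ hτ).path i) Q =
        crL (Cc H i false) Q + (crL (mid H i) Q + crL (Cc H i true) Q) := by
      intro i Q
      rw [← crL_path H i Q, hσ, hτ]
      rfl
    have hp' : ∀ j P, crL P ((ctr H N hσ hτ).path j) =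
        crL P (Cc H j false) + (crL P (mid H j) + crL P (Cc H j true)) := by
      intro j P
      rw [crL_comm, hp, crL_comm P, crL_comm P, crL_comm P]
    rw [hp, hp', hp', hp']
    have m1 := mid_mid H hij
    have a1 : crL (Cc H i false) (mid H j) ≤
        ∑ w, I σ τ false i w * GH w j + ∑ w, I σ τ false i w * J σ τ j w := Cc_mid H i j false
    have a2 : crL (Cc H i true) (mid H j) ≤
        ∑ w, I σ τ true i w * GH w j + ∑ w, I σ τ true i w * J σ τ j w := Cc_mid H i j true
    have b1 : crL (Cc H j false) (mid H i) ≤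
        ∑ w, I σ τ false j w * GH w i + ∑ w, I σ τ false j w * J σ τ i w := Cc_mid H j i false
    have b2 : crL (Cc H j true) (mid H i) ≤
        ∑ w, I σ τ true j w * GH w i + ∑ w, I σ τ true j w * J σ τ i w := Cc_mid H j i true
    have c1 : crL (Cc H i false) (Cc H j false) ≤
        ∑ w, ∑ w', I σ τ false i w * I σ τ false j w' * K w w' :=
      Cc_Cc H hω halt hsim i j false false
    have c2 : crL (Cc H i false) (Cc H j true) ≤
        ∑ w, ∑ w', I σ τ false i w * I σ τ true j w' * K w w' :=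
      Cc_Cc H hω halt hsim i j false true
    have c3 : crL (Cc H i true) (Cc H j false) ≤
        ∑ w, ∑ w', I σ τ true i w * I σ τ false j w' * K w w' :=
      Cc_Cc H hω halt hsim i j true false
    have c4 : crL (Cc H i true) (Cc H j true) ≤
        ∑ w, ∑ w', I σ τ true i w * I σ τ true j w' * K w w' :=
      Cc_Cc H hω halt hsim i j true true
    rw [crL_comm] at b1 b2
    have s1 : ∑ w, J σ τ i w * GH w j = ∑ w, I σ τ false i w * GH w j +
        ∑ w, I σ τ true i w * GH w j := by
      rw [← Finset.sum_add_distrib]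
      exact Finset.sum_congr rfl fun w _ => by unfold J; ring
    have s2 : ∑ w, J σ τ j w * GH w i = ∑ w, I σ τ false j w * GH w i +
        ∑ w, I σ τ true j w * GH w i := by
      rw [← Finset.sum_add_distrib]
      exact Finset.sum_congr rfl fun w _ => by unfold J; ring
    have s3 : ∑ w, J σ τ i w * J σ τ j w = ∑ w, I σ τ false i w * J σ τ j w +
        ∑ w, I σ τ true i w * J σ τ j w := by
      rw [← Finset.sum_add_distrib]
      exact Finset.sum_congr rfl fun w _ => by unfold J; ring
    have s4 : ∑ w, J σ τ i w * J σ τ j w = ∑ w, I σ τ false j w * J σ τ i w +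
        ∑ w, I σ τ true j w * J σ τ i w := by
      rw [← Finset.sum_add_distrib]
      exact Finset.sum_congr rfl fun w _ => by unfold J; ring
    have s5 : ∑ w, ∑ w', J σ τ i w * J σ τ j w' * K w w' =
        ∑ w, ∑ w', I σ τ false i w * I σ τ false j w' * K w w' +
        ∑ w, ∑ w', I σ τ false i w * I σ τ true j w' * K w w' +
        (∑ w, ∑ w', I σ τ true i w * I σ τ false j w' * K w w' +
        ∑ w, ∑ w', I σ τ true i w * I σ τ true j w' * K w w') := by
      simp only [← Finset.sum_add_distrib]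
      exact Finset.sum_congr rfl fun w _ => Finset.sum_congr rfl fun w' _ => by unfold J; ring
    omega
  have hD : (ctr H N hσ hτ).dcr ≤ ∑ i, ∑ j, ((if i = j then 0 else
      crL (H.path (Sum.inl i)) (H.path (Sum.inl j))) + ∑ w, J σ τ i w * GH w j +
      ∑ w, J σ τ j w * GH w i + ∑ w, ∑ w', J σ τ i w * J σ τ j w' * K w w' +
      3 * ∑ w, J σ τ i w * J σ τ j w) := by
    unfold Drawing.dcr
    refine Finset.sum_le_sum fun i _ => Finset.sum_le_sum fun j _ => ?_
    by_cases hij : i = j
    · simp [hij]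
    · rw [if_neg hij, if_neg hij]; exact key i j hij
  refine hD.trans ?_
  simp only [Finset.sum_add_distrib]
  have sw3 : ∀ F : ι → ι → W → ℕ, ∑ i, ∑ j, ∑ w, F i j w = ∑ w, ∑ i, ∑ j, F i j w := by
    intro F
    calc ∑ i, ∑ j, ∑ w, F i j w = ∑ i, ∑ w, ∑ j, F i j w :=
          Finset.sum_congr rfl fun i _ => Finset.sum_comm
      _ = ∑ w, ∑ i, ∑ j, F i j w := Finset.sum_comm
  have t1 : ∑ i, ∑ j, ∑ w, J σ τ i w * GH w j = ∑ w, (∑ i, J σ τ i w) * ∑ j, GH w j := by
    rw [sw3]
    exact Finset.sum_congr rfl fun w _ => (Finset.sum_mul_sum _ _ _ _).symm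
  have t2 : ∑ i, ∑ j, ∑ w, J σ τ j w * GH w i = ∑ w, (∑ i, J σ τ i w) * ∑ j, GH w j := by
    rw [Finset.sum_comm, t1]
  have t3 : ∑ i, ∑ j, ∑ w, ∑ w', J σ τ i w * J σ τ j w' * K w w' =
      ∑ w, ∑ w', (if w = w' then 0 else (∑ i, J σ τ i w) * (∑ i, J σ τ i w') *
        crL (H.path (Sum.inr w)) (H.path (Sum.inr w'))) := by
    rw [sw3]
    refine Finset.sum_congr rfl fun w _ => ?_
    rw [sw3]
    refine Finset.sum_congr rfl fun w' _ => ?_
    simp only [← Finset.sum_mul, ← Finset.mul_sum, hK]
    split_ifs <;> simp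
  have t4 : ∑ i, ∑ j, 3 * ∑ w, J σ τ i w * J σ τ j w = 3 * ∑ w, (∑ i, J σ τ i w) ^ 2 := by
    simp only [← Finset.mul_sum]
    rw [sw3]
    congr 1
    refine Finset.sum_congr rfl fun w _ => ?_
    rw [pow_two, Finset.sum_mul_sum]
  rw [t1, t2, t3, t4]
  simp only [hGH]
  omega

end TA
end MP881e12
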