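import Pool.Agent.Lib.MP_881e12_lc.TA.O1
import Pool.Agent.Lib.MP_881e12_lc.TA.M0

namespace MP881e12
namespace TA

open MP60f107 Finset
open MP60f107.Contr (sw pr ht mk)

section mstep

variable {V₀ ι₀ Q : Type} (N₀ : Net V₀ ι₀) (c : V₀ → Q) [DecidableEq Q] (a b : Q) (hab : a ≠ b)

theorem mrg_congr {x y : V₀} (h : c x = c y) : mrg c a b hab x = mrg c a b hab y := by
  unfold mrg
  by_cases hx : c x = a
  · rw [dif_pos hx, dif_pos (h ▸ hx)]
  · rw [dif_neg hx, dif_neg (h ▸ hx)]
    exact Subtype.ext h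

/-- The edge of the finer net. -/
def upE (i : QE N₀ (mrg c a b hab)) : QE N₀ c := ⟨i.1, fun h => i.2 (mrg_congr c a b hab h)⟩

theorem upE_inj : Function.Injective (upE N₀ c a b hab) := by
  intro i j h
  have e : (upE N₀ c a b hab i).1 = (upE N₀ c a b hab j).1 := by rw [h]
  exact Subtype.ext e

/-- The place of a vertex: the second copy of `b` or its cluster. -/
def sg (x : V₀) : {q : Q // q ≠ a} ⊕ Unit :=
  if h : c x = a then Sum.inr () else Sum.inl ⟨c x, h⟩

theorem sg_elim (x : V₀) : Sum.elim id (fun _ : Unit => (⟨b, hab.symm⟩ : {q : Q // q ≠ a})) (sg c a x) =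
    mrg c a b hab x := by
  unfold sg mrg
  by_cases hx : c x = a
  · rw [dif_pos hx, dif_pos hx]; rfl
  · rw [dif_neg hx, dif_neg hx]; rfl

theorem sg_inr {x : V₀} {w : Unit} (h : sg c a x = Sum.inr w) : c x = a := by
  unfold sg at h
  by_cases hx : c x = a
  · exact hx
  · rw [dif_neg hx] at h
    exact absurd h Sum.inl_ne_inr

theorem sg_pos {L : Type} [LinearOrder L] (f : Q → L ×ₗ ℤ) (x : V₀) :
    Sum.elim (fun q : {q : Q // q ≠ a} => f q.1) (fun _ : Unit => f a) (sg c a x) = f (c x) := by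
  unfold sg
  by_cases hx : c x = a
  · rw [dif_pos hx, hx]; rfl
  · rw [dif_neg hx]; rfl

variable {L : Type} [LinearOrder L] [Fintype ι₀]

/-- The drawing with the guide. -/
def mdr (D : Drawing (quo N₀ c) L) {γ : List (Bool × (L ×ₗ ℤ))} {s : Bool} {t : ℕ}
    (hγ : Chain D b a γ s t) :
    Drawing (splitNet (fun _ : Unit => (⟨b, hab.symm⟩ : {q : Q // q ≠ a}))
      (fun i : QE N₀ (mrg c a b hab) => sg c a (N₀.src i.1)) (fun i => sg c a (N₀.tgt i.1)))
      (L ×ₗ ℤ) where
  pos := Sum.elim (fun q => (lift D).pos q.1) (fun _ => (lift D).pos a)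
  inner := Sum.elim (fun i => (lift D).inner (upE N₀ c a b hab i)) (fun _ => γ)
  last := Sum.elim (fun i => D.last (upE N₀ c a b hab i)) (fun _ => s)
  pos_inj := by
    rintro (x | x) (y | y) h
    · simp only [Sum.elim_inl] at h
      exact congrArg Sum.inl (Subtype.ext ((lift D).pos_inj h))
    · simp only [Sum.elim_inl, Sum.elim_inr] at h
      exact absurd ((lift D).pos_inj h) x.2
    · simp only [Sum.elim_inl, Sum.elim_inr] at h
      exact absurd ((lift D).pos_inj h).symm y.2
    · rfl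
  nodup := by
    rintro (i | i)
    · exact (lift D).nodup _
    · exact hγ.nodup
  disj := by
    have key : ∀ (i : QE N₀ c), ∀ x ∈ (lift D).inner i, ht x.2 = 0 := by
      intro i x hx
      obtain ⟨x', hx', rfl⟩ := List.mem_map.1 hx
      rfl
    rintro (i | i) (j | j) hij x hx y hy h
    · simp only [Sum.elim_inl] at hx hy
      exact (lift D).disj _ _ (fun e => hij (congrArg Sum.inl (upE_inj N₀ c a b hab e))) x hx y hy h
    · simp only [Sum.elim_inl, Sum.elim_inr] at hx hy
      exact hγ.fresh y hy (h ▸ key _ x hx)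
    · simp only [Sum.elim_inl, Sum.elim_inr] at hx hy
      exact hγ.fresh x hx (h.symm ▸ key _ y hy)
    · exact hij rfl
  avoid := by
    rintro (i | i) x hx (w | w) h
    · simp only [Sum.elim_inl] at hx h
      exact (lift D).avoid _ x hx _ h
    · simp only [Sum.elim_inl, Sum.elim_inr] at hx h
      exact (lift D).avoid _ x hx _ h
    · simp only [Sum.elim_inl, Sum.elim_inr] at hx h
      exact hγ.fresh x hx (by rw [h]; rfl)
    · simp only [Sum.elim_inr] at hx h
      exact hγ.fresh x hx (by rw [h]; rfl)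

theorem mdr_inl (D : Drawing (quo N₀ c) L) {γ : List (Bool × (L ×ₗ ℤ))} {s : Bool} {t : ℕ}
    (hγ : Chain D b a γ s t) (i : QE N₀ (mrg c a b hab)) :
    (mdr N₀ c a b hab D hγ).path (Sum.inl i) = (lift D).path (upE N₀ c a b hab i) := by
  have e : ∀ x, Sum.elim (fun q : {q : Q // q ≠ a} => (lift D).pos q.1)
      (fun _ : Unit => (lift D).pos a) (sg c a x) = (lift D).pos (c x) :=
    fun x => sg_pos c a (lift D).pos x
  unfold Drawing.path
  show arcs (Sum.elim (fun q : {q : Q // q ≠ a} => (lift D).pos q.1)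
      (fun _ : Unit => (lift D).pos a) (sg c a (N₀.src i.1))) _ _
      (Sum.elim (fun q : {q : Q // q ≠ a} => (lift D).pos q.1)
      (fun _ : Unit => (lift D).pos a) (sg c a (N₀.tgt i.1))) = _
  rw [e, e]
  rfl

theorem sum_up {ι ι' : Type} [Fintype ι] [Fintype ι'] (f : ι → ι') (hf : Function.Injective f)
    (F : ι' → ℕ) : ∑ i, F (f i) ≤ ∑ i, F i := by
  have e : ∑ i, F (f i) = ∑ i ∈ univ.map ⟨f, hf⟩, F i := by
    rw [Finset.sum_map]; rfl
  rw [e]
  exact Finset.sum_le_sum_of_subset (Finset.subset_univ _)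

end mstep

/-- ROW TA-M1 (170 lines).  The merge step.

Proof.  Apply `contract_multi` (M0.lean) with `V = {q : Q // q ≠ a}`, `ι = QE N₀ (mrg c a b hab)`,
`W = Unit`, `ω _ = ⟨b, hab.symm⟩`, the net `quo N₀ (mrg c a b hab)`,
`σ i = if h : c (N₀.src i.1) = a then Sum.inr () else Sum.inl ⟨c (N₀.src i.1), h⟩`, `τ` the same with
`tgt` (`hσ`, `hτ`: unfold `mrg`).  If `mrg c a b hab` separates the ends of `i` then `c` does
(`c x = c y → mrg x = mrg y`), so `i` gives an edge `i' = ⟨i.1, _⟩ : QE N₀ c`.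
`H : Drawing (splitNet ω σ τ) (L ×ₗ ℤ)`: `pos (inl q) = mk (D.pos q.1) 0`, `pos (inr ()) = mk (D.pos a) 0`
(injective: `q.1 ≠ a`, `D.pos_inj`), `inner (inl i) = (lift D).inner i'`, `last (inl i) = D.last i'`,
`inner (inr ()) = γ`, `last (inr ()) = s` (`splitNet`: the guide goes from `inl (ω ()) = b` to `inr () = a`, as
`hγ : Chain D b a γ s t`).  `disj`, `avoid`: fields of `lift D` (`i ↦ i'` is injective), and the points of
`γ` have height `≠ 0` (`hγ.fresh`), all others have height `0`.
Then `H.path (inl i) = (lift D).path i'` (the position of `σ i` is `mk (D.pos (c (src))) 0` in both cases)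
and `H.path (inr ())` is the chain of `hγ`.  `halt`, `hsim`: `hγ.alt`, `hγ.self`.
The bound: first sum: the paths of the lift have the same crossings as in `D` (`crL_up0`,
`lift_path` in TA/R4.lean), and `i ↦ i'` is injective, so the sum is at most `D.dcr`
(`Finset.sum_le_sum_of_injOn`-type: `Finset.sum_image`/`sum_map` and `Finset.sum_le_sum_of_subset`).
Second: `(|{σ i = inr ()}| + |{τ i = inr ()}|) ≤ dgN (quo N₀ c) a =: d` (the two sets of `i'` are
disjoint, since `c src ≠ c tgt`, and consist of edges incident with `a`), and the sum over `j` of the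
crossings of the guide is `≤ t` (`hγ.cost`, injectivity again).  Third: `W = Unit`, so `0`.  Fourth:
`4 d²`. -/
theorem merge_step {V₀ ι₀ Q : Type} (N₀ : Net V₀ ι₀) (c : V₀ → Q) [Fintype ι₀]
    [DecidableEq ι₀] [Fintype Q] [DecidableEq Q] (a b : Q)
    (hab : a ≠ b) {L : Type} [LinearOrder L] (D : Drawing (quo N₀ c) L)
    {γ : List (Bool × (L ×ₗ ℤ))} {s : Bool} {t : ℕ} (hγ : Chain D b a γ s t) :
    ∃ (L' : Type) (_ : LinearOrder L') (D' : Drawing (quo N₀ (mrg c a b hab)) L'),
      D'.dcr ≤ D.dcr + 2 * dgN (quo N₀ c) a * t + 4 * dgN (quo N₀ c) a ^ 2 := by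
  set ω : Unit → {q : Q // q ≠ a} := fun _ => ⟨b, hab.symm⟩ with hω
  set σ : QE N₀ (mrg c a b hab) → {q : Q // q ≠ a} ⊕ Unit := fun i => sg c a (N₀.src i.1) with hσ
  set τ : QE N₀ (mrg c a b hab) → {q : Q // q ≠ a} ⊕ Unit := fun i => sg c a (N₀.tgt i.1) with hτ
  have main := contract_multi (quo N₀ (mrg c a b hab)) ω (fun _ _ _ => rfl) σ τ
    (fun i => sg_elim c a b hab _) (fun i => sg_elim c a b hab _)
    (mdr N₀ c a b hab D hγ) (fun _ => hγ.alt) (fun _ => hγ.self)
  obtain ⟨L', inst, D', hD'⟩ := main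
  refine ⟨L', inst, D', ?_⟩
  have hd : (univ.filter fun i => σ i = Sum.inr ()).card
      + (univ.filter fun i => τ i = Sum.inr ()).card ≤ dgN (quo N₀ c) a := by
    have hdis : Disjoint (univ.filter fun i => σ i = Sum.inr ())
        (univ.filter fun i => τ i = Sum.inr ()) := by
      rw [Finset.disjoint_left]
      intro i hi hj
      have h1 := sg_inr c a (Finset.mem_filter.1 hi).2
      have h2 := sg_inr c a (Finset.mem_filter.1 hj).2
      exact (upE N₀ c a b hab i).2 (h1.trans h2.symm)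
    rw [← Finset.card_union_of_disjoint hdis]
    unfold dgN
    refine Finset.card_le_card_of_injOn (upE N₀ c a b hab) ?_ (upE_inj N₀ c a b hab).injOn
    intro i hi
    simp only [Finset.coe_filter, Finset.mem_univ, true_and, Set.mem_ofPred_eq]
    rcases Finset.mem_union.1 (Finset.mem_coe.1 hi) with h | h
    · exact Or.inl (sg_inr c a (Finset.mem_filter.1 h).2)
    · exact Or.inr (sg_inr c a (Finset.mem_filter.1 h).2)
  have h1 : (∑ i, ∑ j, if i = j then 0 else crL ((mdr N₀ c a b hab D hγ).path (Sum.inl i))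
      ((mdr N₀ c a b hab D hγ).path (Sum.inl j))) ≤ D.dcr := by
    have e : (∑ i, ∑ j, if i = j then 0 else crL ((mdr N₀ c a b hab D hγ).path (Sum.inl i))
        ((mdr N₀ c a b hab D hγ).path (Sum.inl j))) =
        ∑ i, ∑ j, (fun i' j' => if i' = j' then 0 else crL (D.path i') (D.path j'))
          (upE N₀ c a b hab i) (upE N₀ c a b hab j) := by
      refine Finset.sum_congr rfl fun i _ => Finset.sum_congr rfl fun j _ => ?_
      rw [mdr_inl, mdr_inl, lift_path, lift_path, crL_up0]
      show _ = if upE N₀ c a b hab i = upE N₀ c a b hab j then 0 else _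
      by_cases hij : i = j
      · rw [if_pos hij, if_pos (congrArg _ hij)]
      · rw [if_neg hij, if_neg (fun e => hij (upE_inj N₀ c a b hab e))]
    rw [e]
    unfold Drawing.dcr
    refine le_trans (Finset.sum_le_sum fun i _ => sum_up _ (upE_inj N₀ c a b hab)
      (fun j' => if upE N₀ c a b hab i = j' then 0 else
        crL (D.path (upE N₀ c a b hab i)) (D.path j'))) ?_
    exact sum_up _ (upE_inj N₀ c a b hab)
      (fun i' => ∑ j', if i' = j' then 0 else crL (D.path i') (D.path j'))
  have h2 : ∑ j, crL ((mdr N₀ c a b hab D hγ).path (Sum.inr ()))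
      ((mdr N₀ c a b hab D hγ).path (Sum.inl j)) ≤ t := by
    refine le_trans ?_ hγ.cost
    have e : ∀ j, crL ((mdr N₀ c a b hab D hγ).path (Sum.inr ()))
        ((mdr N₀ c a b hab D hγ).path (Sum.inl j)) =
        (fun j' => crL (arcs (mk (D.pos b) 0) γ s (mk (D.pos a) 0)) ((lift D).path j'))
          (upE N₀ c a b hab j) := by
      intro j
      rw [mdr_inl]
      rfl
    rw [Finset.sum_congr rfl fun j _ => e j]
    exact sum_up _ (upE_inj N₀ c a b hab)
      (fun j' => crL (arcs (mk (D.pos b) 0) γ s (mk (D.pos a) 0)) ((lift D).path j'))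
  simp only [Finset.univ_unique, Finset.sum_singleton, if_true, add_zero] at hD'
  refine hD'.trans ?_
  have h3 := Nat.mul_le_mul hd h2
  have h4 := Nat.pow_le_pow_left hd 2
  have h5 : 2 * dgN (quo N₀ c) a * t = 2 * (dgN (quo N₀ c) a * t) := by ring
  rw [h5]
  have : (default : Unit) = () := rfl
  rw [this]
  omega

end TA
end MP881e12
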