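import Pool.Agent.Lib.MP_881e12_lc.TA.W

/-!
Walks along the edges: definitions and statements for the packing argument.
-/

namespace MP881e12
namespace TA

open MP60f107 Finset
open MP60f107.Contr (sw pr ht mk)

section

variable {V ι L : Type} [LinearOrder L] {N : Net V ι}

/-- The list `P` of arcs is a chain from `z` to `z'`. -/
def Ch : L → List (Arc L) → L → Prop
  | z, [], z' => z = z'
  | z, A :: P, z' => A.p = z ∧ Ch A.q P z'

omit [LinearOrder L] in
theorem Ch_append {z z' : L} {P P' : List (Arc L)} :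
    Ch z (P ++ P') z' ↔ ∃ w, Ch z P w ∧ Ch w P' z' := by
  induction P generalizing z with
  | nil => simp [Ch]
  | cons A P ih => simp only [List.cons_append, Ch, ih]; tauto

variable [Fintype ι]

theorem Near.mono {D : Drawing N L} {z z' : L} {t t' : ℕ} (h : Near D z z' t) (ht : t ≤ t') :
    Near D z z' t' := by
  obtain ⟨u, hu, w⟩ := h
  exact ⟨u, hu.trans ht, w⟩

theorem Near.refl (D : Drawing N L) (z : L) (t : ℕ) : Near D z z t := ⟨0, Nat.zero_le _, Wk.nil z⟩

/-- Starting with the edge `e` in the direction `b`, after `j` crossings `e` crosses `f`, and after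
`l` more crossings on `f` (towards its target) `f` crosses `g`. -/
def Rel (D : Drawing N L) (e : ι) (b : Bool) (j l : ℕ) (f g : ι) : Prop :=
  ∃ (P₁ : List (Arc L)) (A : Arc L) (P₂ Q : List (Arc L)) (B : Arc L) (M : List (Arc L))
    (C : Arc L) (R : List (Arc L)) (C' : Arc L),
    dpath D e b = P₁ ++ A :: P₂ ∧ K D P₁ = j ∧ X A B = 1 ∧ D.path f = Q ++ B :: (M ++ C :: R) ∧
    K D M = l ∧ C' ∈ D.path g ∧ X C C' = 1

end

/-! ### row P1 -/

section

variable {V ι L : Type} [LinearOrder L] {N : Net V ι}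

omit [LinearOrder L] in
private theorem ch_dpath_arcs (a : L) (r : List (Bool × L)) (s : Bool) (b : L) :
    Ch a (arcs a r s b) b := by
  induction r generalizing a with
  | nil => simp [arcs, Ch]
  | cons x r ih =>
    obtain ⟨s₁, p⟩ := x
    simp only [arcs, Ch, true_and]
    exact ih p

omit [LinearOrder L] in
private theorem ch_dpath_rev {z z' : L} {P : List (Arc L)} (h : Ch z P z') :
    Ch z' ((P.map sw).reverse) z := by
  induction P generalizing z with
  | nil => simpa [Ch] using (show z = z' from h).symm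
  | cons A P ih =>
    obtain ⟨h1, h2⟩ := h
    rw [List.map_cons, List.reverse_cons, Ch_append]
    exact ⟨A.q, ih h2, rfl, h1⟩

theorem ch_dpath (D : Drawing N L) (e : ι) (b : Bool) :
    Ch (D.pos (sv N e b)) (dpath D e b) (D.pos (sv N e (!b))) := by
  have h : Ch (D.pos (N.src e)) (D.path e) (D.pos (N.tgt e)) :=
    ch_dpath_arcs _ _ _ _
  cases b with
  | true => simpa [sv, dpath] using h
  | false => simpa [sv, dpath] using ch_dpath_rev h

theorem mem_dpath (D : Drawing N L) (e : ι) (b : Bool) (A : Arc L) :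
    A ∈ dpath D e b ↔ (if b then A else sw A) ∈ D.path e := by
  cases b with
  | true => simp [dpath]
  | false =>
    simp only [dpath, Bool.false_eq_true, if_false, List.mem_reverse, List.mem_map]
    constructor
    · rintro ⟨B, hB, rfl⟩
      exact hB
    · intro h
      exact ⟨sw A, h, rfl⟩

variable [Fintype ι]

theorem kap_sw (D : Drawing N L) (A : Arc L) : kap D (sw A) = kap D A := by
  unfold kap
  refine Finset.sum_congr rfl fun j _ => ?_
  exact Nrm.crL_swap A.p A.q A.up (D.path j)

theorem K_append (D : Drawing N L) (P P' : List (Arc L)) : K D (P ++ P') = K D P + K D P' := by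
  simp [K, List.map_append, List.sum_append]

theorem kap_dpath_le {D : Drawing N L} (hr : Refined D) {e : ι} {b : Bool} {A : Arc L}
    (hA : A ∈ dpath D e b) : kap D A ≤ 1 := by
  rw [mem_dpath] at hA
  cases b with
  | true => exact hr e A (by simpa using hA)
  | false =>
    rw [← kap_sw]
    exact hr e (sw A) (by simpa using hA)

end

/-! ### row P2 -/

section

variable {V ι L : Type} [LinearOrder L] {N : Net V ι}

omit [LinearOrder L] in
private theorem P2_arcs_split {a : L} {r : List (Bool × L)} {s : Bool} {b : L}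
    {P₁ P₂ : List (Arc L)} {A A' : Arc L} (h : arcs a r s b = P₁ ++ A :: A' :: P₂) :
    ∃ x ∈ r, A.q = x.2 ∧ A'.p = x.2 := by
  induction r generalizing a P₁ with
  | nil =>
    have h1 := congrArg List.length h
    simp [arcs] at h1
    omega
  | cons c r ih =>
    obtain ⟨s₁, p⟩ := c
    rw [arcs] at h
    cases P₁ with
    | nil =>
      rw [List.nil_append, List.cons.injEq] at h
      obtain ⟨h1, h2⟩ := h
      refine ⟨(s₁, p), List.mem_cons_self, ?_, ?_⟩
      · rw [← h1]
      · cases r with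
        | nil =>
          rw [arcs, List.cons.injEq] at h2
          rw [← h2.1]
        | cons c' r' =>
          obtain ⟨s₂, p'⟩ := c'
          rw [arcs, List.cons.injEq] at h2
          rw [← h2.1]
    | cons B P₁ =>
      rw [List.cons_append, List.cons.injEq] at h
      obtain ⟨x, hx, h3⟩ := ih h.2
      exact ⟨x, List.mem_cons_of_mem _ hx, h3⟩

omit [LinearOrder L] in
private theorem P2_sw_sw (A : Arc L) : sw (sw A) = A := rfl

private theorem P2_inner (D : Drawing N L) {e : ι} {b : Bool} {P₁ P₂ : List (Arc L)}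
    {A A' : Arc L} (h : dpath D e b = P₁ ++ A :: A' :: P₂) : ∃ x ∈ D.inner e, A.q = x.2 := by
  cases b with
  | true =>
    obtain ⟨x, hx, h1, -⟩ := P2_arcs_split (show D.path e = _ from h)
    exact ⟨x, hx, h1⟩
  | false =>
    have h1 : ((D.path e).map sw).reverse = P₁ ++ A :: A' :: P₂ := h
    have h2 := congrArg List.reverse h1
    rw [List.reverse_reverse] at h2
    have h3 := congrArg (List.map sw) h2
    have h4 : ((D.path e).map sw).map sw = D.path e := by
      rw [List.map_map]
      have : (sw ∘ sw : Arc L → Arc L) = id := by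
        funext B
        exact P2_sw_sw B
      rw [this, List.map_id]
    rw [h4] at h3
    have h5 : D.path e = (P₂.reverse.map sw) ++ sw A' :: sw A :: (P₁.reverse.map sw) := by
      rw [h3]
      simp
    obtain ⟨x, hx, -, h6⟩ := P2_arcs_split (show D.path e = _ from h5)
    exact ⟨x, hx, h6⟩

variable [Fintype ι]

/-- P1f. The intermediate points of an edge are not vertices. -/
theorem dv_inner (D : Drawing N L) {e : ι} {b : Bool} {P₁ P₂ : List (Arc L)} {A A' : Arc L}
    (h : dpath D e b = P₁ ++ A :: A' :: P₂) : dv D A.q = 0 := by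
  obtain ⟨x, hx, h1⟩ := P2_inner D h
  unfold dv
  rw [Finset.card_eq_zero, Finset.filter_eq_empty_iff]
  rintro j - (hj | hj)
  · exact D.avoid e x hx _ (h1.symm.trans hj.symm)
  · exact D.avoid e x hx _ (h1.symm.trans hj.symm)

private theorem P2_append {D : Drawing N L} {z z' z'' : L} {t t' : ℕ} (h : Wk D z z' t)
    (h' : Wk D z' z'' t') : Wk D z z'' (t + t') := by
  induction h with
  | nil z =>
    rw [Nat.zero_add]
    exact h'
  | cons hs _ ih =>
    rw [Nat.add_assoc]
    exact Wk.cons hs (ih h')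

private theorem P2_step {D : Drawing N L} {z z' : L} {s : Bool} {c : ℕ} (h : Step D z z' s c) :
    ∃ s', Step D z' z s' c := by
  cases h with
  | arc i A hA _ _ h =>
    refine ⟨A.up, ?_⟩
    have h1 := Step.arc (D := D) i A hA z' z
      (h.elim (fun k => Or.inr ⟨k.2, k.1⟩) (fun k => Or.inl ⟨k.2, k.1⟩))
    rwa [Nat.add_right_comm] at h1
  | sw i j A B hA hB hX _ _ hz hz' =>
    refine ⟨B.up, ?_⟩
    have h1 := Step.sw (D := D) j i B A hB hA ((Nrm.X_comm B A).trans hX) z' z hz' hz
    rwa [Nat.add_right_comm] at h1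

private theorem P2_symm {D : Drawing N L} {z z' : L} {t : ℕ} (h : Wk D z z' t) :
    Wk D z' z t := by
  induction h with
  | nil z => exact Wk.nil z
  | cons hs _ ih =>
    obtain ⟨s', h1⟩ := P2_step hs
    have h2 := P2_append ih (Wk.cons h1 (Wk.nil _))
    rwa [Nat.add_zero, Nat.add_comm] at h2

theorem Near.trans {D : Drawing N L} {z z' z'' : L} {t t' : ℕ} (h : Near D z z' t)
    (h' : Near D z' z'' t') : Near D z z'' (t + t') := by
  obtain ⟨u, hu, w⟩ := h
  obtain ⟨u', hu', w'⟩ := h'
  exact ⟨u + u', Nat.add_le_add hu hu', P2_append w w'⟩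

theorem Near.symm {D : Drawing N L} {z z' : L} {t : ℕ} (h : Near D z z' t) : Near D z' z t := by
  obtain ⟨u, hu, w⟩ := h
  exact ⟨u, hu, P2_symm w⟩

end

/-! ### row P3 -/

section

variable {V ι L : Type} [LinearOrder L] {N : Net V ι} [Fintype ι]

private theorem P3_step (D : Drawing N L) {e : ι} {b : Bool} {A : Arc L} (hA : A ∈ dpath D e b) :
    Step D A.p A.q A.up (kap D A + dv D A.p + dv D A.q) := by
  rw [mem_dpath] at hA
  cases b with
  | true => exact Step.arc e A (by simpa using hA) A.p A.q (Or.inl ⟨rfl, rfl⟩)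
  | false =>
    have h := Step.arc (D := D) e (sw A) (by simpa using hA) A.p A.q (Or.inr ⟨rfl, rfl⟩)
    rw [kap_sw] at h
    exact h

private theorem P3_aux (D : Drawing N L) {e : ι} {b : Bool} (P : List (Arc L)) :
    ∀ (P₁ P₂ : List (Arc L)) (z z' : L), dpath D e b = P₁ ++ P ++ P₂ → P ≠ [] → Ch z P z' →
      Near D z z' (K D P + dv D z + dv D z') := by
  induction P with
  | nil => intro P₁ P₂ z z' _ h; exact absurd rfl h
  | cons A P ih =>
    intro P₁ P₂ z z' h _ hc
    obtain ⟨rfl, hc⟩ := hc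
    have hA : A ∈ dpath D e b := by rw [h]; simp
    have hs := P3_step D hA
    have hK : K D (A :: P) = kap D A + K D P := by simp [K]
    cases P with
    | nil =>
      have hz : A.q = z' := hc
      subst hz
      refine ⟨_, ?_, Wk.cons hs (Wk.nil _)⟩
      rw [hK]
      simp [K]
    | cons A' P' =>
      have h0 : dv D A.q = 0 := dv_inner D (P₁ := P₁) (P₂ := P' ++ P₂) (A := A) (A' := A') (by
        rw [h]; simp)
      obtain ⟨t, ht, w⟩ := ih (P₁ ++ [A]) P₂ A.q z' (by rw [h]; simp) (by simp) hc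
      refine ⟨_, ?_, Wk.cons hs w⟩
      rw [hK]
      omega

/-- P2. A segment of an edge: the cost is the number of crossings, and at most `δ` at each end
(intermediate points are no vertices: `dv_inner`). -/
theorem seg (D : Drawing N L) {δ : ℕ} (hδ : ∀ z, dv D z ≤ δ) {e : ι} {b : Bool}
    {P₁ P P₂ : List (Arc L)} (h : dpath D e b = P₁ ++ P ++ P₂) {z z' : L} (hc : Ch z P z') :
    Near D z z' (K D P + 2 * δ) := by
  by_cases hP : P = []
  · subst hP
    have hz : z = z' := hc
    subst hz
    exact Near.refl D z _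
  · refine (P3_aux D P P₁ P₂ z z' h hP hc).mono ?_
    have h1 := hδ z
    have h2 := hδ z'
    omega

end

/-! ### row P4 -/

section

variable {V ι L : Type} [LinearOrder L] {N : Net V ι}

variable [Fintype ι]

private theorem P4_near_step {D : Drawing N L} {z z' : L} {s : Bool} {c : ℕ}
    (h : Step D z z' s c) : Near D z z' c :=
  ⟨c, le_refl _, by simpa using Wk.cons h (Wk.nil z')⟩

/-- P3. From the beginning of the edge `e` to the edge `f` that crosses it at the arc `A`. -/
theorem half (D : Drawing N L) {δ : ℕ} (hδ : ∀ z, dv D z ≤ δ) {e f : ι} {b : Bool}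
    {P₁ P₂ : List (Arc L)} {A B : Arc L} (h : dpath D e b = P₁ ++ A :: P₂) (hB : B ∈ D.path f)
    (hX : X A B = 1) {z : L} (hz : z = B.p ∨ z = B.q) :
    Near D (D.pos (sv N e b)) z (K D P₁ + 2 + 4 * δ) := by
  have hch := ch_dpath D e b
  rw [h, Ch_append] at hch
  obtain ⟨w, hw1, hw2⟩ := hch
  have hw : A.p = w := hw2.1
  have h1 : Near D (D.pos (sv N e b)) w (K D P₁ + 2 * δ) := by
    refine seg D hδ (e := e) (b := b) (P₁ := []) (P := P₁) (P₂ := A :: P₂) ?_ hw1
    simpa using h
  have hA : A ∈ dpath D e b := by rw [h]; simp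
  have hA' := (mem_dpath D e b A).1 hA
  have h2 : Near D w z (2 + dv D w + dv D z) := by
    cases b with
    | true =>
      simp only [if_true] at hA'
      exact P4_near_step (Step.sw e f A B hA' hB hX w z (Or.inl hw.symm) hz)
    | false =>
      simp only [Bool.false_eq_true, if_false] at hA'
      have hX' : X (sw A) B = 1 := by
        rw [← hX]; exact Nrm.X_swap A B
      exact P4_near_step (Step.sw e f (sw A) B hA' hB hX' w z (Or.inr hw.symm) hz)
  refine (h1.trans h2).mono ?_
  have := hδ w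
  have := hδ z
  omega

/-- P4. From the beginning of `e` to the target of `f`. -/
theorem to_tgt (D : Drawing N L) {δ : ℕ} (hδ : ∀ z, dv D z ≤ δ) {e f : ι} {b : Bool}
    {P₁ P₂ Q₁ Q₂ : List (Arc L)} {A B : Arc L} (h : dpath D e b = P₁ ++ A :: P₂)
    (hf : D.path f = Q₁ ++ B :: Q₂) (hX : X A B = 1) :
    Near D (D.pos (sv N e b)) (D.pos (N.tgt f)) (K D P₁ + K D Q₂ + 2 + 6 * δ) := by
  have hB : B ∈ D.path f := by rw [hf]; simp
  have h1 := half D hδ h hB hX (z := B.q) (Or.inr rfl)
  have hch := ch_dpath D f true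
  have hd : dpath D f true = Q₁ ++ B :: Q₂ := by simpa [dpath] using hf
  rw [hd, Ch_append] at hch
  obtain ⟨w, hw1, hw2⟩ := hch
  have h2 : Near D B.q (D.pos (sv N f (!true))) (K D Q₂ + 2 * δ) := by
    refine seg D hδ (e := f) (b := true) (P₁ := Q₁ ++ [B]) (P := Q₂) (P₂ := []) ?_ hw2.2
    simpa using hd
  have h3 : D.pos (sv N f (!true)) = D.pos (N.tgt f) := by simp [sv]
  rw [h3] at h2
  refine (h1.trans h2).mono ?_
  omega

/-- P5. From the beginning of `e` to its end. -/
theorem to_end (D : Drawing N L) {δ : ℕ} (hδ : ∀ z, dv D z ≤ δ) (e : ι) (b : Bool) :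
    Near D (D.pos (sv N e b)) (D.pos (sv N e (!b))) (K D (dpath D e b) + 2 * δ) := by
  refine seg D hδ (e := e) (b := b) (P₁ := []) (P := dpath D e b) (P₂ := []) ?_ (ch_dpath D e b)
  simp

/-- P7. Splitting a list at the crossing number `j`. -/
theorem split_K (D : Drawing N L) {P : List (Arc L)} (hP : ∀ A ∈ P, kap D A ≤ 1) {j : ℕ}
    (hj : j < K D P) : ∃ P₁ A P₂, P = P₁ ++ A :: P₂ ∧ K D P₁ = j ∧ kap D A = 1 := by
  induction P generalizing j with
  | nil => simp [K] at hj
  | cons B P ih =>
    have hK : K D (B :: P) = kap D B + K D P := by simp [K]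
    rw [hK] at hj
    have hB := hP B List.mem_cons_self
    by_cases h0 : kap D B = 1 ∧ j = 0
    · exact ⟨[], B, P, rfl, by simp [K, h0.2], h0.1⟩
    · have hj' : j - kap D B < K D P := by omega
      obtain ⟨P₁, A, P₂, h1, h2, h3⟩ := ih (fun A hA => hP A (List.mem_cons_of_mem _ hA)) hj'
      refine ⟨B :: P₁, A, P₂, by rw [h1]; rfl, ?_, h3⟩
      have hK' : K D (B :: P₁) = kap D B + K D P₁ := by simp [K]
      rw [hK', h2]
      omega

/-- P8. An arc with a crossing is crossed by an arc of an edge. -/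
theorem exists_cross (D : Drawing N L) {A : Arc L} (h : kap D A = 1) :
    ∃ f, ∃ B ∈ D.path f, X A B = 1 := by
  have hne : ∑ j, crL [A] (D.path j) ≠ 0 := by
    have : kap D A = ∑ j, crL [A] (D.path j) := rfl
    omega
  obtain ⟨f, -, hf⟩ := Finset.exists_ne_zero_of_sum_ne_zero hne
  obtain ⟨A', hA', B, hB, hX⟩ := Nrm.exists_of_crL_ne hf
  obtain rfl : A' = A := by simpa using hA'
  have := Nrm.X_le_one A' B
  exact ⟨f, B, hB, by omega⟩

/-- P12. `dv` and the degree. -/
theorem dv_le_of [DecidableEq V] (D : Drawing N L) {δ : ℕ} (hδ : ∀ v, dgN N v ≤ δ) (z : L) :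
    dv D z ≤ δ := by
  classical
  by_cases hz : ∃ v, z = D.pos v
  · obtain ⟨v, rfl⟩ := hz
    refine le_trans ?_ (hδ v)
    unfold dv dgN
    refine Finset.card_le_card ?_
    intro j hj
    simp only [Finset.mem_filter, Finset.mem_univ, true_and] at hj ⊢
    rcases hj with hj | hj
    · exact Or.inl (D.pos_inj hj)
    · exact Or.inr (D.pos_inj hj)
  · have : dv D z = 0 := by
      unfold dv
      rw [Finset.card_eq_zero, Finset.filter_eq_empty_iff]
      intro j _ hj
      rcases hj with hj | hj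
      · exact hz ⟨_, hj.symm⟩
      · exact hz ⟨_, hj.symm⟩
    omega

end

/-! ### row P5 -/

section

variable {V ι L : Type} [LinearOrder L] {N : Net V ι} [Fintype ι]

theorem P5_nodup {α : Type} {X₁ X₂ R R' : List α} {C : α} (h : X₁ ++ C :: R = X₂ ++ C :: R')
    (hnd : (X₁ ++ C :: R).Nodup) : X₁ = X₂ := by
  induction X₁ generalizing X₂ with
  | nil =>
    cases X₂ with
    | nil => rfl
    | cons y X₂ =>
      simp only [List.nil_append, List.cons_append, List.cons.injEq] at h
      obtain ⟨rfl, h⟩ := h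
      simp only [List.nil_append, List.nodup_cons] at hnd
      exact absurd (by rw [h]; simp) hnd.1
  | cons x X₁ ih =>
    cases X₂ with
    | nil =>
      simp only [List.nil_append, List.cons_append, List.cons.injEq] at h
      obtain ⟨rfl, h⟩ := h
      simp only [List.cons_append, List.nodup_cons] at hnd
      exact absurd (by simp) hnd.1
    | cons y X₂ =>
      simp only [List.cons_append, List.cons.injEq] at h
      obtain ⟨rfl, h⟩ := h
      rw [ih h (by simpa using (List.nodup_cons.1 hnd).2)]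

/-- the case where `B'` comes after `B` -/
theorem P5_aux (D : Drawing N L) {δ : ℕ} (hδ : ∀ z, dv D z ≤ δ)
    {e e' f : ι} {b b' : Bool} {P₁ P₂ P₁' P₂' Q M₁ R : List (Arc L)} {A A' B B' : Arc L}
    (h : dpath D e b = P₁ ++ A :: P₂) (h' : dpath D e' b' = P₁' ++ A' :: P₂')
    (hX : X A B = 1) (hX' : X A' B' = 1) (hf : D.path f = Q ++ B :: (M₁ ++ B' :: R)) :
    Near D (D.pos (sv N e b)) (D.pos (sv N e' b'))
      (K D P₁ + K D P₁' + K D M₁ + 4 + 10 * δ) := by
  have hB : B ∈ D.path f := by rw [hf]; simp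
  have hB' : B' ∈ D.path f := by rw [hf]; simp
  have n1 := half D hδ h hB hX (z := B.q) (Or.inr rfl)
  have n2 := half D hδ h' hB' hX' (z := B'.p) (Or.inl rfl)
  have hc := ch_dpath D f true
  have hd : dpath D f true = D.path f := rfl
  rw [hd, hf] at hc
  have hs : Q ++ B :: (M₁ ++ B' :: R) = (Q ++ [B]) ++ M₁ ++ (B' :: R) := by simp
  rw [hs, List.append_assoc, Ch_append] at hc
  obtain ⟨w, hw1, hw2⟩ := hc
  rw [Ch_append] at hw1
  obtain ⟨w', -, hw1⟩ := hw1
  simp only [Ch] at hw1
  obtain ⟨-, rfl⟩ := hw1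
  rw [Ch_append] at hw2
  obtain ⟨w'', hw3, hw4⟩ := hw2
  obtain ⟨rfl, -⟩ := hw4
  have n3 := seg D hδ (e := f) (b := true) (P₁ := Q ++ [B]) (P := M₁) (P₂ := B' :: R)
    (by rw [hd, hf, hs]) hw3
  exact ((n1.trans n3).trans n2.symm).mono (by omega)

theorem join (hN : ∀ i, N.src i ≠ N.tgt i) (D : Drawing N L) {δ : ℕ} (hδ : ∀ z, dv D z ≤ δ)
    {e e' f : ι} {b b' : Bool} {P₁ P₂ P₁' P₂' Q M R Q' M' R' : List (Arc L)} {A A' B B' C : Arc L}
    (h : dpath D e b = P₁ ++ A :: P₂) (h' : dpath D e' b' = P₁' ++ A' :: P₂')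
    (hX : X A B = 1) (hX' : X A' B' = 1) (hf : D.path f = Q ++ B :: (M ++ C :: R))
    (hf' : D.path f = Q' ++ B' :: (M' ++ C :: R')) :
    Near D (D.pos (sv N e b)) (D.pos (sv N e' b'))
      (K D P₁ + K D P₁' + (K D M + K D M') + 4 + 10 * δ) := by
  have hnd := path_nodup hN D f
  have e1 : D.path f = (Q ++ B :: M) ++ C :: R := by rw [hf]; simp
  have e2 : D.path f = (Q' ++ B' :: M') ++ C :: R' := by rw [hf']; simp
  have e3 : Q ++ B :: M = Q' ++ B' :: M' := P5_nodup (e1.symm.trans e2) (by rw [← e1]; exact hnd)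
  rcases List.append_eq_append_iff.1 e3 with ⟨Y, hY1, hY2⟩ | ⟨Y, hY1, hY2⟩
  · -- Q' = Q ++ Y, B :: M = Y ++ B' :: M'
    cases Y with
    | nil =>
      simp only [List.nil_append, List.cons.injEq] at hY2
      obtain ⟨rfl, rfl⟩ := hY2
      have hB : B ∈ D.path f := by rw [hf]; simp
      have n1 := half D hδ h hB hX (z := B.q) (Or.inr rfl)
      have n2 := half D hδ h' hB hX' (z := B.q) (Or.inr rfl)
      exact (n1.trans n2.symm).mono (by omega)
    | cons y Y =>
      simp only [List.cons_append, List.cons.injEq] at hY2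
      obtain ⟨rfl, rfl⟩ := hY2
      refine (P5_aux D hδ (f := f) h h' hX hX' (Q := Q) (M₁ := Y) (R := M' ++ C :: R) ?_).mono ?_
      · rw [hf]; simp
      · rw [K_append]; omega
  · cases Y with
    | nil =>
      simp only [List.nil_append, List.cons.injEq] at hY2
      obtain ⟨rfl, rfl⟩ := hY2
      have hB : B' ∈ D.path f := by rw [hf']; simp
      have n1 := half D hδ h hB hX (z := B'.q) (Or.inr rfl)
      have n2 := half D hδ h' hB hX' (z := B'.q) (Or.inr rfl)
      exact (n1.trans n2.symm).mono (by omega)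
    | cons y Y =>
      simp only [List.cons_append, List.cons.injEq] at hY2
      obtain ⟨rfl, rfl⟩ := hY2
      refine ((P5_aux D hδ (f := f) h' h hX' hX (Q := Q') (M₁ := Y) (R := M ++ C :: R') ?_).symm).mono ?_
      · rw [hf']; simp
      · rw [K_append]; omega

end

/-! ### row P7 -/

section

variable {V ι L : Type} [LinearOrder L] {N : Net V ι}

variable [Fintype ι]

omit [Fintype ι] in
private theorem P7_cross {D : Drawing N L} {e f : ι} {b : Bool} {A B : Arc L}
    (hA : A ∈ dpath D e b) (hB : B ∈ D.path f) (hX : X A B = 1) :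
    crL (D.path e) (D.path f) ≠ 0 := by
  have h := (mem_dpath D e b A).1 hA
  have h1 := Nrm.X_le_crL h hB
  cases b with
  | true =>
    simp only [if_true] at h1
    omega
  | false =>
    simp only [Bool.false_eq_true, if_false] at h1
    rw [Contr.X_sw] at h1
    omega

/-- P9. If no other vertex is near the beginning of `e`, then all pairs `(j, l)` occur. -/
theorem exists_rel [DecidableEq ι] (hN : ∀ i, N.src i ≠ N.tgt i) {D : Drawing N L} (hD : Nice D)
    {δ : ℕ} (hδ : ∀ z, dv D z ≤ δ) {e : ι} {b : Bool} {s : ℕ}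
    (hfar : ∀ v, v ≠ sv N e b → ¬ Near D (D.pos (sv N e b)) (D.pos v) (2 * s + 2 + 6 * δ))
    {j l : ℕ} (hj : j < s) (hl : l < s) : ∃ f g, Rel D e b j l f g := by
  have c1 : s < K D (dpath D e b) := by
    by_contra hc
    push Not at hc
    have hne : sv N e (!b) ≠ sv N e b := by
      cases b with
      | true => exact (hN e).symm
      | false => exact hN e
    exact hfar _ hne ((to_end D hδ e b).mono (by omega))
  obtain ⟨P₁, A, P₂, hP, hP1, hA1⟩ :=
    split_K D (fun A hA => kap_dpath_le hD.ref hA) (lt_trans hj c1)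
  have hA : A ∈ dpath D e b := by
    rw [hP]
    simp
  obtain ⟨f, B, hB, hX⟩ := exists_cross D hA1
  obtain ⟨Q, Q₂, hf⟩ := List.append_of_mem hB
  have hcr := P7_cross hA hB hX
  have hef : e ≠ f := by
    rintro rfl
    exact hcr (hD.tidy.self e)
  have c2 : s < K D Q₂ := by
    by_contra hc
    push Not at hc
    have hne : N.tgt f ≠ sv N e b := by
      intro h
      refine hcr (hD.adj e f hef ⟨N.tgt f, ?_, Or.inr rfl⟩)
      rw [h]
      cases b with
      | true => exact Or.inl rfl
      | false => exact Or.inr rfl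
    exact hfar _ hne ((to_tgt D hδ hP hf hX).mono (by omega))
  obtain ⟨M, C, R, hM, hM1, hC1⟩ := split_K D
    (P := Q₂) (fun C hC => hD.ref f C (by rw [hf]; simp [hC])) (lt_trans hl c2)
  obtain ⟨g, C', hC', hXC⟩ := exists_cross D hC1
  exact ⟨f, g, P₁, A, P₂, Q, B, M, C, R, C', hP, hP1, hX, by rw [hf, hM], hM1, hC', hXC⟩

end

/-! ### row P8 -/

theorem P8_split {α : Type} (f : α → ℕ) {P₁ P₂ P₁' P₂' : List α} {A A' : α}
    (h : P₁ ++ A :: P₂ = P₁' ++ A' :: P₂') (hA : 1 ≤ f A) (hA' : 1 ≤ f A')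
    (hs : ((P₁ ++ A :: P₂).map f).sum ≤ 1) : P₁ = P₁' ∧ A = A' ∧ P₂ = P₂' := by
  induction P₁ generalizing P₁' with
  | nil =>
    cases P₁' with
    | nil =>
      simp only [List.nil_append, List.cons.injEq] at h
      exact ⟨rfl, h.1, h.2⟩
    | cons x t =>
      exfalso
      simp only [List.nil_append, List.cons_append, List.cons.injEq] at h
      rw [h.2] at hs
      simp only [List.nil_append, List.map_cons, List.sum_cons, List.map_append,
        List.sum_append] at hs
      omega
  | cons y T ih =>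
    cases P₁' with
    | nil =>
      exfalso
      simp only [List.nil_append, List.cons_append, List.cons.injEq] at h
      simp only [List.cons_append, List.map_cons, List.sum_cons, List.map_append,
        List.sum_append] at hs
      rw [h.1] at hs
      omega
    | cons x t =>
      simp only [List.cons_append, List.cons.injEq] at h
      simp only [List.cons_append, List.map_cons, List.sum_cons] at hs
      obtain ⟨h1, h2, h3⟩ := ih h.2 (by omega)
      exact ⟨by rw [h.1, h1], h2, h3⟩

section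

variable {V ι L : Type} [LinearOrder L] {N : Net V ι}

theorem P8_X_sw (A B : Arc L) : X (sw A) B = X A B := Nrm.X_swap A B

/-- the sum over the directed path -/
theorem P8_sum (D : Drawing N L) (e f : ι) (b : Bool) :
    ((dpath D e b).map fun A => ((D.path f).map fun B => X A B).sum).sum =
      crL (D.path e) (D.path f) := by
  cases b with
  | true => rfl
  | false =>
    simp only [dpath, Bool.false_eq_true, if_false, List.map_reverse, List.sum_reverse,
      List.map_map, crL]
    congr 1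
    refine List.map_congr_left fun A _ => ?_
    simp only [Function.comp_apply]
    congr 1
    exact List.map_congr_left fun B _ => P8_X_sw A B

/-- if `A` (on `e`) crosses `B` (on `f`) then `e ≠ f` -/
theorem P8_ne {D : Drawing N L} (hD : Tidy D) {e f : ι} {A B : Arc L} (hA : A ∈ D.path e)
    (hB : B ∈ D.path f) (hX : X A B = 1) : e ≠ f := by
  rintro rfl
  have h1 := Nrm.X_le_crL hA hB
  rw [hD.self e, hX] at h1
  omega

theorem P8_one (Q : List (Arc L)) {A B : Arc L} (hB : B ∈ Q) (hX : X A B = 1) :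
    1 ≤ (Q.map fun B => X A B).sum := by
  rw [← hX]
  exact List.single_le_sum (by simp) _ (List.mem_map_of_mem hB)

theorem rel_unique [Fintype ι] [DecidableEq ι] (hN : ∀ i, N.src i ≠ N.tgt i)
    {D : Drawing N L} (hD : Nice D)
    {e : ι} {b : Bool} {j l j' l' : ℕ} {f g : ι} (h : Rel D e b j l f g)
    (h' : Rel D e b j' l' f g) : j = j' ∧ l = l' := by
  obtain ⟨P₁, A, P₂, Q, B, M, C, R, C', h1, h2, h3, h4, h5, h6, h7⟩ := h
  obtain ⟨P₁', A', P₂', Q', B', M', C₁, R', C₁', h1', h2', h3', h4', h5', h6', h7'⟩ := h'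
  have hBf : B ∈ D.path f := by rw [h4]; simp
  have hBf' : B' ∈ D.path f := by rw [h4']; simp
  have hCf : C ∈ D.path f := by rw [h4]; simp
  have hCf' : C₁ ∈ D.path f := by rw [h4']; simp
  have hAe : (if b then A else sw A) ∈ D.path e := (mem_dpath D e b A).1 (by rw [h1]; simp)
  have hX : X (if b then A else sw A) B = 1 := by
    cases b
    · simpa [P8_X_sw] using h3
    · simpa using h3
  have hef : e ≠ f := P8_ne hD.tidy hAe hBf hX
  have hfg : f ≠ g := P8_ne hD.tidy hCf h6 h7
  have c1 : ((dpath D e b).map fun A => ((D.path f).map fun B => X A B).sum).sum ≤ 1 := by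
    rw [P8_sum]
    exact hD.one e f hef
  obtain ⟨e1, e2, -⟩ := P8_split (fun A => ((D.path f).map fun B => X A B).sum)
    (h1.symm.trans h1') (P8_one _ hBf h3) (P8_one _ hBf' h3') (by rw [← h1]; exact c1)
  subst e1 e2
  have c2 : ((D.path f).map fun B => X A B).sum ≤ 1 := by
    refine le_trans ?_ c1
    rw [h1, List.map_append, List.sum_append, List.map_cons, List.sum_cons]
    omega
  obtain ⟨e3, e4, e5⟩ := P8_split (fun B => X A B) (h4.symm.trans h4') h3.ge h3'.ge
    (by rw [← h4]; exact c2)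
  have c3 : ((M ++ C :: R).map fun A => ((D.path g).map fun B => X A B).sum).sum ≤ 1 := by
    have c4 : crL (D.path f) (D.path g) ≤ 1 := hD.one f g hfg
    refine le_trans ?_ c4
    rw [crL, h4]
    simp only [List.map_append, List.sum_append, List.map_cons, List.sum_cons]
    omega
  obtain ⟨e6, e7, -⟩ := P8_split (fun A => ((D.path g).map fun B => X A B).sum) e5
    (P8_one _ h6 h7) (P8_one _ h6' h7') c3
  rw [← h2, ← h2', ← h5, ← h5', e6]
  exact ⟨rfl, rfl⟩

end

/-! ### row P9 -/

section

variable {V ι L : Type} [LinearOrder L] {N : Net V ι}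

theorem P9_two {P Q : List (Arc L)} {A A₂ B B₂ : Arc L} (hA : A ∈ P) (hA₂ : A₂ ∈ P) (hB : B ∈ Q)
    (hB₂ : B₂ ∈ Q) (hne : A ≠ A₂) (h : X A B = 1) (h₂ : X A₂ B₂ = 1) : 2 ≤ crL P Q := by
  obtain ⟨P1, P2, rfl⟩ := List.append_of_mem hA
  have e : crL (P1 ++ A :: P2) Q = crL P1 Q + (crL [A] Q + crL P2 Q) := by
    rw [Nrm.crL_append_left, ← List.singleton_append, Nrm.crL_append_left]
  have h1 : 1 ≤ crL [A] Q := by
    rw [← h]
    exact Nrm.X_le_crL (List.mem_singleton.2 rfl) hB
  rw [e]
  rw [List.mem_append, List.mem_cons] at hA₂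
  rcases hA₂ with h3 | h3 | h3
  · have h4 : 1 ≤ crL P1 Q := by
      rw [← h₂]
      exact Nrm.X_le_crL h3 hB₂
    omega
  · exact absurd h3.symm hne
  · have h4 : 1 ≤ crL P2 Q := by
      rw [← h₂]
      exact Nrm.X_le_crL h3 hB₂
    omega

variable [Fintype ι]

/-- P11. Two vertices with the same pair `(f, g)` are near. -/
theorem rel_near [DecidableEq ι] (hN : ∀ i, N.src i ≠ N.tgt i) {D : Drawing N L} (hD : Nice D)
    {δ : ℕ} (hδ : ∀ z, dv D z ≤ δ) {e e' : ι} {b b' : Bool} {s j l j' l' : ℕ} (hj : j < s)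
    (hl : l < s) (hj' : j' < s) (hl' : l' < s) {f g : ι} (h : Rel D e b j l f g)
    (h' : Rel D e' b' j' l' f g) :
    Near D (D.pos (sv N e b)) (D.pos (sv N e' b')) (4 * s + 4 + 14 * δ) := by
  obtain ⟨P₁, A, P₂, Q, B, M, C, R, C', h1, h2, h3, h4, h5, h6, h7⟩ := h
  obtain ⟨P₁', A', P₂', Q', B', M', C₂, R', C₂', h1', h2', h3', h4', h5', h6', h7'⟩ := h'
  have hC : C ∈ D.path f := by rw [h4]; simp
  have hC₂ : C₂ ∈ D.path f := by rw [h4']; simp
  have hfg : f ≠ g := by
    rintro rfl
    have h8 := hD.tidy.self f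
    have h9 := Nrm.X_le_crL hC h6
    omega
  have hCC : C = C₂ := by
    by_contra hne
    have h8 := P9_two hC hC₂ h6 h6' hne h7 h7'
    have h9 := hD.one f g hfg
    omega
  subst hCC
  refine (join hN D hδ h1 h1' h3 h3' h4 h4').mono ?_
  omega

end

/-! ### row P10 -/

section

variable {V ι L : Type} [LinearOrder L] {N : Net V ι}

variable [Fintype ι]

open Classical in
/-- P13. Packing. -/
theorem packing [Fintype V] [DecidableEq V] [DecidableEq ι]
    (hN : ∀ i, N.src i ≠ N.tgt i) {D : Drawing N L} (hD : Nice D) (S : Finset V) (δ s : ℕ)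
    (hδ : ∀ v, dgN N v ≤ δ) (hdeg : ∀ a ∈ S, ∃ e, N.Inc e a) (hs : 0 < s)
    (hcount : Fintype.card ι ^ 2 + Sᶜ.card * s ^ 2 < S.card * s ^ 2) :
    ∃ a ∈ S, ∃ b ∈ S, a ≠ b ∧ Near D (D.pos a) (D.pos b) (4 * s + 4 + 14 * δ) := by
  by_contra hcon
  push Not at hcon
  have hdv : ∀ z, dv D z ≤ δ := dv_le_of D hδ
  have hSne : S.Nonempty := by
    rw [Finset.nonempty_iff_ne_empty]
    rintro rfl
    simp at hcount
  have hne : Nonempty ι := by
    obtain ⟨a, ha⟩ := hSne
    obtain ⟨e, -⟩ := hdeg a ha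
    exact ⟨e⟩
  have hsv : ∀ a, a ∈ S → ∃ (e : ι) (b : Bool), sv N e b = a := by
    intro a ha
    obtain ⟨e, he⟩ := hdeg a ha
    rcases he with he | he
    · exact ⟨e, true, by simpa [sv] using he⟩
    · exact ⟨e, false, by simpa [sv] using he⟩
  choose! E B hE using hsv
  set T : Finset V := S.filter fun a =>
    ∃ v, v ≠ a ∧ Near D (D.pos a) (D.pos v) (2 * s + 2 + 6 * δ) with hTdef
  have hTS : T ⊆ S := Finset.filter_subset _ _
  have hTv : ∀ a, a ∈ T → ∃ v, v ≠ a ∧ Near D (D.pos a) (D.pos v) (2 * s + 2 + 6 * δ) := by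
    intro a ha
    exact (Finset.mem_filter.1 ha).2
  have hVne : Nonempty V := ⟨hSne.choose⟩
  choose! w hw using hTv
  have hT : T.card ≤ Sᶜ.card := by
    refine Finset.card_le_card_of_injOn w ?_ ?_
    · intro a ha
      have ha' : a ∈ T := ha
      have hmem : w a ∉ S := by
        intro hwS
        exact hcon a (hTS ha') (w a) hwS (hw a ha').1.symm ((hw a ha').2.mono (by omega))
      simpa using hmem
    · intro a ha a' ha' heq
      by_contra hne'
      have ha1 : a ∈ T := ha
      have ha2 : a' ∈ T := ha'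
      have h1 := (hw a ha1).2
      have h2 := (hw a' ha2).2
      rw [← heq] at h2
      exact hcon a (hTS ha1) a' (hTS ha2) hne' ((h1.trans h2.symm).mono (by omega))
  have hrel : ∀ x : V × ℕ × ℕ, x ∈ (S \ T) ×ˢ (Finset.range s ×ˢ Finset.range s) →
      ∃ y : ι × ι, Rel D (E x.1) (B x.1) x.2.1 x.2.2 y.1 y.2 := by
    rintro ⟨a, j, l⟩ hx
    simp only [Finset.mem_product, Finset.mem_sdiff, Finset.mem_range] at hx
    obtain ⟨⟨haS, haT⟩, hj, hl⟩ := hx
    have hfar : ∀ v, v ≠ sv N (E a) (B a) →
        ¬ Near D (D.pos (sv N (E a) (B a))) (D.pos v) (2 * s + 2 + 6 * δ) := by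
      rw [hE a haS]
      intro v hv hnear
      exact haT (Finset.mem_filter.2 ⟨haS, v, hv, hnear⟩)
    obtain ⟨f, g, hfg⟩ := exists_rel hN hD hdv hfar hj hl
    exact ⟨(f, g), hfg⟩
  choose! F hF using hrel
  have hU : (S \ T).card * s ^ 2 ≤ Fintype.card ι ^ 2 := by
    have h1 : ((S \ T) ×ˢ (Finset.range s ×ˢ Finset.range s)).card ≤
        (Finset.univ : Finset (ι × ι)).card := by
      refine Finset.card_le_card_of_injOn F (fun _ _ => Finset.mem_coe.2 (Finset.mem_univ _)) ?_
      rintro ⟨a, j, l⟩ hx ⟨a', j', l'⟩ hx' heq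
      have hx1 := hF _ (Finset.mem_coe.1 hx)
      have hx2 := hF _ (Finset.mem_coe.1 hx')
      rw [← heq] at hx2
      have hm := Finset.mem_coe.1 hx
      have hm' := Finset.mem_coe.1 hx'
      simp only [Finset.mem_product, Finset.mem_sdiff, Finset.mem_range] at hm hm'
      obtain ⟨⟨haS, haT⟩, hj, hl⟩ := hm
      obtain ⟨⟨haS', haT'⟩, hj', hl'⟩ := hm'
      have haa : a = a' := by
        by_contra hne'
        have h3 := rel_near hN hD hdv hj hl hj' hl' hx1 hx2
        simp only [hE a haS, hE a' haS'] at h3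
        exact hcon a haS a' haS' hne' h3
      subst haa
      obtain ⟨h4, h5⟩ := rel_unique hN hD hx1 hx2
      simp only at h4 h5
      rw [h4, h5]
    rw [Finset.card_product, Finset.card_product, Finset.card_range, Finset.card_univ,
      Fintype.card_prod] at h1
    rw [pow_two, pow_two]
    exact h1
  have hcard : T.card + (S \ T).card = S.card := by
    rw [add_comm]
    exact Finset.card_sdiff_add_card_eq_card hTS
  have h6 : S.card * s ^ 2 ≤ Sᶜ.card * s ^ 2 + Fintype.card ι ^ 2 := by
    rw [← hcard, add_mul]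
    exact Nat.add_le_add (Nat.mul_le_mul_right _ hT) hU
  omega

end

end TA
end MP881e12
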