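import Pool.Agent.Lib.MP_881e12_lc.TA.I1a
import Pool.Agent.Lib.MP_881e12_lc.TA.P
import Pool.Agent.Lib.MP_881e12_lc.TA.M1

namespace MP881e12
namespace TA

open MP60f107 Finset
open MP60f107.Contr (sw pr ht mk)

theorem i1b_small {Q : Type} [Fintype Q] [DecidableEq Q] (w : Q → ℕ) (n m : ℕ) (hm : 0 < m)
    (hw : ∑ q, w q = n) : 4 * ((univ.filter fun q => w q * m ≤ 4 * n)ᶜ).card < m := by
  set T := (univ.filter fun q => w q * m ≤ 4 * n)ᶜ with hT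
  have h1 : T.card * (4 * n + 1) ≤ ∑ q ∈ T, w q * m := by
    rw [← smul_eq_mul]
    apply Finset.card_nsmul_le_sum
    intro q hq
    rw [hT, Finset.mem_compl, Finset.mem_filter] at hq
    have h2 : ¬ w q * m ≤ 4 * n := fun h => hq ⟨Finset.mem_univ q, h⟩
    omega
  have h2 : ∑ q ∈ T, w q * m ≤ n * m := by
    rw [← Finset.sum_mul]
    apply Nat.mul_le_mul_right
    rw [← hw]
    exact Finset.sum_le_sum_of_subset (Finset.subset_univ _)
  have h3 := h1.trans h2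
  by_contra h4
  push Not at h4
  have h5 : m * (4 * n + 1) ≤ 4 * T.card * (4 * n + 1) := Nat.mul_le_mul_right _ h4
  nlinarith

theorem i1b_count (x S s m k n : ℕ) (hs : 0 < s) (hx : 4 * x < m) (hS : S + x = m)
    (hk : 2 * k ≤ n ^ 2) (hn : n ^ 4 ≤ s ^ 2 * m) : k ^ 2 + x * s ^ 2 < S * s ^ 2 := by
  have h1 : 4 * k ^ 2 ≤ n ^ 4 := by
    calc 4 * k ^ 2 = (2 * k) ^ 2 := by ring
      _ ≤ (n ^ 2) ^ 2 := Nat.pow_le_pow_left hk 2
      _ = n ^ 4 := by ring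
  have h2 : 4 * k ^ 2 ≤ s ^ 2 * m := h1.trans hn
  have h3 : 0 < s ^ 2 := by positivity
  have h4 : s ^ 2 * (m + 4 * x) < s ^ 2 * (4 * S) := by
    apply Nat.mul_lt_mul_of_pos_left _ h3
    omega
  have h5 : 4 * (k ^ 2 + x * s ^ 2) < 4 * (S * s ^ 2) := by
    calc 4 * (k ^ 2 + x * s ^ 2) = 4 * k ^ 2 + s ^ 2 * (4 * x) := by ring
      _ ≤ s ^ 2 * m + s ^ 2 * (4 * x) := Nat.add_le_add_right h2 _
      _ = s ^ 2 * (m + 4 * x) := by ring
      _ < s ^ 2 * (4 * S) := h4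
      _ = 4 * (S * s ^ 2) := by ring
  omega

theorem i1b_incr (n m r d t : ℝ) (_hn : 0 ≤ n) (hr : 1 ≤ r) (hm : m = r * r) (hd0 : 0 ≤ d)
    (ht0 : 0 ≤ t) (hd : d ≤ 4 * n ^ 2 / m) (ht : t ≤ 124 * n ^ 2 / r) :
    2 * d * t + 4 * d ^ 2 ≤ 2000 * n ^ 4 / (m * r) := by
  have hr0 : 0 < r := by linarith
  have hm0 : 0 < m := by rw [hm]; positivity
  have h1 : 2 * d * t ≤ 2 * (4 * n ^ 2 / m) * (124 * n ^ 2 / r) := by
    have h2 : 2 * d ≤ 2 * (4 * n ^ 2 / m) := by linarith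
    exact mul_le_mul h2 ht ht0 (by positivity)
  have h2 : 4 * d ^ 2 ≤ 4 * (4 * n ^ 2 / m) ^ 2 := by
    have := pow_le_pow_left₀ hd0 hd 2
    linarith
  have h3 : 4 * (4 * n ^ 2 / m) ^ 2 ≤ 64 * n ^ 4 / (m * r) := by
    have h4 : 4 * (4 * n ^ 2 / m) ^ 2 = 64 * n ^ 4 / (m * m) := by
      field_simp
      ring
    rw [h4]
    apply div_le_div_of_nonneg_left (by positivity) (by positivity)
    apply mul_le_mul_of_nonneg_left _ hm0.le
    rw [hm]
    nlinarith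
  have h5 : 2 * (4 * n ^ 2 / m) * (124 * n ^ 2 / r) = 992 * n ^ 4 / (m * r) := by
    field_simp
    ring
  have h6 : 992 * n ^ 4 / (m * r) + 64 * n ^ 4 / (m * r) ≤ 2000 * n ^ 4 / (m * r) := by
    rw [← add_div]
    apply div_le_div_of_nonneg_right _ (by positivity)
    have : 0 ≤ n ^ 4 := by positivity
    linarith
  linarith

/-- ROW TA-I1b (120 lines).  One merge, for an optimal drawing.

All numbers real.  `n = |V₀|`, `m = |Q|`, `2 ≤ m ≤ n`.  Let `S = {q | fib c q * m ≤ 4 n}`.  If `q ∉ S` then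
`fib c q > 4 n / m`, and `∑ fib = n` (`sum_fib`), so `|Sᶜ| * 4 n / m < n` or `Sᶜ` is empty: `4 |Sᶜ| < m`
(`n > 0`, `m > 0`), hence `|S| ≥ 2` if `m ≥ 2` (`|S| = m - |Sᶜ| > 3 m / 4 ≥ 3 / 2`) and
`|S| - |Sᶜ| > m / 2`.
Case A: some `a ∈ S` has no incident edge in `quo N₀ c`.  Then `dgN (quo N₀ c) a = 0`.  Take `b ∈ S`,
`b ≠ a`, `chain_nil` for `(b, a)` and `merge_step`: `D'.dcr ≤ D.dcr + 0`.
Case B: every `a ∈ S` has an incident edge.  `packing` with `δ = 8 * n ^ 2 / m` (natural division; by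
`dgN_quo` and `hf` every degree is `≤ fib * n ≤ 8 n² / m`, an integer, so `≤ δ`: `Nat.le_div_iff_mul_le`) and
`s = ⌈n² / √m⌉₊ > 0`: hypothesis `hcount`: `|ι|² ≤ (n² / 2)² = n⁴ / 4 < (m / 2) s² ≤ (|S| - |Sᶜ|) s²` since
`s² ≥ n⁴ / m` (`|ι| = |QE N₀ c| ≤ |ι₀| ≤ n² / 2`: `Fintype.card_subtype_le`, `hE`).  It gives `a ≠ b` in `S` with
`Near D (D.pos a) (D.pos b) t`, `t = 4 s + 4 + 14 δ`.  Since `1 ≤ n² / m` and `1 ≤ n² / √m`,
`n² / m ≤ n² / √m`: `t ≤ 4 (n²/√m + 1) + 4 + 112 n²/m ≤ 124 n² / √m`.  `near_chain` for `(b, a)`: first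
reverse the walk?  No: exchange the names of `a` and `b`; `near_chain` (with `hD.tidy`, `hD.ref`) gives a
chain from `a` to `b`; `merge_step` merges the last point into the first: so merge `b` into `a`
(use `(a, b) := (b, a)`).  The increment is `2 d t + 4 d²` with `d = dgN ≤ fib * n ≤ 4 n² / m`:
`2 * (4 n²/m) * 124 n²/√m + 64 n⁴/m² ≤ 1056 n⁴ / (m √m)` (`1 / m² ≤ 1 / (m √m)`). -/
theorem merge_nice {V₀ ι₀ Q : Type} (N₀ : Net V₀ ι₀) (c : V₀ → Q)
    [Fintype V₀] [Fintype ι₀] [DecidableEq ι₀] [Fintype Q] [DecidableEq Q]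
    (hE : 2 * Fintype.card ι₀ ≤ Fintype.card V₀ ^ 2)
    (hdg : ∀ v, dgN N₀ v ≤ Fintype.card V₀) (h2 : 2 ≤ Fintype.card Q)
    (hm : Fintype.card Q ≤ Fintype.card V₀)
    (hf : ∀ q, fib c q * Fintype.card Q ≤ 8 * Fintype.card V₀)
    {L : Type} [LinearOrder L] (D : Drawing (quo N₀ c) L) (hD : Nice D) :
    ∃ a b : Q, ∃ hab : a ≠ b, fib c a * Fintype.card Q ≤ 4 * Fintype.card V₀ ∧
      fib c b * Fintype.card Q ≤ 4 * Fintype.card V₀ ∧
      ∃ (L' : Type) (_ : LinearOrder L') (D' : Drawing (quo N₀ (mrg c a b hab)) L'),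
        (D'.dcr : ℝ) ≤ D.dcr + 2000 * (Fintype.card V₀ : ℝ) ^ 4 /
          (Fintype.card Q * Real.sqrt (Fintype.card Q)) := by
  set n := Fintype.card V₀ with hn
  set m := Fintype.card Q with hmdef
  have hm0 : 0 < m := by omega
  have hn0 : 0 < n := by omega
  set S : Finset Q := univ.filter fun q => fib c q * m ≤ 4 * n with hS
  have hx : 4 * Sᶜ.card < m := i1b_small (fib c) n m hm0 (sum_fib c)
  have hSx : S.card + Sᶜ.card = m := Finset.card_add_card_compl S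
  have hS2 : 1 < S.card := by omega
  have hmem : ∀ q ∈ S, fib c q * m ≤ 4 * n := fun q hq => (Finset.mem_filter.1 hq).2
  have hN : ∀ i, (quo N₀ c).src i ≠ (quo N₀ c).tgt i := fun i => i.2
  -- the real numbers
  set r : ℝ := Real.sqrt (m : ℝ) with hr
  have hmR : (1 : ℝ) ≤ m := by exact_mod_cast hm0
  have hr1 : 1 ≤ r := by
    rw [hr]
    exact Real.one_le_sqrt.2 hmR
  have hr0 : 0 < r := by linarith
  have hrr : (m : ℝ) = r * r := (Real.mul_self_sqrt (by positivity)).symm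
  have hnR : (1 : ℝ) ≤ n := by exact_mod_cast hn0
  have hmnR : (m : ℝ) ≤ n := by exact_mod_cast hm
  have hrn : r ≤ (n : ℝ) ^ 2 := by
    have h1 : r ≤ m := by
      rw [hrr]
      nlinarith
    have h3 : (n : ℝ) ≤ (n : ℝ) ^ 2 := by nlinarith
    linarith
  have hX : (1 : ℝ) ≤ (n : ℝ) ^ 2 / r := by
    rw [le_div_iff₀ hr0]
    linarith
  by_cases hA : ∃ a ∈ S, ∀ e, ¬ (quo N₀ c).Inc e a
  · obtain ⟨a, ha, hea⟩ := hA
    obtain ⟨b, hb, hba⟩ := Finset.exists_mem_ne hS2 a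
    obtain ⟨t, ht⟩ := chain_nil D hba
    obtain ⟨L', hL', D', hD'⟩ := merge_step N₀ c a b hba.symm D ht
    have hd : dgN (quo N₀ c) a = 0 := by
      unfold dgN
      rw [Finset.card_eq_zero]
      ext e
      simp [hea e]
    rw [hd] at hD'
    refine ⟨a, b, hba.symm, hmem a ha, hmem b hb, L', hL', D', ?_⟩
    have h1 : (D'.dcr : ℝ) ≤ D.dcr := by
      have h2 : D'.dcr ≤ D.dcr := by simpa using hD'
      exact_mod_cast h2
    have h2 : 0 ≤ 2000 * (n : ℝ) ^ 4 / (m * r) := by positivity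
    linarith
  · push Not at hA
    set δ : ℕ := 8 * n ^ 2 / m with hδ
    set s : ℕ := ⌈(n : ℝ) ^ 2 / r⌉₊ with hs
    have hs0 : 0 < s := Nat.ceil_pos.2 (by linarith)
    have hdle : ∀ v, dgN (quo N₀ c) v ≤ δ := by
      intro v
      rw [hδ, Nat.le_div_iff_mul_le hm0]
      calc dgN (quo N₀ c) v * m ≤ fib c v * n * m :=
            Nat.mul_le_mul_right _ (dgN_quo N₀ c hdg v)
        _ = (fib c v * m) * n := by ring
        _ ≤ 8 * n * n := Nat.mul_le_mul_right _ (hf v)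
        _ = 8 * n ^ 2 := by ring
    have hsR : (n : ℝ) ^ 2 / r ≤ s := Nat.le_ceil _
    have hs4 : n ^ 4 ≤ s ^ 2 * m := by
      have h1 : (n : ℝ) ^ 2 ≤ s * r := (div_le_iff₀ hr0).1 hsR
      have h2 : ((n : ℝ) ^ 2) ^ 2 ≤ (s * r) ^ 2 := pow_le_pow_left₀ (by positivity) h1 2
      have h3 : (n : ℝ) ^ 4 ≤ (s : ℝ) ^ 2 * m := by
        rw [hrr]
        calc (n : ℝ) ^ 4 = ((n : ℝ) ^ 2) ^ 2 := by ring
          _ ≤ (s * r) ^ 2 := h2
          _ = (s : ℝ) ^ 2 * (r * r) := by ring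
      exact_mod_cast h3
    have hk : 2 * Fintype.card (QE N₀ c) ≤ n ^ 2 := by
      have h1 : Fintype.card (QE N₀ c) ≤ Fintype.card ι₀ := Fintype.card_subtype_le _
      omega
    have hcount : Fintype.card (QE N₀ c) ^ 2 + Sᶜ.card * s ^ 2 < S.card * s ^ 2 :=
      i1b_count _ _ _ _ _ _ hs0 hx hSx hk hs4
    obtain ⟨a, ha, b, hb, hab, hnear⟩ := packing hN hD S δ s hdle hA hs0 hcount
    obtain ⟨γ, s', hγ⟩ := near_chain hN hD.tidy hD.ref hab hnear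
    obtain ⟨L', hL', D', hD'⟩ := merge_step N₀ c b a hab.symm D hγ
    refine ⟨b, a, hab.symm, hmem b hb, hmem a ha, L', hL', D', ?_⟩
    have h1 : (D'.dcr : ℝ) ≤ D.dcr + 2 * (dgN (quo N₀ c) b : ℝ) *
        ((4 * s + 4 + 14 * δ : ℕ) : ℝ) + 4 * (dgN (quo N₀ c) b : ℝ) ^ 2 := by
      exact_mod_cast hD'
    have hd : (dgN (quo N₀ c) b : ℝ) ≤ 4 * (n : ℝ) ^ 2 / m := by
      rw [le_div_iff₀ (by positivity)]
      have h2 : dgN (quo N₀ c) b * m ≤ 4 * n ^ 2 := by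
        calc dgN (quo N₀ c) b * m ≤ fib c b * n * m :=
              Nat.mul_le_mul_right _ (dgN_quo N₀ c hdg b)
          _ = (fib c b * m) * n := by ring
          _ ≤ 4 * n * n := Nat.mul_le_mul_right _ (hmem b hb)
          _ = 4 * n ^ 2 := by ring
      exact_mod_cast h2
    have ht : ((4 * s + 4 + 14 * δ : ℕ) : ℝ) ≤ 124 * (n : ℝ) ^ 2 / r := by
      have h2 : (s : ℝ) ≤ (n : ℝ) ^ 2 / r + 1 := (Nat.ceil_lt_add_one (by positivity)).le
      have h3 : (δ : ℝ) ≤ 8 * ((n : ℝ) ^ 2 / r) := by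
        have h4 : (δ : ℝ) ≤ ((8 * n ^ 2 : ℕ) : ℝ) / m := Nat.cast_div_le
        have h5 : ((8 * n ^ 2 : ℕ) : ℝ) / m ≤ 8 * ((n : ℝ) ^ 2 / r) := by
          push_cast
          rw [mul_div_assoc]
          apply mul_le_mul_of_nonneg_left _ (by norm_num)
          apply div_le_div_of_nonneg_left (by positivity) hr0
          rw [hrr]
          nlinarith
        exact h4.trans h5
      have h6 : 124 * (n : ℝ) ^ 2 / r = 124 * ((n : ℝ) ^ 2 / r) := by ring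
      rw [h6]
      push_cast
      linarith
    have h2 := i1b_incr (n : ℝ) m r (dgN (quo N₀ c) b) ((4 * s + 4 + 14 * δ : ℕ) : ℝ)
      (by positivity) hr1 hrr (by positivity) (by positivity) hd ht
    linarith

end TA
end MP881e12
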