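import Pool.Agent.Lib.MP_881e12_lc.TA.R5
import Pool.Agent.Lib.MP_881e12_lc.Ex6
import Pool.Agent.Lib.MP_60f107_co.CrFinal

/-!
Optimal drawings.
-/

namespace MP881e12
namespace TA

open MP60f107 Finset
open MP60f107.Contr (sw pr ht mk)
open MP60f107.Nrm (exists_orient exists_realize exists_uncross pre upd2 upd2_dcr_lt)

section

variable {V ι L : Type} [LinearOrder L] {N : Net V ι}

/-- There is an optimal drawing. -/
theorem exists_opt [Finite V] [Fintype ι] [DecidableEq ι] (N : Net V ι) :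
    ∃ (L : Type) (_ : LinearOrder L) (D : Drawing N L), D.Opt := by
  have := Fintype.ofFinite V
  let P : ℕ → Prop := fun n => ∃ (L : Type) (_ : LinearOrder L) (D : Drawing N L), D.dcr = n
  have hP : ∃ n, P n := ⟨_, ℕ, inferInstance, trivialDrawing N, rfl⟩
  classical
  obtain ⟨L, inst, D, hD⟩ := Nat.find_spec hP
  refine ⟨L, inst, D, fun L' inst' D' => ?_⟩
  rw [hD]
  exact Nat.find_min' hP ⟨L', inst', D', rfl⟩

/-- In an optimal drawing without self crossings adjacent edges do not cross. -/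
theorem adj_of_opt [Fintype ι] [DecidableEq ι] {D : Drawing N L} (hopt : D.Opt)
    (hself : ∀ i, crL (D.path i) (D.path i) = 0) :
    ∀ i j, i ≠ j → (∃ w, N.Inc i w ∧ N.Inc j w) → crL (D.path i) (D.path j) = 0 := by
  rintro i j hij ⟨w, hi, hj⟩
  by_contra hc
  obtain ⟨T, s, z, hT, hT', hz⟩ := exists_orient D hi
  obtain ⟨T', s', z', hU, hU', hz'⟩ := exists_orient D hj
  have e1 : crL (pre (D.pos w) (T ++ [(s, z)])) (pre (D.pos w) (T' ++ [(s', z')])) =
      crL (D.path i) (D.path j) := by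
    rw [hT, Nrm.crL_comm, hU, Nrm.crL_comm]
  have e2 : crL (pre (D.pos w) (T ++ [(s, z)])) (pre (D.pos w) (T ++ [(s, z)])) = 0 := by
    rw [hT, Nrm.crL_comm, hT, hself i]
  have e3 : crL (pre (D.pos w) (T' ++ [(s', z')])) (pre (D.pos w) (T' ++ [(s', z')])) = 0 := by
    rw [hU, Nrm.crL_comm, hU, hself j]
  obtain ⟨U, U', hp, h1, h2⟩ := exists_uncross (by rwa [e1]) e2 e3
  obtain ⟨r, sr, hr, hr'⟩ := exists_realize D hz U s
  obtain ⟨t, st, ht, ht'⟩ := exists_realize D hz' U' s'
  have hperm : ((r ++ t).map Prod.snd).Perm ((D.inner i ++ D.inner j).map Prod.snd) := by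
    rw [List.map_append, List.map_append]
    refine (hr'.append ht').trans ?_
    rw [← List.map_append]
    refine (hp.map _).trans ?_
    rw [List.map_append]
    exact hT'.append hU'
  have hlt := upd2_dcr_lt D hij r t sr st hperm (fun Q => by
    rw [hr, ht, ← hT, ← hU]; exact h1 Q) (by
    rw [hr, Nrm.crL_comm, ht, Nrm.crL_comm, ← e1]; exact h2)
  exact absurd (hopt L (upd2 D hij r t sr st hperm)) (not_le.2 hlt)

/-- In an optimal drawing without self crossings two edges cross at most once. -/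
theorem one_of_opt [Fintype ι] [DecidableEq ι] (hN : ∀ i, N.src i ≠ N.tgt i) {D : Drawing N L}
    (hopt : D.Opt) (hself : ∀ i, crL (D.path i) (D.path i) = 0) (_href : Refined D) :
    ∀ i j, i ≠ j → crL (D.path i) (D.path j) ≤ 1 := by
  intro i j hij
  by_contra hc
  have hnd : ∀ k, (D.pos (N.src k) :: ((D.inner k).map Prod.snd ++ [D.pos (N.tgt k)])).Nodup := by
    intro k
    rw [List.nodup_cons, List.nodup_append]
    refine ⟨?_, D.nodup k, by simp, ?_⟩
    · rw [List.mem_append, List.mem_map, List.mem_singleton]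
      rintro (⟨x, hx, h⟩ | h)
      · exact D.avoid k x hx _ h
      · exact hN k (D.pos_inj h)
    · intro a ha b hb
      rw [List.mem_map] at ha
      obtain ⟨x, hx, rfl⟩ := ha
      rw [List.mem_singleton] at hb
      rw [hb]
      exact D.avoid k x hx _
  obtain ⟨u, t, u', t', hp, h1, h2⟩ := double_exchange (hnd i) (hnd j) (hself i) (hself j)
    (by unfold Drawing.path at hc; omega)
  have hlt := upd2_dcr_lt D hij u u' t t' hp (fun Q => by
    rw [← Nrm.arcs_eq_pre, ← Nrm.arcs_eq_pre]; exact h1 Q) (by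
    rw [← Nrm.arcs_eq_pre, ← Nrm.arcs_eq_pre]
    have h3 : crL (D.path i) (D.path j) = crL (arcs (D.pos (N.src i)) (D.inner i) (D.last i)
      (D.pos (N.tgt i))) (arcs (D.pos (N.src j)) (D.inner j) (D.last j) (D.pos (N.tgt j))) := rfl
    omega)
  exact absurd (hopt L (upd2 D hij u u' t t' hp)) (not_le.2 hlt)

theorem exists_nice [Finite V] [Fintype ι] [DecidableEq ι] (N : Net V ι)
    (hN : ∀ i, N.src i ≠ N.tgt i) :
    ∃ (L : Type) (_ : LinearOrder L) (D : Drawing N L), Nice D := by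
  obtain ⟨L₁, _, D₁, h1⟩ := exists_opt N
  obtain ⟨D₂, h2, h3, h4⟩ := exists_normal_drawing D₁
  obtain ⟨L₃, _, D₃, k1, k2, k3⟩ := exists_refined hN D₂ h4
  have hself : ∀ i, crL (D₃.path i) (D₃.path i) = 0 := fun i =>
    Nat.le_zero.1 ((k1 i i).trans (h3 i).le)
  have hopt : D₃.Opt := by
    intro L' _ D'
    refine le_trans ?_ ((h2.trans (h1 L' D')))
    unfold Drawing.dcr
    refine Finset.sum_le_sum fun i _ => Finset.sum_le_sum fun j _ => ?_
    split_ifs
    · exact le_rfl
    · exact k1 i j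
  exact ⟨L₃, inferInstance, D₃, hopt, ⟨k2, hself⟩, k3, adj_of_opt hopt hself,
    one_of_opt hN hopt hself k3⟩

end

end TA
end MP881e12
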