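import Pool.Agent.Lib.MP_881e12_lc.TA.Cut

/-!
Cutting does not create crossings.
-/

namespace MP881e12
namespace TA

open MP60f107 Finset
open MP60f107.Contr (sw pr ht mk)

section

variable {L : Type} [LinearOrder L]

theorem mk00 (x y : L) : (mk x 0 : L ×ₗ ℤ) < mk y 0 ↔ x < y := by
  rw [Contr.lt_iff]; simp

theorem mk0r (x c : L) (r : ℤ) (h : x ≠ c) : (mk x 0 : L ×ₗ ℤ) < mk c r ↔ x < c := by
  rw [Contr.lt_iff]; simp [h]

theorem mkr0 (x c : L) (r : ℤ) (h : x ≠ c) : (mk c r : L ×ₗ ℤ) < mk x 0 ↔ c < x := by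
  rw [Contr.lt_iff]; simp [h.symm]

theorem mkrr (c : L) (r r' : ℤ) : (mk c r : L ×ₗ ℤ) < mk c r' ↔ r < r' := by
  rw [Contr.lt_iff]; simp

/-- the three forms of the image -/
theorem cutImg_cases (π : Bool) (c : L) (r : ℤ) (A : Arc L) :
    (¬ Spn π c A ∧ cutImg π c r A = [⟨mk A.p 0, mk A.q 0, A.up⟩]) ∨
    (A.up = π ∧ A.p < c ∧ c < A.q ∧ cutImg π c r A =
      [⟨mk A.p 0, mk c (-r), π⟩, ⟨mk c (-r), mk c r, !π⟩, ⟨mk c r, mk A.q 0, π⟩]) ∨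
    (A.up = π ∧ A.q < c ∧ c < A.p ∧ cutImg π c r A =
      [⟨mk A.p 0, mk c r, π⟩, ⟨mk c r, mk c (-r), !π⟩, ⟨mk c (-r), mk A.q 0, π⟩]) := by
  unfold cutImg cutIns
  by_cases h : Spn π c A
  · obtain ⟨h1, h2⟩ := h
    rcases h2 with h2 | h2
    · right; left
      refine ⟨h1, h2.1, h2.2, ?_⟩
      rw [if_pos ⟨h1, Or.inl h2⟩, if_pos h2.1, h1]; rfl
    · right; right
      refine ⟨h1, h2.1, h2.2, ?_⟩
      rw [if_pos ⟨h1, Or.inr h2⟩, if_neg (not_lt.2 h2.2.le), h1]; rfl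
  · left
    refine ⟨h, ?_⟩
    rw [if_neg h]; rfl

theorem crL33 (a b c d e f : Arc (L ×ₗ ℤ)) : crL [a, b, c] [d, e, f] =
    X a d + X a e + X a f + X b d + X b e + X b f + X c d + X c e + X c f := by
  simp [crL]; ring

theorem crL13 (a d e f : Arc (L ×ₗ ℤ)) : crL [a] [d, e, f] = X a d + X a e + X a f := by
  simp [crL]; ring

theorem crL31 (a b c d : Arc (L ×ₗ ℤ)) : crL [a, b, c] [d] = X a d + X b d + X c d := by
  simp [crL]; ring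

theorem crL11 (a d : Arc (L ×ₗ ℤ)) : crL [a] [d] = X a d := by
  simp [crL]

/-- the left pieces, the fingers and the right pieces -/
theorem cross33 (π : Bool) {p q p' q' c : L} (hp : p < c) (hq : c < q) (hp' : p' < c) (hq' : c < q')
    {r r' : ℤ} (hr : 0 < r) (hr' : 0 < r') (hne : r ≠ r')
    (h1 : p ≤ p' → q' ≤ q → (p < p' ∨ q' < q) → r < r')
    (h2 : p' ≤ p → q ≤ q' → (p' < p ∨ q < q') → r' < r) :
    X (⟨mk p 0, mk c (-r), π⟩ : Arc (L ×ₗ ℤ)) ⟨mk p' 0, mk c (-r'), π⟩ +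
    X (⟨mk p 0, mk c (-r), π⟩ : Arc (L ×ₗ ℤ)) ⟨mk c (-r'), mk c r', !π⟩ +
    X (⟨mk p 0, mk c (-r), π⟩ : Arc (L ×ₗ ℤ)) ⟨mk c r', mk q' 0, π⟩ +
    X (⟨mk c (-r), mk c r, !π⟩ : Arc (L ×ₗ ℤ)) ⟨mk p' 0, mk c (-r'), π⟩ +
    X (⟨mk c (-r), mk c r, !π⟩ : Arc (L ×ₗ ℤ)) ⟨mk c (-r'), mk c r', !π⟩ +
    X (⟨mk c (-r), mk c r, !π⟩ : Arc (L ×ₗ ℤ)) ⟨mk c r', mk q' 0, π⟩ +
    X (⟨mk c r, mk q 0, π⟩ : Arc (L ×ₗ ℤ)) ⟨mk p' 0, mk c (-r'), π⟩ +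
    X (⟨mk c r, mk q 0, π⟩ : Arc (L ×ₗ ℤ)) ⟨mk c (-r'), mk c r', !π⟩ +
    X (⟨mk c r, mk q 0, π⟩ : Arc (L ×ₗ ℤ)) ⟨mk c r', mk q' 0, π⟩ ≤ X ⟨p, q, π⟩ ⟨p', q', π⟩ := by
  have e2 : X (⟨mk p 0, mk c (-r), π⟩ : Arc (L ×ₗ ℤ)) ⟨mk c (-r'), mk c r', !π⟩ = 0 := by simp [X]
  have e4 : X (⟨mk c (-r), mk c r, !π⟩ : Arc (L ×ₗ ℤ)) ⟨mk p' 0, mk c (-r'), π⟩ = 0 := by simp [X]
  have e6 : X (⟨mk c (-r), mk c r, !π⟩ : Arc (L ×ₗ ℤ)) ⟨mk c r', mk q' 0, π⟩ = 0 := by simp [X]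
  have e8 : X (⟨mk c r, mk q 0, π⟩ : Arc (L ×ₗ ℤ)) ⟨mk c (-r'), mk c r', !π⟩ = 0 := by simp [X]
  have e5 : X (⟨mk c (-r), mk c r, !π⟩ : Arc (L ×ₗ ℤ)) ⟨mk c (-r'), mk c r', !π⟩ = 0 := by
    unfold X Ilv MP60f107.Btw Ots
    simp only [mkrr]
    rw [if_neg]
    omega
  have e3 : X (⟨mk p 0, mk c (-r), π⟩ : Arc (L ×ₗ ℤ)) ⟨mk c r', mk q' 0, π⟩ = 0 := by
    unfold X Ilv MP60f107.Btw Ots
    simp only [mk00, mk0r _ _ _ hp.ne, mk0r _ _ _ hq'.ne', mkr0 _ _ _ hp.ne, mkr0 _ _ _ hq'.ne', mkrr]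
    rw [if_neg]
    grind (splits := 30)
  have e7 : X (⟨mk c r, mk q 0, π⟩ : Arc (L ×ₗ ℤ)) ⟨mk p' 0, mk c (-r'), π⟩ = 0 := by
    unfold X Ilv MP60f107.Btw Ots
    simp only [mk00, mk0r _ _ _ hp'.ne, mk0r _ _ _ hq.ne', mkr0 _ _ _ hp'.ne, mkr0 _ _ _ hq.ne', mkrr]
    rw [if_neg]
    grind (splits := 30)
  rw [e2, e3, e4, e5, e6, e7, e8]
  simp only [add_zero]
  have k1 : X (⟨mk p 0, mk c (-r), π⟩ : Arc (L ×ₗ ℤ)) ⟨mk p' 0, mk c (-r'), π⟩ =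
      if (p < p' ∧ r' < r) ∨ (p' < p ∧ r < r') then 1 else 0 := by
    unfold X Ilv MP60f107.Btw Ots
    simp only [mk00, mk0r _ _ _ hp'.ne, mk0r _ _ _ hp.ne, mkr0 _ _ _ hp'.ne, mkr0 _ _ _ hp.ne, mkrr]
    refine if_congr ?_ rfl rfl
    grind (splits := 30)
  have k2 : X (⟨mk c r, mk q 0, π⟩ : Arc (L ×ₗ ℤ)) ⟨mk c r', mk q' 0, π⟩ =
      if (q < q' ∧ r < r') ∨ (q' < q ∧ r' < r) then 1 else 0 := by
    unfold X Ilv MP60f107.Btw Ots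
    simp only [mk00, mk0r _ _ _ hq'.ne', mk0r _ _ _ hq.ne', mkr0 _ _ _ hq'.ne', mkr0 _ _ _ hq.ne',
      mkrr]
    refine if_congr ?_ rfl rfl
    grind (splits := 30)
  have k3 : X (⟨p, q, π⟩ : Arc L) ⟨p', q', π⟩ =
      if (p < p' ∧ q < q') ∨ (p' < p ∧ q' < q) then 1 else 0 := by
    unfold X Ilv MP60f107.Btw Ots
    refine if_congr ?_ rfl rfl
    grind (splits := 30)
  rw [k1, k2, k3]
  grind (splits := 30)

theorem X_swl {M : Type} [LinearOrder M] (a b : M) (s : Bool) (B : Arc M) :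
    X ⟨a, b, s⟩ B = X ⟨b, a, s⟩ B := by
  rw [← Nrm.X_swap ⟨b, a, s⟩ B]

theorem X_swr {M : Type} [LinearOrder M] (a b : M) (s : Bool) (B : Arc M) :
    X B ⟨a, b, s⟩ = X B ⟨b, a, s⟩ := by
  rw [Nrm.X_comm, X_swl, Nrm.X_comm]

set_option linter.unusedSimpArgs false in
theorem cut_cross (π : Bool) (c : L) (A B : Arc L) (hA : A.p ≠ c ∧ A.q ≠ c)
    (hB : B.p ≠ c ∧ B.q ≠ c) (r r' : ℤ) (hr : 0 < r) (hr' : 0 < r')
    (hne : Spn π c A → Spn π c B → r ≠ r')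
    (h1 : Spn π c A → Spn π c B → Nst B A → r < r')
    (h2 : Spn π c A → Spn π c B → Nst A B → r' < r) :
    crL (cutImg π c r A) (cutImg π c r' B) ≤ X A B := by
  obtain ⟨p, q, u⟩ := A
  obtain ⟨p', q', u'⟩ := B
  simp only at hA hB
  unfold Nst Spn MP60f107.Btw at *
  simp only at *
  rcases cutImg_cases π c r ⟨p, q, u⟩ with ⟨a1, a4⟩ | ⟨a1, a2, a3, a4⟩ | ⟨a1, a2, a3, a4⟩ <;>
  rcases cutImg_cases π c r' ⟨p', q', u'⟩ with ⟨b1, b4⟩ | ⟨b1, b2, b3, b4⟩ | ⟨b1, b2, b3, b4⟩ <;>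
  (first
    | (unfold Spn MP60f107.Btw at a1 b1; simp only at a1 b1)
    | (unfold Spn MP60f107.Btw at a1; simp only at a1 b1 b2 b3)
    | (unfold Spn MP60f107.Btw at b1; simp only at a1 a2 a3 b1)
    | (simp only at a1 a2 a3 b1 b2 b3)) <;>
  rw [a4, b4] <;>
  (try simp only [crL33, crL13, crL31, crL11]) <;>
  clear a4 b4
  case inr.inl.inr.inl =>
    subst a1; subst b1
    simp only [a2, a3, b2, b3, true_and, true_or, forall_const, min_eq_left (a2.trans a3).le,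
      min_eq_left (b2.trans b3).le, max_eq_right (a2.trans a3).le, max_eq_right (b2.trans b3).le,
      and_imp] at hne h1 h2
    exact cross33 _ a2 a3 b2 b3 hr hr' hne h1 h2
  case inr.inl.inr.inr =>
    subst a1; subst b1
    simp only [a2, a3, b2, b3, true_and, true_or, or_true, forall_const,
      min_eq_left (a2.trans a3).le,
      min_eq_right (b2.trans b3).le, max_eq_right (a2.trans a3).le, max_eq_left (b2.trans b3).le,
      and_imp] at hne h1 h2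
    have := cross33 u' a2 a3 b2 b3 hr hr' hne h1 h2
    simp only [X_swr q' p', X_swr (mk q' 0) (mk c (-r')), X_swr (mk c (-r')) (mk c r'),
      X_swr (mk c r') (mk p' 0)] at this
    omega
  case inr.inr.inr.inl =>
    subst a1; subst b1
    simp only [a2, a3, b2, b3, true_and, true_or, or_true, forall_const,
      min_eq_right (a2.trans a3).le,
      min_eq_left (b2.trans b3).le, max_eq_left (a2.trans a3).le, max_eq_right (b2.trans b3).le,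
      and_imp] at hne h1 h2
    have := cross33 u' a2 a3 b2 b3 hr hr' hne h1 h2
    simp only [X_swl q p, X_swl (mk q 0) (mk c (-r)), X_swl (mk c (-r)) (mk c r),
      X_swl (mk c r) (mk p 0)] at this
    omega
  case inr.inr.inr.inr =>
    subst a1; subst b1
    simp only [a2, a3, b2, b3, true_and, true_or, or_true, forall_const,
      min_eq_right (a2.trans a3).le,
      min_eq_right (b2.trans b3).le, max_eq_left (a2.trans a3).le, max_eq_left (b2.trans b3).le,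
      and_imp] at hne h1 h2
    have := cross33 u' a2 a3 b2 b3 hr hr' hne h1 h2
    simp only [X_swl q p, X_swl (mk q 0) (mk c (-r)), X_swl (mk c (-r)) (mk c r),
      X_swl (mk c r) (mk p 0), X_swr q' p', X_swr (mk q' 0) (mk c (-r')),
      X_swr (mk c (-r')) (mk c r'), X_swr (mk c r') (mk p' 0)] at this
    omega
  all_goals
    unfold X Ilv MP60f107.Btw Ots
    simp only [mk00, mk0r _ _ _ hA.1, mk0r _ _ _ hA.2, mk0r _ _ _ hB.1, mk0r _ _ _ hB.2,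
      mkr0 _ _ _ hA.1, mkr0 _ _ _ hA.2, mkr0 _ _ _ hB.1, mkr0 _ _ _ hB.2, mkrr]
    grind (splits := 60)

theorem cut_self (π : Bool) (c : L) (A : Arc L) (hA : A.p ≠ c ∧ A.q ≠ c) (r : ℤ) (hr : 0 < r) :
    crL (cutImg π c r A) (cutImg π c r A) = 0 := by
  obtain ⟨p, q, u⟩ := A
  simp only at hA
  rcases cutImg_cases π c r ⟨p, q, u⟩ with ⟨a1, a4⟩ | ⟨a1, a2, a3, a4⟩ | ⟨a1, a2, a3, a4⟩ <;>
  rw [a4] <;>
  (try simp only [crL33, crL11]) <;> clear a4 <;>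
  unfold X Ilv MP60f107.Btw Ots <;>
  (simp only [mk00, mk0r _ _ _ hA.1, mk0r _ _ _ hA.2,
      mkr0 _ _ _ hA.1, mkr0 _ _ _ hA.2, mkrr]; try simp only at a2 a3) <;>
  grind (splits := 60)

end

end TA
end MP881e12
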