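import Pool.Agent.Lib.MP_881e12_lc.TA.Cut

/-!
The cut drawing.
-/

namespace MP881e12
namespace TA

open MP60f107 Finset
open MP60f107.Contr (sw pr ht mk)

/-- the first page of a chain -/
def fpg {M : Type} : List (Bool × M) → Bool → Bool
  | [], s => s
  | x :: _, _ => x.1

theorem alt_cons {M : Type} (x : Bool × M) (r : List (Bool × M)) (s : Bool) :
    Alt (x :: r) s ↔ x.1 ≠ fpg r s ∧ Alt r s := by
  obtain ⟨s₁, p⟩ := x
  cases r with
  | nil => simp [Alt, fpg]
  | cons y r => obtain ⟨s₂, q⟩ := y; simp [Alt, fpg]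

theorem fpg_sub {L L' : Type} (F : L → L') (ins : Arc L → List (Bool × L'))
    (hins : ∀ A, ins A = [] ∨ ∃ x y, ins A = [(A.up, x), (!A.up, y)]) (a : L)
    (r : List (Bool × L)) (s : Bool) (b : L) :
    fpg (Fg.sub F ins Arc.up a r s b) (Fg.subLast Arc.up a r s b) = fpg r s := by
  cases r with
  | nil =>
    simp only [Fg.sub, Fg.subLast]
    rcases hins ⟨a, b, s⟩ with h | ⟨x, y, h⟩ <;> rw [h] <;> rfl
  | cons z r =>
    obtain ⟨s₁, p⟩ := z
    simp only [Fg.sub, Fg.subLast]
    rcases hins ⟨a, p, s₁⟩ with h | ⟨x, y, h⟩ <;> rw [h] <;> rfl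

/-- Substituted chains alternate. -/
theorem alt_sub {L L' : Type} (F : L → L') (ins : Arc L → List (Bool × L'))
    (hins : ∀ A, ins A = [] ∨ ∃ x y, ins A = [(A.up, x), (!A.up, y)]) (a : L)
    (r : List (Bool × L)) (s : Bool) (b : L) (h : Alt r s) :
    Alt (Fg.sub F ins Arc.up a r s b) (Fg.subLast Arc.up a r s b) := by
  induction r generalizing a with
  | nil =>
    simp only [Fg.sub, Fg.subLast]
    rcases hins ⟨a, b, s⟩ with h | ⟨x, y, h⟩
    · rw [h]; simp [Alt]
    · rw [h]; simp [Alt]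
  | cons z r ih =>
    obtain ⟨s₁, p⟩ := z
    rw [alt_cons] at h
    have ih' := ih p h.2
    have h1 := h.1
    rw [← fpg_sub F ins hins p r s b] at h1
    simp only [Fg.sub, Fg.subLast]
    rcases hins ⟨a, p, s₁⟩ with h | ⟨x, y, h⟩
    · rw [h, List.nil_append, alt_cons]
      exact ⟨h1, ih'⟩
    · rw [h, List.cons_append, List.cons_append, List.nil_append, alt_cons, alt_cons, alt_cons]
      exact ⟨by simp [fpg], by simp [fpg], h1, ih'⟩
section

variable {V ι L : Type} [LinearOrder L] {N : Net V ι}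

open Classical in
/-- the inserted points of the arcs of the edge `i` -/
noncomputable def insI (D : Drawing N L) (π : Bool) (c : L) (ρ : ι → Arc L → ℤ) (i : ι) (A : Arc L) :
    List (Bool × (L ×ₗ ℤ)) := if A ∈ D.path i then cutIns π c (ρ i A) A else []

theorem mem_cutIns {π : Bool} {c : L} {r : ℤ} {A : Arc L} {x : Bool × (L ×ₗ ℤ)}
    (h : x ∈ cutIns π c r A) : Spn π c A ∧ pr x.2 = c ∧ (ht x.2 = r ∨ ht x.2 = -r) := by
  unfold cutIns at h
  by_cases hs : Spn π c A
  · rw [if_pos hs] at h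
    split_ifs at h
    · simp only [List.mem_cons, List.not_mem_nil, or_false] at h
      rcases h with rfl | rfl <;> simp [hs]
    · simp only [List.mem_cons, List.not_mem_nil, or_false] at h
      rcases h with rfl | rfl <;> simp [hs]
  · rw [if_neg hs] at h
    simp at h

theorem mem_insI {D : Drawing N L} {π : Bool} {c : L} {ρ : ι → Arc L → ℤ} {i : ι} {A : Arc L}
    {x : Bool × (L ×ₗ ℤ)} (h : x ∈ insI D π c ρ i A) :
    A ∈ D.path i ∧ Spn π c A ∧ pr x.2 = c ∧ (ht x.2 = ρ i A ∨ ht x.2 = -ρ i A) := by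
  unfold insI at h
  split_ifs at h with hA
  · exact ⟨hA, mem_cutIns h⟩
  · simp at h

theorem insI_sub {D : Drawing N L} {π : Bool} {c : L} {ρ : ι → Arc L → ℤ} (h : CutOK D π c ρ)
    (i : ι) : Fg.Sub (fun p : L => (mk p 0 : L ×ₗ ℤ)) (insI D π c ρ i) where
  inj x y hxy := congrArg pr hxy
  fresh A x hx y hxy := by
    obtain ⟨-, -, -, h2⟩ := mem_insI hx
    have h3 := h.pos i A
    rw [hxy] at h2
    simp only [Contr.ht_mk] at h2
    omega
  nodup A := by
    unfold insI cutIns
    have h3 := h.pos i A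
    split_ifs
    · simp only [List.map_cons, List.map_nil, List.nodup_cons, List.mem_singleton,
        List.not_mem_nil, not_false_eq_true, List.nodup_nil, and_true]
      intro e
      have := congrArg ht e
      simp only [Contr.ht_mk] at this
      omega
    · simp only [List.map_cons, List.map_nil, List.nodup_cons, List.mem_singleton,
        List.not_mem_nil, not_false_eq_true, List.nodup_nil, and_true]
      intro e
      have := congrArg ht e
      simp only [Contr.ht_mk] at this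
      omega
    · simp
    · simp
  disj A B hAB x hx y hy hxy := by
    obtain ⟨a1, a2, -, a4⟩ := mem_insI hx
    obtain ⟨b1, b2, -, b4⟩ := mem_insI hy
    have h3 := h.pos i A
    have h4 := h.pos i B
    rw [hxy] at a4
    have : ρ i A = ρ i B := by omega
    obtain ⟨-, e⟩ := h.inj i i A a1 B b1 a2 b2 this
    exact hAB (by rw [e])

/-- The cut drawing. -/
noncomputable def cutD (hN : ∀ i, N.src i ≠ N.tgt i) (D : Drawing N L) {π : Bool} {c : L}
    {ρ : ι → Arc L → ℤ} (h : CutOK D π c ρ) : Drawing N (L ×ₗ ℤ) where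
  pos v := mk (D.pos v) 0
  inner i := Fg.sub (fun p : L => (mk p 0 : L ×ₗ ℤ)) (insI D π c ρ i) Arc.up (D.pos (N.src i))
    (D.inner i) (D.last i) (D.pos (N.tgt i))
  last i := Fg.subLast Arc.up (D.pos (N.src i)) (D.inner i) (D.last i) (D.pos (N.tgt i))
  pos_inj x y hxy := D.pos_inj (congrArg pr hxy)
  nodup i := (insI_sub h i).nodup_sub _ _ _ _ _ (D.nodup i) (fun x hx => D.avoid i x hx _)
    (fun x hx => D.avoid i x hx _) (fun h' => hN i (D.pos_inj h'))
  disj i j hij x hx y hy hxy := by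
    rcases Fg.mem_sub hx with ⟨x', hx', hxx⟩ | ⟨A, hA, hxA⟩
    · rcases Fg.mem_sub hy with ⟨y', hy', hyy⟩ | ⟨B, hB, hyB⟩
      · rw [hxx, hyy] at hxy
        exact D.disj i j hij x' hx' y' hy' (congrArg pr hxy)
      · rw [hxx] at hxy
        exact (insI_sub h j).fresh B y hyB _ hxy.symm
    · rcases Fg.mem_sub hy with ⟨y', hy', hyy⟩ | ⟨B, hB, hyB⟩
      · rw [hyy] at hxy
        exact (insI_sub h i).fresh A x hxA _ hxy
      · obtain ⟨a1, a2, -, a4⟩ := mem_insI hxA
        obtain ⟨b1, b2, -, b4⟩ := mem_insI hyB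
        have h3 := h.pos i A
        have h4 := h.pos j B
        rw [hxy] at a4
        have : ρ i A = ρ j B := by omega
        exact hij (h.inj i j A a1 B b1 a2 b2 this).1
  avoid i x hx w hxw := by
    rcases Fg.mem_sub hx with ⟨x', hx', hxx⟩ | ⟨A, hA, hxA⟩
    · rw [hxx] at hxw
      exact D.avoid i x' hx' w (congrArg pr hxw)
    · exact (insI_sub h i).fresh A x hxA _ hxw

theorem cutD_path (hN : ∀ i, N.src i ≠ N.tgt i) (D : Drawing N L) {π : Bool} {c : L}
    {ρ : ι → Arc L → ℤ} (h : CutOK D π c ρ) (i : ι) :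
    (cutD hN D h).path i = (D.path i).flatMap fun A => cutImg π c (ρ i A) A := by
  have e : (cutD hN D h).path i = (D.path i).flatMap
      (Fg.img (fun p : L => (mk p 0 : L ×ₗ ℤ)) (insI D π c ρ i) Arc.up) :=
    Fg.arcs_sub (fun p : L => (mk p 0 : L ×ₗ ℤ)) (insI D π c ρ i) Arc.up (D.pos (N.src i))
      (D.inner i) (D.last i) (D.pos (N.tgt i))
  rw [e]
  refine List.flatMap_congr fun A hA => ?_
  unfold Fg.img cutImg insI
  rw [if_pos hA]

/-- The pages alternate. -/
theorem alt_cutD (hN : ∀ i, N.src i ≠ N.tgt i) (D : Drawing N L) {π : Bool} {c : L}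
    {ρ : ι → Arc L → ℤ} (h : CutOK D π c ρ) (i : ι) (ha : Alt (D.inner i) (D.last i)) :
    Alt ((cutD hN D h).inner i) ((cutD hN D h).last i) := by
  refine alt_sub _ _ (fun A => ?_) _ _ _ _ ha
  unfold insI cutIns
  split_ifs with h1 h2 h3
  · exact Or.inr ⟨_, _, by rw [h2.1]⟩
  · exact Or.inr ⟨_, _, by rw [h2.1]⟩
  · exact Or.inl rfl
  · exact Or.inl rfl

end

end TA
end MP881e12
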