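import Pool.Agent.Lib.MP_881e12_lc.TA.Cut

/-!
The numbering of the arcs at a cut.
-/

namespace MP881e12
namespace TA

open MP60f107 Finset
open MP60f107.Contr (sw pr ht mk)

section

variable {V ι L : Type} [LinearOrder L] {N : Net V ι}

omit [LinearOrder L] in
/-- In a chain without repeated points an arc is determined by its ends. -/
theorem arcs_eq_of_ends {a b : L} {r : List (Bool × L)} {s : Bool}
    (hnd : (a :: (r.map Prod.snd ++ [b])).Nodup) {A B : Arc L} (hA : A ∈ arcs a r s b)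
    (hB : B ∈ arcs a r s b) (h : s(A.p, A.q) = s(B.p, B.q)) : A = B := by
  induction r generalizing a with
  | nil =>
    simp only [arcs, List.mem_singleton] at hA hB
    rw [hA, hB]
  | cons x r ih =>
    obtain ⟨s₁, p⟩ := x
    simp only [List.map_cons, List.cons_append] at hnd
    rw [List.nodup_cons] at hnd
    obtain ⟨h1, h2⟩ := hnd
    have key : ∀ C ∈ arcs p r s b, s(a, p) ≠ s(C.p, C.q) := by
      intro C hC e
      have ha : a ∈ s(C.p, C.q) := by rw [← e]; simp
      rw [Sym2.mem_iff] at ha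
      apply h1
      rcases ha with ha | ha
      · rcases Fg.mem_arcs_left hC with h' | ⟨w, hw, h'⟩
        · rw [ha, h']; simp
        · rw [ha, h']
          exact List.mem_cons_of_mem _ (List.mem_append_left _ (List.mem_map_of_mem hw))
      · rcases Fg.mem_arcs_right hC with h' | ⟨w, hw, h'⟩
        · rw [ha, h']; simp
        · rw [ha, h']
          exact List.mem_cons_of_mem _ (List.mem_append_left _ (List.mem_map_of_mem hw))
    simp only [arcs, List.mem_cons] at hA hB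
    rcases hA with rfl | hA <;> rcases hB with rfl | hB
    · rfl
    · exact absurd h (key B hB)
    · exact absurd h.symm (key A hA)
    · exact ih h2 hA hB

theorem path_nodup_pts (hN : ∀ i, N.src i ≠ N.tgt i) (D : Drawing N L) (i : ι) :
    (D.pos (N.src i) :: ((D.inner i).map Prod.snd ++ [D.pos (N.tgt i)])).Nodup := by
  rw [List.nodup_cons, List.mem_append, List.nodup_append]
  refine ⟨?_, D.nodup i, by simp, ?_⟩
  · rintro (h4 | h4)
    · obtain ⟨x, hx, hx'⟩ := List.mem_map.mp h4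
      exact D.avoid i x hx _ hx'
    · exact hN i (D.pos_inj (List.mem_singleton.mp h4))
  · intro x hx y hy
    obtain ⟨x', hx', rfl⟩ := List.mem_map.mp hx
    rw [List.mem_singleton.mp hy]
    exact D.avoid i x' hx' _

theorem path_eq_of_ends (hN : ∀ i, N.src i ≠ N.tgt i) (D : Drawing N L) {i : ι} {A B : Arc L}
    (hA : A ∈ D.path i) (hB : B ∈ D.path i) (h : s(A.p, A.q) = s(B.p, B.q)) : A = B :=
  arcs_eq_of_ends (path_nodup_pts hN D i) hA hB h

theorem path_ends_ne (hN : ∀ i, N.src i ≠ N.tgt i) (D : Drawing N L) {i : ι} {A : Arc L}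
    (hA : A ∈ D.path i) : A.p ≠ A.q :=
  Fg.arcs_ne hA (D.nodup i) (fun x hx => D.avoid i x hx _) (fun x hx => D.avoid i x hx _)
    (fun h => hN i (D.pos_inj h))

theorem Nst.trans {A B C : Arc L} (h : Nst A B) (h' : Nst B C) : Nst A C := by
  obtain ⟨h1, h2, h3⟩ := h
  obtain ⟨k1, k2, k3⟩ := h'
  refine ⟨k1.trans h1, h2.trans k2, ?_⟩
  rcases k3 with k3 | k3
  · exact Or.inl (lt_of_lt_of_le k3 h1)
  · exact Or.inr (lt_of_le_of_lt h2 k3)

theorem not_nst_of_X {A B : Arc L} (h : X A B = 1) : ¬ Nst A B ∧ ¬ Nst B A := by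
  obtain ⟨-, h⟩ := Nrm.X_ne.1 (by rw [h]; exact one_ne_zero)
  unfold Nst
  unfold Ilv MP60f107.Btw Ots at h
  constructor <;> rintro ⟨h1, h2, h3⟩ <;>
    simp only [min_def, max_def] at h1 h2 h3 <;> grind (splits := 40)

open Classical in
/-- the class of an arc -/
noncomputable def cls (x₁ x₀ x : ι × Arc L) : ℕ :=
  if x = x₀ ∨ Nst x.2 x₀.2 then 0 else if x = x₁ ∨ Nst x.2 x₁.2 then 1 else 2

theorem cls_mono {x₁ x₀ x y : ι × Arc L} (h : Nst x.2 y.2) : cls x₁ x₀ x ≤ cls x₁ x₀ y := by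
  unfold cls
  by_cases h0 : y = x₀ ∨ Nst y.2 x₀.2
  · have : x = x₀ ∨ Nst x.2 x₀.2 := by
      rcases h0 with rfl | h0
      · exact Or.inr h
      · exact Or.inr (h.trans h0)
    rw [if_pos this]
    exact Nat.zero_le _
  · rw [if_neg h0]
    by_cases h1 : y = x₁ ∨ Nst y.2 x₁.2
    · have : x = x₁ ∨ Nst x.2 x₁.2 := by
        rcases h1 with rfl | h1
        · exact Or.inr h
        · exact Or.inr (h.trans h1)
      rw [if_pos h1, if_pos this]
      split_ifs <;> omega
    · rw [if_neg h1]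
      split_ifs <;> omega

/-- the key of an arc -/
noncomputable def ky [Fintype ι] (x₁ x₀ x : ι × Arc L) : ℕ ×ₗ (Lᵒᵈ ×ₗ (L ×ₗ ℕ)) :=
  toLex (cls x₁ x₀ x, toLex (OrderDual.toDual (min x.2.p x.2.q), toLex (max x.2.p x.2.q,
    ((Fintype.equivFin ι x.1 : Fin _) : ℕ))))

theorem ky_mono [Fintype ι] {x₁ x₀ x y : ι × Arc L} (h : Nst x.2 y.2) :
    ky x₁ x₀ x < ky x₁ x₀ y := by
  unfold ky
  rw [Prod.Lex.toLex_lt_toLex]
  rcases (cls_mono (x₁ := x₁) (x₀ := x₀) h).lt_or_eq with h1 | h1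
  · exact Or.inl h1
  · refine Or.inr ⟨h1, ?_⟩
    dsimp only
    rw [Prod.Lex.toLex_lt_toLex]
    obtain ⟨k1, k2, k3⟩ := h
    rcases k1.lt_or_eq with k | k
    · exact Or.inl (OrderDual.toDual_lt_toDual.2 k)
    · refine Or.inr ⟨by rw [k], ?_⟩
      dsimp only
      rw [Prod.Lex.toLex_lt_toLex]
      left
      rcases k3 with k3 | k3
      · exact absurd k k3.ne
      · exact k3

theorem exists_numbering [Finite ι] (hN : ∀ i, N.src i ≠ N.tgt i) (D : Drawing N L) (π : Bool)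
    (c : L) (hc : ∀ i, ∀ A ∈ D.path i, A.p ≠ c ∧ A.q ≠ c) (i₀ j₀ : ι) (A₀ B₀ : Arc L)
    (hA : A₀ ∈ D.path i₀) (hB : B₀ ∈ D.path j₀) (hAs : Spn π c A₀) (hBs : Spn π c B₀)
    (hX : X A₀ B₀ = 1) :
    ∃ ρ : ι → Arc L → ℤ, CutOK D π c ρ ∧ ρ i₀ A₀ < ρ j₀ B₀ ∧
      ∀ k, ∀ C ∈ D.path k, Spn π c C → X A₀ C = 1 → (k ≠ j₀ ∨ C ≠ B₀) → ¬ Nst C B₀ →
        ρ k C < ρ i₀ A₀ := by
  classical
  have := Fintype.ofFinite ι
  set S : Set (ι × Arc L) := {x | x.2 ∈ D.path x.1 ∧ Spn π c x.2} with hS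
  have hfin : S.Finite := by
    have : S ⊆ ⋃ i, (fun A => (i, A)) '' {A | A ∈ D.path i} := by
      rintro ⟨i, A⟩ ⟨h1, -⟩
      exact Set.mem_iUnion.2 ⟨i, A, h1, rfl⟩
    refine (Set.finite_iUnion fun i => ?_).subset this
    exact (List.finite_toSet (D.path i)).image _
  set F := hfin.toFinset with hF
  set κ : ι × Arc L → ℕ ×ₗ (Lᵒᵈ ×ₗ (L ×ₗ ℕ)) := ky (i₀, A₀) (j₀, B₀) with hκ
  set ρ : ι → Arc L → ℤ := fun i A => ((F.filter fun y => κ (i, A) < κ y).card : ℤ) + 1 with hρ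
  have anti : ∀ x y : ι × Arc L, y ∈ S → κ x < κ y → ρ y.1 y.2 < ρ x.1 x.2 := by
    rintro ⟨i, A⟩ ⟨j, B⟩ hy hxy
    have : (F.filter fun z => κ (j, B) < κ z).card <
        (F.filter fun z => κ (i, A) < κ z).card := by
      apply card_lt_card
      rw [ssubset_iff_of_subset]
      · refine ⟨(j, B), ?_, ?_⟩
        · rw [mem_filter]; exact ⟨hfin.mem_toFinset.2 hy, hxy⟩
        · rw [mem_filter]; exact fun h => lt_irrefl _ h.2
      · intro z hz
        rw [mem_filter] at hz ⊢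
        exact ⟨hz.1, hxy.trans hz.2⟩
    simp only [hρ]
    omega
  refine ⟨ρ, ⟨hc, fun i A => by simp only [hρ]; positivity, ?_, ?_⟩, ?_, ?_⟩
  · intro i j A hA B hB hAs hBs he
    have hxS : (i, A) ∈ S := ⟨hA, hAs⟩
    have hyS : (j, B) ∈ S := ⟨hB, hBs⟩
    rcases lt_trichotomy (κ (i, A)) (κ (j, B)) with h | h | h
    · have := anti _ _ hyS h
      simp only at this
      omega
    · simp only [hκ, ky] at h
      have h' := toLex.injective h
      rw [Prod.ext_iff] at h'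
      have h2 := toLex.injective h'.2
      rw [Prod.ext_iff] at h2
      have h3 := toLex.injective h2.2
      rw [Prod.ext_iff] at h3
      have e1 : min A.p A.q = min B.p B.q := OrderDual.toDual.injective h2.1
      have e2 : max A.p A.q = max B.p B.q := h3.1
      have e3 : i = j := (Fintype.equivFin ι).injective (Fin.ext h3.2)
      subst e3
      refine ⟨rfl, path_eq_of_ends hN D hA hB ?_⟩
      rw [Sym2.eq_iff]
      simp only [min_def, max_def] at e1 e2
      split_ifs at e1 e2 with g1 g2 g2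
      · exact Or.inl ⟨e1, e2⟩
      · exact Or.inr ⟨e1, e2⟩
      · exact Or.inr ⟨e2, e1⟩
      · exact Or.inl ⟨e2, e1⟩
    · have := anti _ _ hxS h
      simp only at this
      omega
  · intro i j A hA B hB hAs hBs hn
    have hxS : (i, A) ∈ S := ⟨hA, hAs⟩
    exact anti (j, B) (i, A) hxS (ky_mono hn)
  · refine anti (j₀, B₀) (i₀, A₀) ⟨hA, hAs⟩ ?_
    simp only [hκ, ky]
    rw [Prod.Lex.toLex_lt_toLex]
    left
    unfold cls
    rw [if_pos (Or.inl rfl), if_neg, if_pos (Or.inl rfl)]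
    · exact one_pos
    · rintro (h | h)
      · rw [Prod.ext_iff] at h
        have h2 : A₀ = B₀ := h.2
        rw [h2, Nrm.X_self] at hX
        exact absurd hX (by norm_num)
      · exact (not_nst_of_X hX).1 h
  · intro k C hC hCs hXC hne hnn
    refine anti (i₀, A₀) (k, C) ⟨hC, hCs⟩ ?_
    simp only [hκ, ky]
    rw [Prod.Lex.toLex_lt_toLex]
    left
    have e1 : cls (i₀, A₀) (j₀, B₀) (i₀, A₀) ≤ 1 := by
      unfold cls
      rw [if_pos (Or.inl rfl : (i₀, A₀) = (i₀, A₀) ∨ Nst (i₀, A₀).2 (i₀, A₀).2)]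
      split_ifs <;> omega
    have e2 : cls (i₀, A₀) (j₀, B₀) (k, C) = 2 := by
      unfold cls
      rw [if_neg, if_neg]
      · rintro (h | h)
        · rw [Prod.ext_iff] at h
          have h2 : C = A₀ := h.2
          rw [h2, Nrm.X_self] at hXC
          exact absurd hXC (by norm_num)
        · exact (not_nst_of_X hXC).2 h
      · rintro (h | h)
        · rw [Prod.ext_iff] at h
          rcases hne with h3 | h3
          · exact h3 h.1
          · exact h3 h.2
        · exact hnn h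
    change cls (i₀, A₀) (j₀, B₀) (i₀, A₀) < cls (i₀, A₀) (j₀, B₀) (k, C)
    rw [e2]
    omega

end

end TA
end MP881e12
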