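import Pool.Agent.Lib.MP_881e12_lc.TA.R1
import Pool.Agent.Lib.MP_881e12_lc.TA.R2
import Pool.Agent.Lib.MP_881e12_lc.TA.R3

/-!
One step of the refinement.
-/

namespace MP881e12
namespace TA

open MP60f107 Finset
open MP60f107.Contr (sw pr ht mk)

section

variable {V ι L : Type} [LinearOrder L] {N : Net V ι}

theorem cutD_crL (hN : ∀ i, N.src i ≠ N.tgt i) (D : Drawing N L) {π : Bool} {c : L}
    {ρ : ι → Arc L → ℤ} (h : CutOK D π c ρ) (i j : ι) :
    crL ((cutD hN D h).path i) ((cutD hN D h).path j) ≤ crL (D.path i) (D.path j) := by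
  rw [cutD_path, cutD_path]
  refine Fg.crL_flatMap_le _ _ _ _ fun A hA B hB => ?_
  by_cases he : i = j ∧ A = B
  · obtain ⟨rfl, rfl⟩ := he
    rw [cut_self π c A (h.fresh i A hA) _ (h.pos i A)]
    exact Nat.zero_le _
  · refine cut_cross π c A B (h.fresh i A hA) (h.fresh j B hB) _ _ (h.pos i A) (h.pos j B) ?_ ?_ ?_
    · intro a b e
      exact he (h.inj i j A hA B hB a b e)
    · intro a b e
      exact h.mono i j A hA B hB a b e
    · intro a b e
      exact h.mono j i B hB A hA b a e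

theorem cutD_img (hN : ∀ i, N.src i ≠ N.tgt i) (D : Drawing N L) {π : Bool} {c : L}
    {ρ : ι → Arc L → ℤ} (h : CutOK D π c ρ) (i j : ι) {A : Arc L} (hA : A ∈ D.path i) :
    crL (cutImg π c (ρ i A) A) ((cutD hN D h).path j) ≤ crL [A] (D.path j) := by
  rw [cutD_path]
  have e : cutImg π c (ρ i A) A = [A].flatMap (fun A => cutImg π c (ρ i A) A) := by simp
  rw [e]
  refine Fg.crL_flatMap_le _ _ _ _ fun A' hA' B hB => ?_
  obtain rfl : A' = A := by simpa using hA'
  by_cases he : i = j ∧ A' = B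
  · obtain ⟨rfl, rfl⟩ := he
    rw [cut_self π c A' (h.fresh i A' hA) _ (h.pos i A')]
    exact Nat.zero_le _
  · refine cut_cross π c A' B (h.fresh i A' hA) (h.fresh j B hB) _ _ (h.pos i A') (h.pos j B) ?_ ?_ ?_
    · intro a b e
      exact he (h.inj i j A' hA B hB a b e)
    · intro a b e
      exact h.mono i j A' hA B hB a b e
    · intro a b e
      exact h.mono j i B hB A' hA b a e

variable [Fintype ι]

theorem K_eq (D : Drawing N L) (P : List (Arc L)) : K D P = ∑ j, crL P (D.path j) := by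
  unfold K kap
  induction P with
  | nil => simp [crL]
  | cons A P ih =>
    rw [List.map_cons, List.sum_cons, ih, ← Finset.sum_add_distrib]
    exact Finset.sum_congr rfl fun j _ => (Nrm.crL_cons_left A P _).symm

theorem K_img (hN : ∀ i, N.src i ≠ N.tgt i) (D : Drawing N L) {π : Bool} {c : L}
    {ρ : ι → Arc L → ℤ} (h : CutOK D π c ρ) (i : ι) {A : Arc L} (hA : A ∈ D.path i) :
    K (cutD hN D h) (cutImg π c (ρ i A) A) ≤ kap D A := by
  rw [K_eq]
  exact Finset.sum_le_sum fun j _ => cutD_img hN D h i j hA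

theorem sum_sq_le {M : Type} (P : List M) (f : M → ℕ) :
    (P.map fun A => f A ^ 2).sum ≤ (P.map f).sum ^ 2 := by
  induction P with
  | nil => simp
  | cons A P ih =>
    simp only [List.map_cons, List.sum_cons]
    have h := Nat.zero_le (2 * f A * (P.map f).sum)
    have e : (f A + (P.map f).sum) ^ 2 = f A ^ 2 + 2 * f A * (P.map f).sum + (P.map f).sum ^ 2 := by
      ring
    omega

theorem sum_flatMap_map {M M' : Type} (P : List M) (f : M → List M') (g : M' → ℕ) :
    ((P.flatMap f).map g).sum = (P.map fun A => ((f A).map g).sum).sum := by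
  induction P with
  | nil => simp
  | cons A P ih => simp [ih]

theorem phi_cutD (hN : ∀ i, N.src i ≠ N.tgt i) (D : Drawing N L) {π : Bool} {c : L}
    {ρ : ι → Arc L → ℤ} (h : CutOK D π c ρ) :
    phi (cutD hN D h) = ∑ i, ((D.path i).map fun A =>
      ((cutImg π c (ρ i A) A).map fun Y => kap (cutD hN D h) Y ^ 2).sum).sum := by
  unfold phi
  refine Finset.sum_congr rfl fun i _ => ?_
  rw [cutD_path, sum_flatMap_map]

theorem phi_lt (hN : ∀ i, N.src i ≠ N.tgt i) (D : Drawing N L) {π : Bool} {c : L}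
    {ρ : ι → Arc L → ℤ} (h : CutOK D π c ρ) {i : ι} {A : Arc L} (hA : A ∈ D.path i)
    {Y₁ F Y₂ : Arc (L ×ₗ ℤ)} (he : cutImg π c (ρ i A) A = [Y₁, F, Y₂])
    (h₁ : 0 < kap (cutD hN D h) Y₁) (h₂ : 0 < kap (cutD hN D h) Y₂) :
    phi (cutD hN D h) < phi D := by
  have key : ∀ i, ∀ A ∈ D.path i, ((cutImg π c (ρ i A) A).map
      fun Y => kap (cutD hN D h) Y ^ 2).sum ≤ kap D A ^ 2 := fun i A hA =>
    (sum_sq_le _ _).trans (Nat.pow_le_pow_left (K_img hN D h i hA) 2)
  have strict : ((cutImg π c (ρ i A) A).map fun Y => kap (cutD hN D h) Y ^ 2).sum <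
      kap D A ^ 2 := by
    refine lt_of_lt_of_le ?_ (Nat.pow_le_pow_left (K_img hN D h i hA) 2)
    unfold K
    rw [he]
    simp only [List.map_cons, List.map_nil, List.sum_cons, List.sum_nil, add_zero]
    generalize kap (cutD hN D h) Y₁ = x at *
    generalize kap (cutD hN D h) Y₂ = y at *
    generalize kap (cutD hN D h) F = z at *
    have e : (x + (z + y)) ^ 2 = x ^ 2 + (z ^ 2 + y ^ 2) + (2 * (x * y) + 2 * (x * z) + 2 * (z * y)) := by
      ring
    have : 0 < x * y := Nat.mul_pos h₁ h₂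
    omega
  rw [phi_cutD]
  unfold phi
  refine Finset.sum_lt_sum (fun j _ => ?_) ⟨i, Finset.mem_univ i, ?_⟩
  · exact List.sum_le_sum fun B hB => key j B hB
  · obtain ⟨P₁, P₂, hP⟩ := List.append_of_mem hA
    have k := key i
    rw [hP] at k ⊢
    simp only [List.map_append, List.map_cons, List.sum_append, List.sum_cons]
    have a1 : (P₁.map fun A => ((cutImg π c (ρ i A) A).map
        fun Y => kap (cutD hN D h) Y ^ 2).sum).sum ≤ (P₁.map fun A => kap D A ^ 2).sum :=
      List.sum_le_sum fun B hB => k B (List.mem_append_left _ hB)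
    have a2 : (P₂.map fun A => ((cutImg π c (ρ i A) A).map
        fun Y => kap (cutD hN D h) Y ^ 2).sum).sum ≤ (P₂.map fun A => kap D A ^ 2).sum :=
      List.sum_le_sum fun B hB => k B (List.mem_append_right _ (List.mem_cons_of_mem _ hB))
    omega

/-! ### the drawing at height 0 -/

omit [Fintype ι] in
theorem mono0 : StrictMono (fun p : L => (mk p 0 : L ×ₗ ℤ)) := fun _ _ h => (mk00 _ _).2 h

omit [Fintype ι] in
theorem lift_path (D : Drawing N L) (i : ι) : (lift D).path i = (D.path i).map up0 :=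
  (Fg.arcs_map (fun p : L => (mk p 0 : L ×ₗ ℤ)) _ _ _ _).symm ▸ rfl

omit [Fintype ι] in
theorem X_up0 (A B : Arc L) : X (up0 A) (up0 B) = X A B :=
  Fg.X_map (φ := fun p : L => (mk p 0 : L ×ₗ ℤ)) mono0 A B

omit [Fintype ι] in
theorem crL_up0 (P Q : List (Arc L)) : crL (P.map up0) (Q.map up0) = crL P Q :=
  Fg.crL_map (φ := fun p : L => (mk p 0 : L ×ₗ ℤ)) mono0 P Q

theorem kap_lift (D : Drawing N L) (A : Arc L) : kap (lift D) (up0 A) = kap D A := by
  unfold kap
  refine Finset.sum_congr rfl fun j _ => ?_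
  rw [lift_path]
  exact crL_up0 [A] _

theorem phi_lift (D : Drawing N L) : phi (lift D) = phi D := by
  unfold phi
  refine Finset.sum_congr rfl fun i _ => ?_
  rw [lift_path, List.map_map]
  congr 1
  refine List.map_congr_left fun A _ => ?_
  simp only [Function.comp_apply, kap_lift]

theorem kap_pos {D : Drawing N L} {A B : Arc L} {j : ι} (hB : B ∈ D.path j) (h : X A B = 1) :
    0 < kap D A := by
  unfold kap
  refine lt_of_lt_of_le ?_ (Finset.single_le_sum (f := fun j => crL [A] (D.path j))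
    (fun _ _ => Nat.zero_le _) (Finset.mem_univ j))
  have := Nrm.X_le_crL (A := A) (B := B) (P := [A]) (Q := D.path j) (by simp) hB
  omega

end

end TA
end MP881e12
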