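import Pool.Agent.Lib.MP_881e12_lc.TA.R4

/-!
The refinement.
-/

namespace MP881e12
namespace TA

open MP60f107 Finset
open MP60f107.Contr (sw pr ht mk)

section

variable {V ι L : Type} [LinearOrder L] {N : Net V ι}

theorem img_pieces {π : Bool} {c : L} {A : Arc L} (r : ℤ) (h : Spn π c A) :
    ∃ Yl F Yr : Arc (L ×ₗ ℤ),
      (cutImg π c r A = [Yl, F, Yr] ∨ cutImg π c r A = [Yr, F, Yl]) ∧
      (∀ Z, X Yl Z = X ⟨mk (min A.p A.q) 0, mk c (-r), π⟩ Z) ∧
      (∀ Z, X Yr Z = X ⟨mk c r, mk (max A.p A.q) 0, π⟩ Z) := by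
  rcases cutImg_cases π c r A with ⟨a1, a4⟩ | ⟨a1, a2, a3, a4⟩ | ⟨a1, a2, a3, a4⟩
  · exact absurd h a1
  · refine ⟨_, _, _, Or.inl a4, ?_, ?_⟩
    · intro Z; rw [min_eq_left (a2.trans a3).le]
    · intro Z; rw [max_eq_right (a2.trans a3).le]
  · refine ⟨_, _, _, Or.inr a4, ?_, ?_⟩
    · intro Z; rw [min_eq_right (a2.trans a3).le, X_swl]
    · intro Z; rw [max_eq_left (a2.trans a3).le, X_swl]

theorem X_left {c p p' : L} {r r' : ℤ} (π : Bool) (h : p < c) (h2 : p' < p) (h3 : r < r') :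
    X (⟨mk p 0, mk c (-r), π⟩ : Arc (L ×ₗ ℤ)) ⟨mk p' 0, mk c (-r'), π⟩ = 1 := by
  have h' := h2.trans h
  unfold X Ilv MP60f107.Btw Ots
  simp only [mk00, mk0r _ _ _ h.ne, mk0r _ _ _ h'.ne, mkr0 _ _ _ h.ne, mkr0 _ _ _ h'.ne, mkrr]
  rw [if_pos]
  grind (splits := 30)

theorem X_right {c q q' : L} {r r' : ℤ} (π : Bool) (h : c < q) (h' : c < q') (h2 : q' < q)
    (h3 : r' < r) :
    X (⟨mk c r, mk q 0, π⟩ : Arc (L ×ₗ ℤ)) ⟨mk c r', mk q' 0, π⟩ = 1 := by
  unfold X Ilv MP60f107.Btw Ots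
  simp only [mk00, mk0r _ _ _ h.ne', mk0r _ _ _ h'.ne', mkr0 _ _ _ h.ne', mkr0 _ _ _ h'.ne', mkrr]
  rw [if_pos]
  grind (splits := 30)

theorem X_right' {c q x y : L} {r : ℤ} (π : Bool) (h : c < x) (h' : x < q) (h2 : q < y) :
    X (⟨mk c r, mk q 0, π⟩ : Arc (L ×ₗ ℤ)) ⟨mk x 0, mk y 0, π⟩ = 1 := by
  have a := h.trans h'
  have b := a.trans h2
  unfold X Ilv MP60f107.Btw Ots
  simp only [mk00, mk0r _ _ _ h.ne', mk0r _ _ _ a.ne', mk0r _ _ _ b.ne', mkr0 _ _ _ h.ne',
    mkr0 _ _ _ a.ne', mkr0 _ _ _ b.ne', mkrr]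
  rw [if_pos]
  grind (splits := 30)

theorem Ilv_minmax {a b c d : L} (h : Ilv a b c d) : (min c d < min a b ∧ min a b < max c d ∧
    max c d < max a b) ∨ (min a b < min c d ∧ min c d < max a b ∧ max a b < max c d) := by
  unfold Ilv MP60f107.Btw Ots at h
  simp only [min_def, max_def]
  grind (splits := 60)

variable [Fintype ι]

/-- One cut at `c` with the numbering of `exists_numbering`. -/
theorem step_at (hN : ∀ i, N.src i ≠ N.tgt i) (D : Drawing N L) (π : Bool) (c : L)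
    (hc : ∀ i, ∀ A ∈ D.path i, A.p ≠ c ∧ A.q ≠ c) {i j k : ι} {A B C : Arc L}
    (hA : A ∈ D.path i) (hB : B ∈ D.path j) (hC : C ∈ D.path k) (hAs : Spn π c A)
    (hBs : Spn π c B) (hAB : X A B = 1) (hl : min B.p B.q < min A.p A.q) (hAC : X A C = 1)
    (hC2 : (Spn π c C ∧ (k ≠ j ∨ C ≠ B) ∧ ¬ Nst C B ∧ max C.p C.q < max A.p A.q) ∨
      (c < min C.p C.q ∧ min C.p C.q < max A.p A.q ∧ max A.p A.q < max C.p C.q)) :
    ∃ (ρ : ι → Arc L → ℤ) (h : CutOK D π c ρ), phi (cutD hN D h) < phi D := by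
  obtain ⟨ρ, h, h1, h2⟩ := exists_numbering hN D π c hc i j A B hA hB hAs hBs hAB
  refine ⟨ρ, h, ?_⟩
  have hup : A.up = C.up := (Nrm.X_ne.1 (by rw [hAC]; exact one_ne_zero)).1
  have hAπ : A.up = π := hAs.1
  obtain ⟨Al, AF, Ar, eA, eAl, eAr⟩ := img_pieces (ρ i A) hAs
  obtain ⟨Bl, BF, Br, eB, eBl, eBr⟩ := img_pieces (ρ j B) hBs
  have spanA : min A.p A.q < c ∧ c < max A.p A.q := by
    rcases hAs.2 with ⟨a, b⟩ | ⟨a, b⟩
    · exact ⟨lt_of_le_of_lt (min_le_left _ _) a, lt_of_lt_of_le b (le_max_right _ _)⟩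
    · exact ⟨lt_of_le_of_lt (min_le_right _ _) a, lt_of_lt_of_le b (le_max_left _ _)⟩
  have memB : ∀ Y ∈ cutImg π c (ρ j B) B, Y ∈ (cutD hN D h).path j := by
    intro Y hY
    rw [cutD_path]
    exact List.mem_flatMap.2 ⟨B, hB, hY⟩
  have memC : ∀ Y ∈ cutImg π c (ρ k C) C, Y ∈ (cutD hN D h).path k := by
    intro Y hY
    rw [cutD_path]
    exact List.mem_flatMap.2 ⟨C, hC, hY⟩
  have posl : 0 < kap (cutD hN D h) Al := by
    refine kap_pos (j := j) (B := Bl) (memB _ ?_) ?_
    · rcases eB with e | e <;> rw [e] <;> simp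
    · rw [eAl, Nrm.X_comm, eBl, Nrm.X_comm]
      exact X_left π spanA.1 hl h1
  have posr : 0 < kap (cutD hN D h) Ar := by
    rcases hC2 with ⟨c1, c2, c3, c4⟩ | ⟨c1, c2, c3⟩
    · obtain ⟨Cl, CF, Cr, eC, eCl, eCr⟩ := img_pieces (ρ k C) c1
      refine kap_pos (j := k) (B := Cr) (memC _ ?_) ?_
      · rcases eC with e | e <;> rw [e] <;> simp
      · rw [eAr, Nrm.X_comm, eCr, Nrm.X_comm]
        have spanC : c < max C.p C.q := by
          rcases c1.2 with ⟨a, b⟩ | ⟨a, b⟩
          · exact lt_of_lt_of_le b (le_max_right _ _)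
          · exact lt_of_lt_of_le b (le_max_left _ _)
        exact X_right π spanA.2 spanC c4 (h2 k C hC c1 hAC c2 c3)
    · have hns : ¬ Spn π c C := by
        rintro ⟨-, ⟨a, b⟩ | ⟨a, b⟩⟩
        · exact absurd (lt_of_lt_of_le c1 (min_le_left _ _)) (not_lt.2 a.le)
        · exact absurd (lt_of_lt_of_le c1 (min_le_right _ _)) (not_lt.2 a.le)
      have eC : cutImg π c (ρ k C) C = [⟨mk C.p 0, mk C.q 0, C.up⟩] := by
        rcases cutImg_cases π c (ρ k C) C with ⟨a1, a4⟩ | ⟨a1, a2, a3, a4⟩ | ⟨a1, a2, a3, a4⟩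
        · exact a4
        · exact absurd ⟨a1, Or.inl ⟨a2, a3⟩⟩ hns
        · exact absurd ⟨a1, Or.inr ⟨a2, a3⟩⟩ hns
      refine kap_pos (j := k) (B := ⟨mk C.p 0, mk C.q 0, C.up⟩) (memC _ (by rw [eC]; simp)) ?_
      rw [eAr, ← hup, hAπ]
      rcases le_total C.p C.q with hpq | hpq
      · rw [min_eq_left hpq] at c1 c2
        rw [max_eq_right hpq] at c3
        exact X_right' π c1 c2 c3
      · rw [min_eq_right hpq] at c1 c2
        rw [max_eq_left hpq] at c3
        rw [X_swr]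
        exact X_right' π c1 c2 c3
  rcases eA with e | e
  · exact phi_lt hN D h hA e posl posr
  · exact phi_lt hN D h hA e posr posl

/-- The conclusion of one step. -/
def Better (D : Drawing N L) : Prop :=
  ∃ (L' : Type) (_ : LinearOrder L') (D' : Drawing N L'),
    (∀ i j, crL (D'.path i) (D'.path j) ≤ crL (D.path i) (D.path j)) ∧
    (∀ i, Alt (D'.inner i) (D'.last i)) ∧ phi D' < phi D

omit [Fintype ι] in
theorem alt_lift (D : Drawing N L) (i : ι) (h : Alt (D.inner i) (D.last i)) :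
    Alt ((lift D).inner i) ((lift D).last i) := by
  change Alt ((D.inner i).map fun x => (x.1, (mk x.2 0 : L ×ₗ ℤ))) (D.last i)
  generalize D.inner i = r at *
  induction r with
  | nil => exact h
  | cons x r ih =>
    rw [alt_cons] at h
    rw [List.map_cons, alt_cons]
    refine ⟨?_, ih h.2⟩
    have := h.1
    cases r <;> exact this

omit [Fintype ι] in
theorem min0 (a b : L) : min (mk a 0 : L ×ₗ ℤ) (mk b 0) = mk (min a b) 0 :=
  ((mono0 (L := L)).monotone.map_min (a := a) (b := b)).symm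

omit [Fintype ι] in
theorem max0 (a b : L) : max (mk a 0 : L ×ₗ ℤ) (mk b 0) = mk (max a b) 0 :=
  ((mono0 (L := L)).monotone.map_max (a := a) (b := b)).symm

omit [Fintype ι] in
theorem btw_of {M : Type} [LinearOrder M] {a b c : M} (h : min a b < c) (h' : c < max a b) :
    MP60f107.Btw a b c := by
  unfold MP60f107.Btw
  rcases le_total a b with hab | hab
  · rw [min_eq_left hab] at h
    rw [max_eq_right hab] at h'
    exact Or.inl ⟨h, h'⟩
  · rw [min_eq_right hab] at h
    rw [max_eq_left hab] at h'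
    exact Or.inr ⟨h, h'⟩

omit [Fintype ι] in
theorem Nst.irrefl {A B : Arc L} (h : Nst A B) (h' : Nst B A) : False := by
  obtain ⟨h1, h2, h3⟩ := h
  obtain ⟨k1, k2, k3⟩ := h'
  rcases h3 with h3 | h3
  · exact absurd h3 (not_lt.2 k1)
  · exact absurd h3 (not_lt.2 k2)

omit [Fintype ι] in
theorem nst_up0 {A B : Arc L} (h : Nst (up0 A) (up0 B)) : Nst A B := by
  unfold Nst up0 at h
  simp only [min0, max0, mk00] at h
  obtain ⟨h1, h2, h3⟩ := h
  exact ⟨mono0.le_iff_le.1 h1, mono0.le_iff_le.1 h2, h3⟩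

omit [Fintype ι] [LinearOrder L] in
theorem up0_inj {A B : Arc L} (h : up0 A = up0 B) : A = B := by
  obtain ⟨p, q, u⟩ := A
  obtain ⟨p', q', u'⟩ := B
  unfold up0 at h
  simp only [Arc.mk.injEq] at h ⊢
  exact ⟨congrArg pr h.1, congrArg pr h.2.1, h.2.2⟩

/-- The step when `B` reaches out to the left of `A`. -/
theorem step_left (hN : ∀ i, N.src i ≠ N.tgt i) (D : Drawing N L)
    (hD : ∀ i, Alt (D.inner i) (D.last i)) {i j k : ι} {A B C : Arc L}
    (hA : A ∈ D.path i) (hB : B ∈ D.path j) (hC : C ∈ D.path k) (hAB : X A B = 1)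
    (hAC : X A C = 1) (hne : j ≠ k ∨ B ≠ C) (hl : min B.p B.q < min A.p A.q) : Better D := by
  -- one may assume that `C` is not nested in `B`
  wlog hn : ¬ Nst C B generalizing j k B C with H
  · rw [not_not] at hn
    refine H hC hB hAC hAB ?_ ?_ ?_
    · rcases hne with h | h
      · exact Or.inl (Ne.symm h)
      · exact Or.inr (Ne.symm h)
    · obtain ⟨h1, h2, h3⟩ := hn
      have hc := Ilv_minmax (Nrm.X_ne.1 (by rw [hAC]; exact one_ne_zero : X A C ≠ 0)).2
      have hb := Ilv_minmax (Nrm.X_ne.1 (by rw [hAB]; exact one_ne_zero : X A B ≠ 0)).2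
      rcases hc with hc | hc
      · exact hc.1
      · exfalso
        rcases hb with hb | hb
        · exact absurd (hc.2.2.trans_le h2) (not_lt.2 hb.2.2.le)
        · exact absurd hl (not_lt.2 hb.1.le)
    · exact fun h => hn.irrefl h
  have hb := Ilv_minmax (Nrm.X_ne.1 (by rw [hAB]; exact one_ne_zero : X A B ≠ 0)).2
  have hc := Ilv_minmax (Nrm.X_ne.1 (by rw [hAC]; exact one_ne_zero : X A C ≠ 0)).2
  have upB : A.up = B.up := (Nrm.X_ne.1 (by rw [hAB]; exact one_ne_zero)).1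
  have upC : A.up = C.up := (Nrm.X_ne.1 (by rw [hAC]; exact one_ne_zero)).1
  have hb' : min A.p A.q < max B.p B.q ∧ max B.p B.q < max A.p A.q := by
    rcases hb with hb | hb
    · exact hb.2
    · exact absurd hl (not_lt.2 hb.1.le)
  set c : L ×ₗ ℤ := mk (min A.p A.q) 1 with hcdef
  have lt1 : ∀ x : L, (mk x 0 : L ×ₗ ℤ) < c ↔ x ≤ min A.p A.q := by
    intro x
    rw [hcdef, Contr.lt_iff]
    simp only [Contr.pr_mk, Contr.ht_mk, zero_lt_one, and_true]
    exact le_iff_lt_or_eq.symm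
  have lt2 : ∀ x : L, c < (mk x 0 : L ×ₗ ℤ) ↔ min A.p A.q < x := by
    intro x
    rw [hcdef, Contr.lt_iff]
    simp
  have hcf : ∀ i, ∀ A ∈ (lift D).path i, A.p ≠ c ∧ A.q ≠ c := by
    intro i A' hA'
    rw [lift_path] at hA'
    obtain ⟨A'', -, rfl⟩ := List.mem_map.1 hA'
    constructor <;> intro e <;> exact absurd (congrArg ht e) (by simp [up0, hcdef])
  have mem : ∀ {i : ι} {A : Arc L}, A ∈ D.path i → up0 A ∈ (lift D).path i := by
    intro i A hA
    rw [lift_path]
    exact List.mem_map_of_mem hA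
  have loA : min A.p A.q < max A.p A.q := hb'.1.trans hb'.2
  obtain ⟨ρ, h, hphi⟩ := step_at hN (lift D) A.up c hcf (mem hA) (mem hB) (mem hC)
    ⟨rfl, btw_of (by simp only [up0, min0]; exact (lt1 _).2 le_rfl)
      (by simp only [up0, max0]; exact (lt2 _).2 loA)⟩
    ⟨upB.symm, btw_of (by simp only [up0, min0]; exact (lt1 _).2 hl.le)
      (by simp only [up0, max0]; exact (lt2 _).2 hb'.1)⟩
    (by rw [X_up0]; exact hAB) (by simp only [up0, min0]; exact (mk00 _ _).2 hl)
    (by rw [X_up0]; exact hAC) (by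
      rcases hc with hc | hc
      · left
        refine ⟨⟨upC.symm, btw_of (by simp only [up0, min0]; exact (lt1 _).2 hc.1.le)
          (by simp only [up0, max0]; exact (lt2 _).2 hc.2.1)⟩, ?_, fun h => hn (nst_up0 h), ?_⟩
        · rcases hne with h | h
          · exact Or.inl (Ne.symm h)
          · exact Or.inr fun e => h (up0_inj e).symm
        · simp only [up0, max0]; exact (mk00 _ _).2 hc.2.2
      · right
        simp only [up0, min0, max0]
        exact ⟨(lt2 _).2 hc.1, (mk00 _ _).2 hc.2.1, (mk00 _ _).2 hc.2.2⟩)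
  refine ⟨_, inferInstance, cutD hN (lift D) h, fun i j => ?_, fun i => ?_, ?_⟩
  · refine (cutD_crL hN (lift D) h i j).trans ?_
    rw [lift_path, lift_path, crL_up0]
  · exact alt_cutD hN (lift D) h i (alt_lift D i (hD i))
  · rw [← phi_lift D]
    exact hphi

/-! ### duality -/

theorem kap_dual (D : Drawing N L) (A : Arc L) :
    kap (Fg.dual D) (A.map OrderDual.toDual) = kap D A := by
  unfold kap
  refine Finset.sum_congr rfl fun j _ => ?_
  rw [Fg.dual_path]
  exact Fg.crL_anti (φ := (OrderDual.toDual : L → Lᵒᵈ)) (fun a b h => h) [A] _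

theorem phi_dual (D : Drawing N L) : phi (Fg.dual D) = phi D := by
  unfold phi
  refine Finset.sum_congr rfl fun i _ => ?_
  rw [Fg.dual_path, List.map_map]
  congr 1
  refine List.map_congr_left fun A _ => ?_
  simp only [Function.comp_apply, kap_dual]

theorem better_dual {D : Drawing N L} (h : Better (Fg.dual D)) : Better D := by
  obtain ⟨L', inst, D', h1, h2, h3⟩ := h
  refine ⟨L', inst, D', fun i j => (h1 i j).trans (le_of_eq ?_), h2, by rwa [phi_dual] at h3⟩
  rw [Fg.dual_path, Fg.dual_path]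
  exact Fg.crL_anti (φ := (OrderDual.toDual : L → Lᵒᵈ)) (fun a b h => h) _ _

omit [Fintype ι] in
theorem alt_dual (D : Drawing N L) (i : ι) (h : Alt (D.inner i) (D.last i)) :
    Alt ((Fg.dual D).inner i) ((Fg.dual D).last i) := by
  change Alt (mapPts OrderDual.toDual (D.inner i)) (D.last i)
  unfold mapPts
  generalize D.inner i = r at *
  induction r with
  | nil => exact h
  | cons x r ih =>
    rw [alt_cons] at h
    rw [List.map_cons, alt_cons]
    refine ⟨?_, ih h.2⟩
    have := h.1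
    cases r <;> exact this

omit [Fintype ι] in
theorem path_nodup (hN : ∀ i, N.src i ≠ N.tgt i) (D : Drawing N L) (i : ι) : (D.path i).Nodup := by
  have h := path_nodup_pts hN D i
  unfold Drawing.path
  generalize D.pos (N.src i) = a at *
  generalize D.inner i = r at *
  induction r generalizing a with
  | nil => simp [arcs]
  | cons x r ih =>
    obtain ⟨s₁, p⟩ := x
    simp only [List.map_cons, List.cons_append] at h
    rw [List.nodup_cons] at h
    simp only [arcs, List.nodup_cons]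
    refine ⟨fun hm => ?_, ih p h.2⟩
    apply h.1
    rcases Fg.mem_arcs_left hm with h' | ⟨w, hw, h'⟩
    · simp only at h'; rw [h']; simp
    · simp only at h'; rw [h']
      exact List.mem_cons_of_mem _ (List.mem_append_left _ (List.mem_map_of_mem hw))

/-- An arc with at least two crossings is crossed by two different arcs. -/
theorem exists_two (hN : ∀ i, N.src i ≠ N.tgt i) (D : Drawing N L) {A : Arc L} (h : 2 ≤ kap D A) :
    ∃ j k, ∃ B ∈ D.path j, ∃ C ∈ D.path k, X A B = 1 ∧ X A C = 1 ∧ (j ≠ k ∨ B ≠ C) := by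
  classical
  have one : ∀ B : Arc L, X A B ≠ 0 → X A B = 1 := fun B h => by
    have := Nrm.X_le_one A B
    omega
  have pos : kap D A ≠ 0 := by omega
  unfold kap at pos h
  obtain ⟨j, -, hj⟩ := Finset.exists_ne_zero_of_sum_ne_zero pos
  obtain ⟨A', hA', B, hB, hAB⟩ := Nrm.exists_of_crL_ne hj
  obtain rfl : A' = A := by simpa using hA'
  by_contra hcon
  push Not at hcon
  have hz : ∀ k, k ≠ j → crL [A'] (D.path k) = 0 := by
    intro k hk
    by_contra hne
    obtain ⟨A'', hA'', C, hC, hAC⟩ := Nrm.exists_of_crL_ne hne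
    obtain rfl : A'' = A' := by simpa using hA''
    exact hk (hcon j k B hB C hC (one _ hAB) (one _ hAC)).1.symm
  have hsum : ∑ k, crL [A'] (D.path k) = crL [A'] (D.path j) :=
    Finset.sum_eq_single j (fun k _ hk => hz k hk) (fun h => absurd (Finset.mem_univ j) h)
  rw [hsum] at h
  obtain ⟨Q1, Q2, hQ⟩ := List.append_of_mem hB
  have hnd := path_nodup hN D j
  rw [hQ, List.nodup_append, List.nodup_cons] at hnd
  have hz' : ∀ Q : List (Arc L), (∀ C ∈ Q, C ∈ D.path j) → B ∉ Q → crL [A'] Q = 0 := by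
    intro Q hQ hBQ
    by_contra hne
    obtain ⟨A'', hA'', C, hC, hAC⟩ := Nrm.exists_of_crL_ne hne
    obtain rfl : A'' = A' := by simpa using hA''
    have := (hcon j j B hB C (hQ C hC) (one _ hAB) (one _ hAC)).2
    exact hBQ (this ▸ hC)
  have e1 := hz' Q1 (fun C hC => by rw [hQ]; simp [hC]) (fun h' => hnd.2.2 B h' B (by simp) rfl)
  have e2 := hz' Q2 (fun C hC => by rw [hQ]; simp [hC]) hnd.2.1.1
  rw [hQ, Nrm.crL_append_right, Nrm.crL_cons_right, e1, e2, Nrm.crL_single, one _ hAB] at h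
  omega

/-- A drawing that is not refined can be improved. -/
theorem refine_step (hN : ∀ i, N.src i ≠ N.tgt i) (D : Drawing N L)
    (hD : ∀ i, Alt (D.inner i) (D.last i)) (h : ¬ Refined D) : Better D := by
  unfold Refined at h
  push Not at h
  obtain ⟨i, A, hA, h2⟩ := h
  obtain ⟨j, k, B, hB, C, hC, hAB, hAC, hne⟩ := exists_two hN D h2
  have hb := Ilv_minmax (Nrm.X_ne.1 (by rw [hAB]; exact one_ne_zero : X A B ≠ 0)).2
  have hc := Ilv_minmax (Nrm.X_ne.1 (by rw [hAC]; exact one_ne_zero : X A C ≠ 0)).2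
  rcases hb with hb | hb
  · exact step_left hN D hD hA hB hC hAB hAC hne hb.1
  rcases hc with hc | hc
  · refine step_left hN D hD hA hC hB hAC hAB ?_ hc.1
    rcases hne with h | h
    · exact Or.inl (Ne.symm h)
    · exact Or.inr (Ne.symm h)
  -- both reach out to the right: reverse the spine
  apply better_dual
  have mem : ∀ {i : ι} {A : Arc L}, A ∈ D.path i →
      A.map OrderDual.toDual ∈ (Fg.dual D).path i := by
    intro i A hA
    rw [Fg.dual_path]
    exact List.mem_map_of_mem hA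
  have hX : ∀ A B : Arc L, X (A.map (OrderDual.toDual : L → Lᵒᵈ)) (B.map OrderDual.toDual) = X A B :=
    fun A B => Fg.X_anti (φ := (OrderDual.toDual : L → Lᵒᵈ)) (fun a b h => h) A B
  refine step_left hN (Fg.dual D) (fun i => alt_dual D i (hD i)) (mem hA) (mem hB) (mem hC)
    (by rw [hX]; exact hAB) (by rw [hX]; exact hAC) ?_ ?_
  · rcases hne with h | h
    · exact Or.inl h
    · refine Or.inr fun e => h ?_
      obtain ⟨p, q, u⟩ := B
      obtain ⟨p', q', u'⟩ := C
      simp only [Arc.map, Arc.mk.injEq, EmbeddingLike.apply_eq_iff_eq] at e ⊢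
      exact e
  · have e1 : ∀ x y : L, min (OrderDual.toDual x) (OrderDual.toDual y) =
        OrderDual.toDual (max x y) := fun x y => rfl
    simp only [Arc.map, e1]
    exact OrderDual.toDual_lt_toDual.2 hb.2.2

/-- Every drawing with alternating pages has a refinement. -/
theorem exists_refined (hN : ∀ i, N.src i ≠ N.tgt i) (D : Drawing N L)
    (hD : ∀ i, Alt (D.inner i) (D.last i)) :
    ∃ (L' : Type) (_ : LinearOrder L') (D' : Drawing N L'),
      (∀ i j, crL (D'.path i) (D'.path j) ≤ crL (D.path i) (D.path j)) ∧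
      (∀ i, Alt (D'.inner i) (D'.last i)) ∧ Refined D' := by
  induction hn : phi D using Nat.strong_induction_on generalizing L D with
  | _ n ih =>
  subst hn
  by_cases hr : Refined D
  · exact ⟨L, inferInstance, D, fun _ _ => le_rfl, hD, hr⟩
  · obtain ⟨L₁, inst₁, D₁, h1, h2, h3⟩ := refine_step hN D hD hr
    obtain ⟨L₂, inst₂, D₂, k1, k2, k3⟩ := @ih (phi D₁) h3 L₁ inst₁ D₁ h2 rfl
    exact ⟨L₂, inst₂, D₂, fun i j => (k1 i j).trans (h1 i j), k2, k3⟩

end

end TA
end MP881e12
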