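import Pool.Agent.Lib.MP_881e12_lc.TA.O1

/-!
The cost of one step.
-/

namespace MP881e12
namespace TA

open MP60f107 Finset
open MP60f107.Contr (sw pr ht mk)

section

variable {V ι L : Type} [LinearOrder L] {N : Net V ι}

omit [LinearOrder L] in
/-- Two different arcs of an alternating chain with a common inner point are in different pages. -/
theorem alt_share {a b : L} {r : List (Bool × L)} {s : Bool} (halt : Alt r s)
    (hnd : (a :: (r.map Prod.snd ++ [b])).Nodup) {A C : Arc L} (hA : A ∈ arcs a r s b)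
    (hC : C ∈ arcs a r s b) {z : L} (hzA : A.p = z ∨ A.q = z) (hzC : C.p = z ∨ C.q = z)
    (hza : z ≠ a) (hzb : z ≠ b) : A = C ∨ A.up ≠ C.up := by
  induction r generalizing a with
  | nil =>
    simp only [arcs, List.mem_singleton] at hA hC
    left; rw [hA, hC]
  | cons x r ih =>
    obtain ⟨s₁, p⟩ := x
    rw [alt_cons] at halt
    simp only [List.map_cons, List.cons_append] at hnd
    rw [List.nodup_cons] at hnd
    simp only [arcs, List.mem_cons] at hA hC
    -- the first arc and an arc of the rest with the common point `z`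
    have key : ∀ B ∈ arcs p r s b, (B.p = z ∨ B.q = z) →
        ((⟨a, p, s₁⟩ : Arc L).p = z ∨ (⟨a, p, s₁⟩ : Arc L).q = z) → s₁ ≠ B.up := by
      intro B hB hzB hz1
      have hzp : z = p := by
        rcases hz1 with h | h
        · exact absurd h.symm hza
        · exact h.symm
      subst hzp
      cases r with
      | nil =>
        simp only [arcs, List.mem_singleton] at hB
        rw [hB]
        exact halt.1
      | cons y r =>
        obtain ⟨s₂, q⟩ := y
        simp only [arcs, List.mem_cons] at hB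
        rcases hB with rfl | hB
        · exact halt.1
        · exfalso
          rw [List.nodup_cons] at hnd
          apply hnd.2.1
          rcases hzB with h | h
          · rcases Fg.mem_arcs_left hB with h' | ⟨w, hw, h'⟩
            · rw [← h, h']; simp
            · rw [← h, h']
              simp only [List.map_cons, List.cons_append]
              exact List.mem_cons_of_mem _ (List.mem_append_left _ (List.mem_map_of_mem hw))
          · rcases Fg.mem_arcs_right hB with h' | ⟨w, hw, h'⟩
            · rw [← h, h']; simp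
            · rw [← h, h']
              simp only [List.map_cons, List.cons_append]
              exact List.mem_cons_of_mem _ (List.mem_append_left _ (List.mem_map_of_mem hw))
    rcases hA with rfl | hA <;> rcases hC with rfl | hC
    · exact Or.inl rfl
    · exact Or.inr (key C hC hzC hzA)
    · exact Or.inr (Ne.symm (key A hA hzA hzC))
    · by_cases hzp : z = p
      · subst hzp
        -- both arcs start at `z`
        have first : ∀ B ∈ arcs z r s b, (B.p = z ∨ B.q = z) →
            B = (arcs z r s b).head (by cases r <;> simp [arcs]) := by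
          intro B hB hzB
          cases r with
          | nil => simpa [arcs] using hB
          | cons y r =>
            obtain ⟨s₂, q⟩ := y
            simp only [arcs, List.mem_cons, List.head_cons] at hB ⊢
            rcases hB with rfl | hB
            · rfl
            · exfalso
              rw [List.nodup_cons] at hnd
              apply hnd.2.1
              rcases hzB with h | h
              · rcases Fg.mem_arcs_left hB with h' | ⟨w, hw, h'⟩
                · rw [← h, h']; simp
                · rw [← h, h']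
                  simp only [List.map_cons, List.cons_append]
                  exact List.mem_cons_of_mem _ (List.mem_append_left _ (List.mem_map_of_mem hw))
              · rcases Fg.mem_arcs_right hB with h' | ⟨w, hw, h'⟩
                · rw [← h, h']; simp
                · rw [← h, h']
                  simp only [List.map_cons, List.cons_append]
                  exact List.mem_cons_of_mem _ (List.mem_append_left _ (List.mem_map_of_mem hw))
        exact Or.inl ((first A hA hzA).trans (first C hC hzC).symm)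
      · exact ih halt.2 hnd.2 hA hC hzp

/-- An end of an arc is a vertex or an inner point of the edge. -/
theorem end_cases (D : Drawing N L) {i : ι} {A : Arc L} (hA : A ∈ D.path i) {z : L}
    (hz : A.p = z ∨ A.q = z) : z = D.pos (N.src i) ∨ z = D.pos (N.tgt i) ∨
      ∃ x ∈ D.inner i, z = x.2 := by
  rcases hz with h | h
  · rcases Fg.mem_arcs_left hA with h' | ⟨w, hw, h'⟩
    · exact Or.inl (by rw [← h, h'])
    · exact Or.inr (Or.inr ⟨w, hw, by rw [← h, h']⟩)
  · rcases Fg.mem_arcs_right hA with h' | ⟨w, hw, h'⟩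
    · exact Or.inr (Or.inl (by rw [← h, h']))
    · exact Or.inr (Or.inr ⟨w, hw, by rw [← h, h']⟩)

/-- Two arcs with a common end that is not a vertex: the same arc or different pages. -/
theorem share (hN : ∀ i, N.src i ≠ N.tgt i) {D : Drawing N L} (hD : Tidy D) {i j : ι}
    {A C : Arc L} (hA : A ∈ D.path i) (hC : C ∈ D.path j) {z : L} (hzA : A.p = z ∨ A.q = z)
    (hzC : C.p = z ∨ C.q = z) (hz : ∀ v, z ≠ D.pos v) : (i = j ∧ A = C) ∨ A.up ≠ C.up := by
  have h1 : ∃ x ∈ D.inner i, z = x.2 := by
    rcases end_cases D hA hzA with h | h | h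
    · exact absurd h (hz _)
    · exact absurd h (hz _)
    · exact h
  have h2 : ∃ x ∈ D.inner j, z = x.2 := by
    rcases end_cases D hC hzC with h | h | h
    · exact absurd h (hz _)
    · exact absurd h (hz _)
    · exact h
  obtain ⟨x, hx, ex⟩ := h1
  obtain ⟨y, hy, ey⟩ := h2
  by_cases hij : i = j
  · subst hij
    rcases alt_share (hD.alt i) (path_nodup_pts hN D i) hA hC hzA hzC (hz _) (hz _) with h | h
    · exact Or.inl ⟨rfl, h⟩
    · exact Or.inr h
  · exact absurd (ex.symm.trans ey) (D.disj i j hij x hx y hy)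

/-- `z` is the position of a vertex -/
def isV (D : Drawing N L) (z : L) : Prop := ∃ v, z = D.pos v

open Classical in
/-- the arc has an end at the vertex point `z` -/
noncomputable def gz (D : Drawing N L) (z : L) (C : Arc L) : ℕ :=
  if (C.p = z ∨ C.q = z) ∧ isV D z then 1 else 0

end

/-! ### row W1 -/

section

variable {V ι L : Type} [LinearOrder L] {N : Net V ι}

open Classical in
theorem W1_chain {a b : L} {r : List (Bool × L)} {s : Bool} {z : L}
    (hab : ¬ (a = z ∧ b = z)) (hz : ∀ x ∈ r, x.2 ≠ z) :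
    ((arcs a r s b).map (fun C : Arc L => if C.p = z ∨ C.q = z then 1 else 0)).sum ≤
      if a = z ∨ b = z then 1 else 0 := by
  induction r generalizing a with
  | nil => simp [arcs]
  | cons x r ih =>
    obtain ⟨s₁, p⟩ := x
    have hp : p ≠ z := hz (s₁, p) List.mem_cons_self
    have h1 := ih (a := p) (fun h => hp h.1) (fun y hy => hz y (List.mem_cons_of_mem _ hy))
    simp only [arcs, List.map_cons, List.sum_cons]
    by_cases ha : a = z
    · have hb : b ≠ z := fun h => hab ⟨ha, h⟩
      rw [if_neg (by rintro (h | h); exacts [hp h, hb h])] at h1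
      rw [if_pos (Or.inl ha), if_pos (Or.inl ha)]
      omega
    · rw [if_neg (by rintro (h | h); exacts [ha h, hp h])]
      by_cases hb : b = z
      · rw [if_pos (Or.inr hb)] at h1 ⊢
        omega
      · rw [if_neg (by rintro (h | h); exacts [hp h, hb h])] at h1
        omega

open Classical in
/-- At most one arc of an edge has an end at a vertex. -/
theorem sum_gz (hN : ∀ i, N.src i ≠ N.tgt i) (D : Drawing N L) (j : ι) (z : L) :
    ((D.path j).map (gz D z)).sum ≤
      if D.pos (N.src j) = z ∨ D.pos (N.tgt j) = z then 1 else 0 := by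
  by_cases hv : isV D z
  · obtain ⟨v, rfl⟩ := hv
    have h1 : ((D.path j).map (gz D (D.pos v))).sum =
        ((D.path j).map (fun C : Arc L =>
          if C.p = D.pos v ∨ C.q = D.pos v then 1 else 0)).sum := by
      refine congrArg List.sum (List.map_congr_left ?_)
      intro C _
      unfold gz
      by_cases h : C.p = D.pos v ∨ C.q = D.pos v
      · rw [if_pos ⟨h, v, rfl⟩, if_pos h]
      · rw [if_neg (fun h' => h h'.1), if_neg h]
    rw [h1]
    refine W1_chain ?_ ?_
    · rintro ⟨e1, e2⟩
      exact hN j (D.pos_inj (e1.trans e2.symm))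
    · intro x hx
      exact D.avoid j x hx v
  · have h1 : ((D.path j).map (gz D z)).sum = 0 := by
      refine List.sum_eq_zero ?_
      intro m hm
      obtain ⟨C, _, rfl⟩ := List.mem_map.1 hm
      unfold gz
      rw [if_neg (fun h' => hv h'.2)]
    rw [h1]
    exact Nat.zero_le _

end

/-! ### row W2 -/

section

variable {V ι L : Type} [LinearOrder L] {N : Net V ι}

private theorem W2_mkne (x y : L) (r s : ℤ) (h : x ≠ y) :
    (mk x r : L ×ₗ ℤ) < mk y s ↔ x < y := by
  rw [Contr.lt_iff]; simp [h]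

private theorem W2_mkeq (c : L) (r r' : ℤ) : (mk c r : L ×ₗ ℤ) < mk c r' ↔ r < r' := by
  rw [Contr.lt_iff]; simp

theorem X_free (z z' : L) (h h' : ℤ) (u : Bool) (C : Arc L) (h1 : ¬ (C.p = z ∨ C.q = z))
    (h2 : ¬ (C.p = z' ∨ C.q = z')) : X ⟨mk z h, mk z' h', u⟩ (up0 C) = X ⟨z, z', u⟩ C := by
  obtain ⟨p, q, v⟩ := C
  simp only [not_or] at h1 h2
  obtain ⟨a1, a2⟩ := h1
  obtain ⟨b1, b2⟩ := h2
  unfold up0 X Ilv MP60f107.Btw Ots
  refine if_congr ?_ rfl rfl
  simp only [W2_mkne _ _ _ _ a1, W2_mkne _ _ _ _ a2, W2_mkne _ _ _ _ b1, W2_mkne _ _ _ _ b2,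
    W2_mkne _ _ _ _ (Ne.symm a1), W2_mkne _ _ _ _ (Ne.symm a2), W2_mkne _ _ _ _ (Ne.symm b1),
    W2_mkne _ _ _ _ (Ne.symm b2)]

/-- The lifted arc does not cross the arc itself if the heights have different signs. -/
theorem X_par (z z' : L) (h h' : ℤ) (hh : h * h' ≤ 0) (u : Bool) (C : Arc L) (hne : C.p ≠ C.q)
    (h1 : (z = C.p ∧ z' = C.q) ∨ (z = C.q ∧ z' = C.p)) :
    X ⟨mk z h, mk z' h', u⟩ (up0 C) = 0 := by
  obtain ⟨p, q, v⟩ := C
  simp only at h1 hne
  have hs : (h ≤ 0 ∧ 0 ≤ h') ∨ (0 ≤ h ∧ h' ≤ 0) := by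
    rcases le_total h 0 with h3 | h3 <;> rcases le_total h' 0 with h4 | h4
    · rcases eq_or_lt_of_le h3 with h5 | h5
      · right; omega
      · rcases eq_or_lt_of_le h4 with h6 | h6
        · left; omega
        · exfalso
          have := mul_pos_of_neg_of_neg h5 h6
          omega
    · left; omega
    · right; omega
    · rcases eq_or_lt_of_le h3 with h5 | h5
      · left; omega
      · rcases eq_or_lt_of_le h4 with h6 | h6
        · right; omega
        · exfalso
          have := mul_pos h5 h6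
          omega
  clear hh
  rcases h1 with ⟨rfl, rfl⟩ | ⟨rfl, rfl⟩
  · unfold up0 X Ilv MP60f107.Btw Ots
    simp only [W2_mkne _ _ _ _ hne, W2_mkne _ _ _ _ (Ne.symm hne), W2_mkeq]
    rw [if_neg]
    grind (splits := 60)
  · unfold up0 X Ilv MP60f107.Btw Ots
    simp only [W2_mkne _ _ _ _ hne, W2_mkne _ _ _ _ (Ne.symm hne), W2_mkeq]
    rw [if_neg]
    grind (splits := 60)

end

/-! ### row W3 -/

section

variable {V ι L : Type} [LinearOrder L] {N : Net V ι}

theorem W3_crL1 {M : Type} [LinearOrder M] (A : Arc M) (Q : List (Arc M)) :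
    crL [A] Q = (Q.map (X A)).sum := by
  simp [crL]

theorem W3_X_end (hN : ∀ i, N.src i ≠ N.tgt i) {D : Drawing N L} (hD : Tidy D) {i j : ι}
    {A C : Arc L} (hA : A ∈ D.path i) (hC : C ∈ D.path j) (z z' : L)
    (hz : (z = A.p ∧ z' = A.q) ∨ (z = A.q ∧ z' = A.p)) (h h' : ℤ) (hh : h * h' ≤ 0) {w : L}
    (hw : w = z ∨ w = z') (hCw : C.p = w ∨ C.q = w) (hv : ¬ isV D w) :
    X ⟨mk z h, mk z' h', A.up⟩ (up0 C) = 0 := by
  have hAw : A.p = w ∨ A.q = w := by
    rcases hz with ⟨h1, h2⟩ | ⟨h1, h2⟩ <;> rcases hw with h3 | h3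
    · exact Or.inl (by rw [h3, h1])
    · exact Or.inr (by rw [h3, h2])
    · exact Or.inr (by rw [h3, h1])
    · exact Or.inl (by rw [h3, h2])
  rcases share hN hD hA hC hAw hCw (fun v hv' => hv ⟨v, hv'⟩) with ⟨_, rfl⟩ | hup
  · exact X_par z z' h h' hh A.up A (path_ends_ne hN D hA) hz
  · unfold X
    rw [if_neg]
    exact fun h' => hup h'.1

theorem W3_point (hN : ∀ i, N.src i ≠ N.tgt i) {D : Drawing N L} (hD : Tidy D) {i j : ι}
    {A C : Arc L} (hA : A ∈ D.path i) (hC : C ∈ D.path j) (z z' : L)
    (hz : (z = A.p ∧ z' = A.q) ∨ (z = A.q ∧ z' = A.p)) (h h' : ℤ) (hh : h * h' ≤ 0) :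
    X ⟨mk z h, mk z' h', A.up⟩ (up0 C) ≤ X A C + gz D z C + gz D z' C := by
  have h1 : X ⟨mk z h, mk z' h', A.up⟩ (up0 C) ≤ 1 := Nrm.X_le_one _ _
  by_cases c1 : C.p = z ∨ C.q = z
  · by_cases v1 : isV D z
    · have : gz D z C = 1 := if_pos ⟨c1, v1⟩
      omega
    · rw [W3_X_end hN hD hA hC z z' hz h h' hh (Or.inl rfl) c1 v1]
      exact Nat.zero_le _
  · by_cases c2 : C.p = z' ∨ C.q = z'
    · by_cases v2 : isV D z'
      · have : gz D z' C = 1 := if_pos ⟨c2, v2⟩
        omega
      · rw [W3_X_end hN hD hA hC z z' hz h h' hh (Or.inr rfl) c2 v2]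
        exact Nat.zero_le _
    · rw [X_free z z' h h' A.up C c1 c2]
      have e : X ⟨z, z', A.up⟩ C = X A C := by
        rcases hz with ⟨rfl, rfl⟩ | ⟨rfl, rfl⟩
        · rfl
        · exact Nrm.X_swap A C
      omega

variable [Fintype ι]

theorem W3_dv (hN : ∀ i, N.src i ≠ N.tgt i) (D : Drawing N L) (z : L) :
    ∑ j, ((D.path j).map (gz D z)).sum ≤ dv D z := by
  unfold dv
  rw [Finset.card_filter]
  refine Finset.sum_le_sum fun j _ => (sum_gz hN D j z).trans ?_
  by_cases hc : D.pos (N.src j) = z ∨ D.pos (N.tgt j) = z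
  · simp only [if_pos hc, le_refl]
  · simp only [if_neg hc, le_refl]

theorem arc_cost (hN : ∀ i, N.src i ≠ N.tgt i) {D : Drawing N L} (hD : Tidy D) {i : ι}
    {A : Arc L} (hA : A ∈ D.path i) (z z' : L)
    (hz : (z = A.p ∧ z' = A.q) ∨ (z = A.q ∧ z' = A.p)) (h h' : ℤ) (hh : h * h' ≤ 0) :
    ∑ j, crL [⟨mk z h, mk z' h', A.up⟩] ((lift D).path j) ≤ kap D A + dv D z + dv D z' := by
  have key : ∀ j, crL [⟨mk z h, mk z' h', A.up⟩] ((lift D).path j) ≤
      crL [A] (D.path j) + ((D.path j).map (gz D z)).sum + ((D.path j).map (gz D z')).sum := by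
    intro j
    rw [lift_path, W3_crL1, W3_crL1, List.map_map, ← List.sum_map_add, ← List.sum_map_add]
    exact List.sum_le_sum fun C hC => W3_point hN hD hA hC z z' hz h h' hh
  refine (Finset.sum_le_sum fun j _ => key j).trans ?_
  rw [Finset.sum_add_distrib, Finset.sum_add_distrib]
  have h1 := W3_dv hN D z
  have h2 := W3_dv hN D z'
  unfold kap
  omega

end

/-! ### row W4 -/

section

variable {V ι L : Type} [LinearOrder L] {N : Net V ι}

private theorem W4_path_lift (D : Drawing N L) (k : ι) :
    (lift D).path k = (D.path k).map up0 :=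
  (Contr.arcs_map (fun x => mk x 0) (D.pos (N.src k)) (D.inner k) (D.last k)
    (D.pos (N.tgt k))).symm

private theorem W4_crL_lift (D : Drawing N L) (k : ι) (Y : Arc (L ×ₗ ℤ)) :
    crL [Y] ((lift D).path k) = ((D.path k).map fun C => X Y (up0 C)).sum := by
  rw [W4_path_lift]
  simp [crL, List.map_map, Function.comp_def]

private theorem W4_two {A B C : Arc L} {P : List (Arc L)} (hB : B ∈ P) (hC : C ∈ P)
    (hne : B ≠ C) : X A B + X A C ≤ crL [A] P := by
  obtain ⟨P1, P2, rfl⟩ := List.append_of_mem hB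
  rw [Nrm.crL_append_right, Nrm.crL_cons_right, Nrm.crL_single]
  have hC' : C ∈ P1 ∨ C ∈ P2 := by
    rw [List.mem_append, List.mem_cons] at hC
    rcases hC with h | h | h
    · exact Or.inl h
    · exact absurd h.symm hne
    · exact Or.inr h
  rcases hC' with h | h
  · have := Nrm.X_le_crL (A := A) (B := C) (P := [A]) (Q := P1) (by simp) h
    omega
  · have := Nrm.X_le_crL (A := A) (B := C) (P := [A]) (Q := P2) (by simp) h
    omega

variable [Fintype ι]

private theorem W4_uniq (D : Drawing N L) {j k : ι} {A B C : Arc L} (hk : kap D A ≤ 1)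
    (hB : B ∈ D.path j) (hC : C ∈ D.path k) (hX : X A B ≠ 0) (hX' : X A C ≠ 0) :
    k = j ∧ C = B := by
  classical
  have hkap : kap D A = ∑ j, crL [A] (D.path j) := rfl
  by_cases hkj : k = j
  · subst hkj
    refine ⟨rfl, ?_⟩
    by_contra hne
    have h1 := W4_two (A := A) hB hC (Ne.symm hne)
    have h2 : crL [A] (D.path k) ≤ ∑ j, crL [A] (D.path j) :=
      Finset.single_le_sum (f := fun j => crL [A] (D.path j)) (fun _ _ => Nat.zero_le _)
        (Finset.mem_univ k)
    omega
  · exfalso
    have h1 := Nrm.X_le_crL (A := A) (B := B) (P := [A]) (by simp) hB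
    have h2 := Nrm.X_le_crL (A := A) (B := C) (P := [A]) (by simp) hC
    have h3 : crL [A] (D.path k) + crL [A] (D.path j) ≤ ∑ j, crL [A] (D.path j) := by
      have := Finset.sum_le_sum_of_subset (f := fun j => crL [A] (D.path j))
        (Finset.subset_univ ({k, j} : Finset ι))
      rwa [Finset.sum_pair hkj] at this
    omega

private theorem W4_sum_ind (hN : ∀ i, N.src i ≠ N.tgt i) (D : Drawing N L) (i : ι) (A : Arc L) :
    ∑ k, ((D.path k).map fun C => @ite ℕ (k = i ∧ C = A) (Classical.dec _) 1 0).sum ≤ 1 := by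
  classical
  rw [Finset.sum_eq_single i]
  · have hnd := path_nodup hN D i
    generalize D.path i = P at hnd
    induction P with
    | nil => simp
    | cons B P ih =>
      rw [List.nodup_cons] at hnd
      have ih' := ih hnd.2
      rw [List.map_cons, List.sum_cons]
      by_cases hB : B = A
      · subst hB
        have hz : (P.map fun C => @ite ℕ (i = i ∧ C = B) (Classical.dec _) 1 0).sum = 0 := by
          apply List.sum_eq_zero
          intro x hx
          obtain ⟨C, hC, rfl⟩ := List.mem_map.1 hx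
          rw [if_neg]
          rintro ⟨-, rfl⟩
          exact hnd.1 hC
        rw [hz]
        split_ifs <;> simp
      · rw [if_neg (fun h => hB h.2), zero_add]
        exact ih'
  · intro k _ hk
    apply List.sum_eq_zero
    intro x hx
    obtain ⟨C, hC, rfl⟩ := List.mem_map.1 hx
    rw [if_neg]
    rintro ⟨h, -⟩
    exact hk h
  · intro h
    exact absurd (Finset.mem_univ i) h

private theorem W4_sum_gz (hN : ∀ i, N.src i ≠ N.tgt i) (D : Drawing N L) (z : L) :
    ∑ k, ((D.path k).map (gz D z)).sum ≤ dv D z := by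
  refine (Finset.sum_le_sum fun k _ => sum_gz hN D k z).trans ?_
  rw [dv, Finset.card_eq_sum_ones, Finset.sum_filter]

private theorem W4_shortcut {A B C : Arc L} (hX : X A B = 1) {z z' : L} (hz : z = A.p ∨ z = A.q)
    (hz' : z' = B.p ∨ z' = B.q) : X ⟨z, z', A.up⟩ C ≤ X A C + X B C := by
  have h0 := Nrm.X_ne.1 (by rw [hX]; exact one_ne_zero : X A B ≠ 0)
  obtain ⟨hup, hil⟩ := h0
  have swB : ∀ p q : L, X (⟨q, p, A.up⟩ : Arc L) C = X ⟨p, q, A.up⟩ C := fun p q =>
    Nrm.X_swap ⟨p, q, A.up⟩ C
  have eA : X A C = X ⟨A.p, A.q, A.up⟩ C := rfl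
  have eB : X B C = X ⟨B.p, B.q, A.up⟩ C := by rw [hup]
  rw [eA, eB]
  rcases hz with rfl | rfl <;> rcases hz' with rfl | rfl
  · have h1 : Ilv A.p A.q B.q B.p := by
      have := Nrm.ilv_swap.1 (Nrm.ilv_comm hil)
      exact Nrm.ilv_comm this
    have := Nrm.X_shortcut (s := A.up) h1 C
    rw [swB B.p B.q] at this
    exact this
  · exact Nrm.X_shortcut (s := A.up) hil C
  · have h1 : Ilv A.q A.p B.q B.p := by
      have := Nrm.ilv_swap.1 (Nrm.ilv_comm (Nrm.ilv_swap.1 hil))
      exact Nrm.ilv_comm this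
    have := Nrm.X_shortcut (s := A.up) h1 C
    rw [swB B.p B.q, swB A.p A.q] at this
    exact this
  · have h1 : Ilv A.q A.p B.p B.q := Nrm.ilv_swap.1 hil
    have := Nrm.X_shortcut (s := A.up) h1 C
    rw [swB A.p A.q] at this
    exact this

theorem sw_cost (hN : ∀ i, N.src i ≠ N.tgt i) {D : Drawing N L} (hD : Tidy D) (hr : Refined D)
    {i j : ι} {A B : Arc L} (hA : A ∈ D.path i) (hB : B ∈ D.path j) (hX : X A B = 1) (z z' : L)
    (hz : z = A.p ∨ z = A.q) (hz' : z' = B.p ∨ z' = B.q) (h h' : ℤ) :
    ∑ k, crL [⟨mk z h, mk z' h', A.up⟩] ((lift D).path k) ≤ 2 + dv D z + dv D z' := by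
  classical
  have hup : A.up = B.up := (Nrm.X_ne.1 (by rw [hX]; exact one_ne_zero : X A B ≠ 0)).1
  have hpt : ∀ k, ∀ C ∈ D.path k, X (⟨mk z h, mk z' h', A.up⟩ : Arc (L ×ₗ ℤ)) (up0 C) ≤
      @ite ℕ (k = i ∧ C = A) (Classical.dec _) 1 0 + @ite ℕ (k = j ∧ C = B) (Classical.dec _) 1 0 +
        gz D z C + gz D z' C := by
    intro k C hC
    by_cases h0 : X (⟨mk z h, mk z' h', A.up⟩ : Arc (L ×ₗ ℤ)) (up0 C) = 0
    · omega
    have h1 := Nrm.X_le_one (⟨mk z h, mk z' h', A.up⟩ : Arc (L ×ₗ ℤ)) (up0 C)
    have hupC : A.up = C.up := (Nrm.X_ne.1 h0).1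
    have key : (k = i ∧ C = A) ∨ (k = j ∧ C = B) ∨ gz D z C = 1 ∨ gz D z' C = 1 := by
      by_cases hCz : C.p = z ∨ C.q = z
      · by_cases hv : isV D z
        · right; right; left
          unfold gz
          rw [if_pos ⟨hCz, hv⟩]
        · have hzA : A.p = z ∨ A.q = z := by
            rcases hz with h | h
            · exact Or.inl h.symm
            · exact Or.inr h.symm
          rcases share hN hD hA hC hzA hCz (fun v hv' => hv ⟨v, hv'⟩) with h2 | h2
          · exact Or.inl ⟨h2.1.symm, h2.2.symm⟩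
          · exact absurd hupC h2
      by_cases hCz' : C.p = z' ∨ C.q = z'
      · by_cases hv : isV D z'
        · right; right; right
          unfold gz
          rw [if_pos ⟨hCz', hv⟩]
        · have hzB : B.p = z' ∨ B.q = z' := by
            rcases hz' with h | h
            · exact Or.inl h.symm
            · exact Or.inr h.symm
          rcases share hN hD hB hC hzB hCz' (fun v hv' => hv ⟨v, hv'⟩) with h2 | h2
          · exact Or.inr (Or.inl ⟨h2.1.symm, h2.2.symm⟩)
          · exact absurd (hup.symm.trans hupC) h2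
      rw [X_free z z' h h' A.up C hCz hCz'] at h0
      have h2 := W4_shortcut (C := C) hX hz hz'
      by_cases h3 : X A C = 0
      · have h4 : X B C ≠ 0 := by omega
        have h5 : X B A ≠ 0 := by rw [Nrm.X_comm, hX]; exact one_ne_zero
        exact Or.inl (W4_uniq D (hr j B hB) hA hC h5 h4)
      · have h5 : X A B ≠ 0 := by rw [hX]; exact one_ne_zero
        exact Or.inr (Or.inl (W4_uniq D (hr i A hA) hB hC h5 h3))
    rcases key with h2 | h2 | h2 | h2
    · rw [if_pos h2]; omega
    · rw [if_pos h2]; omega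
    · omega
    · omega
  have hsum : ∀ k, crL [⟨mk z h, mk z' h', A.up⟩] ((lift D).path k) ≤
      ((D.path k).map fun C => @ite ℕ (k = i ∧ C = A) (Classical.dec _) 1 0).sum +
      ((D.path k).map fun C => @ite ℕ (k = j ∧ C = B) (Classical.dec _) 1 0).sum +
      ((D.path k).map (gz D z)).sum + ((D.path k).map (gz D z')).sum := by
    intro k
    rw [W4_crL_lift]
    have hk := hpt k
    generalize D.path k = P at hk
    induction P with
    | nil => simp
    | cons C P ih =>
      have h1 := hk C List.mem_cons_self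
      have h2 := ih fun C' hC' => hk C' (List.mem_cons_of_mem _ hC')
      simp only [List.map_cons, List.sum_cons]
      omega
  have e1 := W4_sum_ind hN D i A
  have e2 := W4_sum_ind hN D j B
  have e3 := W4_sum_gz hN D z
  have e4 := W4_sum_gz hN D z'
  have e5 := Finset.sum_le_sum fun k (_ : k ∈ Finset.univ) => hsum k
  rw [Finset.sum_add_distrib, Finset.sum_add_distrib, Finset.sum_add_distrib] at e5
  omega

end

/-! ### row W5 -/

section

variable {V ι L : Type} [LinearOrder L] {N : Net V ι}

private theorem W5_step [Fintype ι] (hN : ∀ i, N.src i ≠ N.tgt i) {D : Drawing N L} (hD : Tidy D)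
    (hr : Refined D) {z z' : L} {s : Bool} {c : ℕ} (hs : Step D z z' s c) (h h' : ℤ)
    (hh : h * h' ≤ 0) : ∑ j, crL [⟨mk z h, mk z' h', s⟩] ((lift D).path j) ≤ c := by
  cases hs with
  | arc i A hA _ _ hz => exact arc_cost hN hD hA z z' hz h h' hh
  | sw i j A B hA hB hX _ _ hz hz' => exact sw_cost hN hD hr hA hB hX z z' hz hz' h h'

private theorem W5_walk [Fintype ι] (hN : ∀ i, N.src i ≠ N.tgt i) {D : Drawing N L} (hD : Tidy D)
    (hr : Refined D) {z z'' : L} {t : ℕ} (w : Wk D z z'' t) : z ≠ z'' → ∀ h : ℤ,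
    ∃ (γ : List (Bool × (L ×ₗ ℤ))) (s : Bool), (∀ x ∈ γ, |h| < |ht x.2|) ∧
      (γ.map Prod.snd).Nodup ∧
      ∑ j, crL (arcs (mk z h) γ s (mk z'' 0)) ((lift D).path j) ≤ t := by
  induction w with
  | nil z => exact fun h => absurd rfl h
  | @cons z z' z'' s c t hs w ih =>
    intro _ h
    by_cases hz : z' = z''
    · subst hz
      refine ⟨[], s, by simp, by simp, ?_⟩
      exact (W5_step hN hD hr hs h 0 (by rw [mul_zero])).trans (Nat.le_add_right _ _)
    · obtain ⟨h', h1, h2⟩ : ∃ h' : ℤ, |h'| = |h| + 1 ∧ h * h' ≤ 0 := by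
        rcases le_total 0 h with h0 | h0
        · refine ⟨-(h + 1), ?_, ?_⟩
          · rw [abs_neg, abs_of_nonneg (by omega), abs_of_nonneg h0]
          · nlinarith
        · refine ⟨-h + 1, ?_, ?_⟩
          · rw [abs_of_nonneg (by omega), abs_of_nonpos h0]
          · nlinarith
      obtain ⟨γ, s', g1, g2, g3⟩ := ih hz h'
      refine ⟨(s, mk z' h') :: γ, s', ?_, ?_, ?_⟩
      · intro x hx
        rcases List.mem_cons.1 hx with rfl | hx
        · simp only [Contr.ht_mk]
          omega
        · have := g1 x hx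
          omega
      · rw [List.map_cons, List.nodup_cons]
        refine ⟨?_, g2⟩
        intro hx
        obtain ⟨x, hx, hx2⟩ := List.mem_map.1 hx
        have := g1 x hx
        rw [hx2] at this
        simp only [Contr.ht_mk] at this
        omega
      · have e : ∀ j, crL (arcs (mk z h) ((s, mk z' h') :: γ) s' (mk z'' 0)) ((lift D).path j) =
            crL [⟨mk z h, mk z' h', s⟩] ((lift D).path j) +
              crL (arcs (mk z' h') γ s' (mk z'' 0)) ((lift D).path j) := by
          intro j
          simp only [arcs]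
          exact Nrm.crL_cons_left _ _ _
        simp only [e]
        rw [Finset.sum_add_distrib]
        exact add_le_add (W5_step hN hD hr hs h h' h2) g3


private theorem W5_ht (D : Drawing N L) (j : ι) (B : Arc (L ×ₗ ℤ))
    (hB : B ∈ (lift D).path j) : ht B.p = 0 ∧ ht B.q = 0 := by
  have hi : ∀ y ∈ (lift D).inner j, ht y.2 = 0 := by
    intro y hy
    obtain ⟨x, _, rfl⟩ := List.mem_map.1 hy
    rfl
  constructor
  · rcases Fg.mem_arcs_left hB with h | ⟨y, hy, h⟩
    · rw [h]
      rfl
    · rw [h]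
      exact hi y hy
  · rcases Fg.mem_arcs_right hB with h | ⟨y, hy, h⟩
    · rw [h]
      rfl
    · rw [h]
      exact hi y hy

/-- W. A walk gives a fresh chain. -/
theorem near_chain [Fintype ι] (hN : ∀ i, N.src i ≠ N.tgt i) {D : Drawing N L} (hD : Tidy D)
    (hr : Refined D) {a b : V} (hab : a ≠ b) {t : ℕ} (h : Near D (D.pos a) (D.pos b) t) :
    ∃ γ s, Chain D a b γ s t := by
  obtain ⟨t', ht', w⟩ := h
  obtain ⟨γ, s, h1, h2, h3⟩ := W5_walk hN hD hr w (fun e => hab (D.pos_inj e)) 0
  obtain ⟨γ', k1, k2, k3, k4⟩ := Nrm.exists_normal (mk (D.pos a) 0) (mk (D.pos b) 0) s γ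
  have hf : ∀ x ∈ γ, ht x.2 ≠ 0 := by
    intro x hx h0
    have := h1 x hx
    rw [h0] at this
    exact lt_irrefl _ this
  refine ⟨γ', s, k2, h2.sublist (k1.map _), fun x hx => hf x (k1.subset hx), k3, ?_⟩
  refine (Finset.sum_le_sum fun j _ => k4 _ ?_).trans (h3.trans ht')
  intro B hB x hx
  obtain ⟨e1, e2⟩ := W5_ht D j B hB
  constructor
  · intro e
    exact hf x hx (by rw [e, e1])
  · intro e
    exact hf x hx (by rw [e, e2])

theorem chain_nil [Fintype ι] (D : Drawing N L) {a b : V} (hab : a ≠ b) :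
    ∃ t, Chain D a b [] true t := by
  refine ⟨_, trivial, by simp, by simp, ?_, le_rfl⟩
  simp only [arcs]
  rw [Nrm.crL_single]
  exact Nrm.X_self _

end

end TA
end MP881e12
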